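import Pool.Agent.MP_e77664_al.Defs

/-! # Inner rank and block matrices -/

set_option autoImplicit false

namespace Pool.Agent.FGDiv

open Matrix

variable {R : Type} [Ring R]

theorem Fac.submatrix {m n m' n' : Type} {A : Matrix m n R} {r : ℕ} (h : Fac A r) (f : m' → m)
    (g : n' → n) : Fac (A.submatrix f g) r := by
  obtain ⟨P, Q, rfl⟩ := h
  refine ⟨P.submatrix f id, Q.submatrix id g, ?_⟩
  ext i j
  simp [Matrix.mul_apply]

theorem Fac.mul_left {l m n : Type} [Fintype m] {A : Matrix m n R} {r : ℕ} (h : Fac A r)
    (C : Matrix l m R) : Fac (C * A) r := by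
  obtain ⟨P, Q, rfl⟩ := h
  exact ⟨C * P, Q, by rw [Matrix.mul_assoc]⟩

theorem Fac.mul_right {m n p : Type} [Fintype n] {A : Matrix m n R} {r : ℕ} (h : Fac A r)
    (C : Matrix n p R) : Fac (A * C) r := by
  obtain ⟨P, Q, rfl⟩ := h
  exact ⟨P, Q * C, by rw [Matrix.mul_assoc]⟩

/-- a factorisation through any finite index type of the right size -/
theorem Fac.of_mul {m n l : Type} [Fintype l] (P : Matrix m l R) (Q : Matrix l n R) :
    Fac (P * Q) (Fintype.card l) := by
  classical
  refine ⟨P.submatrix id (Fintype.equivFin l).symm, Q.submatrix (Fintype.equivFin l).symm id, ?_⟩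
  ext i j
  simp only [Matrix.mul_apply, Matrix.submatrix_apply, id]
  exact (Equiv.sum_comp (Fintype.equivFin l).symm (fun k => P i k * Q k j)).symm

theorem Fac.self {m n : Type} [Fintype n] (A : Matrix m n R) : Fac A (Fintype.card n) := by
  classical
  have := Fac.of_mul A (1 : Matrix n n R)
  rwa [Matrix.mul_one] at this

theorem Fac.self_left {m n : Type} [Fintype m] (A : Matrix m n R) : Fac A (Fintype.card m) := by
  classical
  have := Fac.of_mul (1 : Matrix m m R) A
  rwa [Matrix.one_mul] at this

theorem Fac.zero {m n : Type} : Fac (0 : Matrix m n R) 0 :=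
  ⟨0, 0, by simp⟩

theorem Fac.succ {m n : Type} {A : Matrix m n R} {r : ℕ} (h : Fac A r) : Fac A (r + 1) := by
  obtain ⟨P, Q, rfl⟩ := h
  refine ⟨fun i => Fin.snoc (α := fun _ => R) (P i) 0,
    fun k j => Fin.snoc (α := fun _ => R) (fun k' => Q k' j) 0 k, ?_⟩
  ext i j
  simp [Matrix.mul_apply, Fin.sum_univ_castSucc]

theorem Fac.mono {m n : Type} {A : Matrix m n R} {r s : ℕ} (h : Fac A r) (hrs : r ≤ s) :
    Fac A s := by
  induction s, hrs using Nat.le_induction with
  | base => exact h
  | succ k _ ih => exact ih.succ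

theorem Full.of_equiv {m n : Type} [Fintype m] [Fintype n] (e : m ≃ n)
    {A : Matrix m m R} (h : Full A) : Full (A.submatrix e.symm e.symm) := by
  intro r hr
  have h1 : Fac ((A.submatrix e.symm e.symm).submatrix e e) r := hr.submatrix e e
  have h2 : (A.submatrix e.symm e.symm).submatrix e e = A := by
    ext i j
    simp
  rw [h2] at h1
  rw [← Fintype.card_congr e]
  exact h r h1

/-- fullness may be checked after a permutation of rows and columns -/
theorem Full.of_equiv₂ {m n : Type} [Fintype m] [Fintype n] (e f : n ≃ m)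
    {A : Matrix m m R} (h : Full A) : Full (A.submatrix e f) := by
  intro r hr
  have h1 : Fac ((A.submatrix e f).submatrix e.symm f.symm) r := hr.submatrix _ _
  have h2 : (A.submatrix e f).submatrix e.symm f.symm = A := by
    ext i j
    simp
  rw [h2] at h1
  rw [Fintype.card_congr e]
  exact h r h1

/-- transport of a full matrix to `Fin` -/
theorem Full.toFin {n : Type} [Fintype n] {A : Matrix n n R} (h : Full A) :
    Full (A.submatrix (Fintype.equivFin n).symm (Fintype.equivFin n).symm) :=
  h.of_equiv (Fintype.equivFin n)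

theorem Syl.general (h : Syl R) {m n p : Type} [Fintype m] [Fintype n]
    [Fintype p] (A : Matrix m n R) (B : Matrix n p R) (hAB : A * B = 0) :
    ∃ a b : ℕ, a + b = Fintype.card n ∧ Fac A a ∧ Fac B b := by
  classical
  set em := Fintype.equivFin m
  set en := Fintype.equivFin n
  set ep := Fintype.equivFin p
  have h1 : A.submatrix em.symm en.symm * B.submatrix en.symm ep.symm = 0 := by
    rw [Matrix.submatrix_mul_equiv, hAB]
    rfl
  obtain ⟨a, b, hab, hA, hB⟩ := h _ _ _ _ _ h1
  refine ⟨a, b, hab, ?_, ?_⟩
  · have := hA.submatrix em en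
    rwa [show (A.submatrix em.symm en.symm).submatrix em en = A by ext i j; simp] at this
  · have := hB.submatrix en ep
    rwa [show (B.submatrix en.symm ep.symm).submatrix en ep = B by ext i j; simp] at this

theorem Full.fromBlocks_upper (h : Syl R) {m n : Type} [Fintype m] [Fintype n]
    {A : Matrix m m R} {B : Matrix n n R} (hA : Full A) (hB : Full B) (C : Matrix m n R) :
    Full (fromBlocks A C 0 B) := by
  rintro r ⟨P, Q, hPQ⟩
  have e11 : A = P.submatrix Sum.inl id * Q.submatrix id Sum.inl := by
    ext i j
    have := congrFun (congrFun hPQ (Sum.inl i)) (Sum.inl j)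
    simpa [Matrix.mul_apply] using this
  have e21 : P.submatrix Sum.inr id * Q.submatrix id (Sum.inl : m → m ⊕ n) = 0 := by
    ext i j
    have := congrFun (congrFun hPQ (Sum.inr i)) (Sum.inl j)
    simpa [Matrix.mul_apply, eq_comm] using this
  have e22 : B = P.submatrix Sum.inr id * Q.submatrix id Sum.inr := by
    ext i j
    have := congrFun (congrFun hPQ (Sum.inr i)) (Sum.inr j)
    simpa [Matrix.mul_apply] using this
  obtain ⟨a, b, hab, h1, h2⟩ := h.general _ _ e21
  rw [Fintype.card_fin] at hab
  have hb : Fintype.card n ≤ a := hB a (e22 ▸ h1.mul_right _)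
  have ha : Fintype.card m ≤ b := hA b (e11 ▸ h2.mul_left _)
  rw [Fintype.card_sum]
  omega

theorem Full.fromBlocks_lower (h : Syl R) {m n : Type} [Fintype m] [Fintype n]
    {A : Matrix m m R} {B : Matrix n n R} (hA : Full A) (hB : Full B) (C : Matrix n m R) :
    Full (fromBlocks A 0 C B) := by
  rintro r ⟨P, Q, hPQ⟩
  have e11 : A = P.submatrix Sum.inl id * Q.submatrix id Sum.inl := by
    ext i j
    have := congrFun (congrFun hPQ (Sum.inl i)) (Sum.inl j)
    simpa [Matrix.mul_apply] using this
  have e12 : P.submatrix (Sum.inl : m → m ⊕ n) id * Q.submatrix id (Sum.inr : n → m ⊕ n) = 0 := by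
    ext i j
    have := congrFun (congrFun hPQ (Sum.inl i)) (Sum.inr j)
    simpa [Matrix.mul_apply, eq_comm] using this
  have e22 : B = P.submatrix Sum.inr id * Q.submatrix id Sum.inr := by
    ext i j
    have := congrFun (congrFun hPQ (Sum.inr i)) (Sum.inr j)
    simpa [Matrix.mul_apply] using this
  obtain ⟨a, b, hab, h1, h2⟩ := h.general _ _ e12
  rw [Fintype.card_fin] at hab
  have ha : Fintype.card m ≤ a := hA a (e11 ▸ h1.mul_right _)
  have hb : Fintype.card n ≤ b := hB b (e22 ▸ h2.mul_left _)
  rw [Fintype.card_sum]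
  omega

/-- the factors of a full matrix, when square, are full -/
theorem Full.of_mul_left {m n : Type} [Fintype m] [Fintype n]
    {P : Matrix m n R} {Q : Matrix n m R} (h : Full (P * Q)) (e : n ≃ m) :
    Full (P.submatrix id e.symm) := by
  intro r hr
  refine h r ?_
  have : P * Q = P.submatrix id e.symm * Q.submatrix e.symm id := by
    ext i j
    simp only [Matrix.mul_apply, Matrix.submatrix_apply, id]
    exact (Equiv.sum_comp e.symm (fun k => P i k * Q k j)).symm
  rw [this]
  exact hr.mul_right _

theorem Full.left_factor {n : Type} [Fintype n] {P Q : Matrix n n R} (h : Full (P * Q)) :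
    Full P := fun r hr => h r (hr.mul_right _)

theorem Full.right_factor {n : Type} [Fintype n] {P Q : Matrix n n R} (h : Full (P * Q)) :
    Full Q := fun r hr => h r (hr.mul_left _)

/-- The identity is full over a ring with Sylvester nullity: over a nontrivial ring the
`1 × 1` identity is full. -/
theorem full_one_unit [Nontrivial R] : Full (1 : Matrix Unit Unit R) := by
  rintro r ⟨P, Q, hPQ⟩
  rcases Nat.eq_zero_or_pos r with h | h
  · subst h
    exfalso
    have := congrFun (congrFun hPQ ()) ()
    simp [Matrix.mul_apply] at this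
  · simp only [Fintype.card_unit]
    omega

theorem full_one_fin_one [Nontrivial R] : Full (1 : Matrix (Fin 1) (Fin 1) R) := by
  rintro r ⟨P, Q, hPQ⟩
  rcases Nat.eq_zero_or_pos r with h | h
  · subst h
    exfalso
    have := congrFun (congrFun hPQ 0) 0
    simp [Matrix.mul_apply] at this
  · simp only [Fintype.card_fin]
    omega

/-- an empty matrix is full -/
theorem full_of_isEmpty {n : Type} [Fintype n] [IsEmpty n] (A : Matrix n n R) : Full A := by
  intro r _
  simp

end Pool.Agent.FGDiv
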