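import Mathlib

/-!
# Inner rank, full matrices, Sylvester's law of nullity

Definitions for the construction of an infinite division ring that is finitely generated as a ring
(problem MP_e77664_al).
-/

set_option autoImplicit false

namespace Pool.Agent.FGDiv

open Matrix

/-- `A` factors through a free module of rank `r` (its inner rank is at most `r`). -/
def Fac {R : Type} [Ring R] {m n : Type} (A : Matrix m n R) (r : ℕ) : Prop :=
  ∃ (P : Matrix m (Fin r) R) (Q : Matrix (Fin r) n R), A = P * Q

/-- a full square matrix: it does not factor through a smaller free module -/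
def Full {R : Type} [Ring R] {n : Type} [Fintype n] (A : Matrix n n R) : Prop :=
  ∀ r : ℕ, Fac A r → Fintype.card n ≤ r

/-- Sylvester's law of nullity for the inner rank -/
def Syl (R : Type) [Ring R] : Prop :=
  ∀ (m n p : ℕ) (A : Matrix (Fin m) (Fin n) R) (B : Matrix (Fin n) (Fin p) R), A * B = 0 →
    ∃ a b : ℕ, a + b = n ∧ Fac A a ∧ Fac B b

/-- `i : R → D` is the universal localisation of `R` at all full matrices. -/
structure IsUF {R D : Type} [Ring R] [DivisionRing D] (i : R →+* D) : Prop where
  /-- full matrices become invertible -/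
  inv : ∀ (n : ℕ) (A : Matrix (Fin n) (Fin n) R), Full A → IsUnit (A.map i)
  /-- every homomorphism inverting all full matrices extends to `D` -/
  lift : ∀ (S : Type) [Ring S] (φ : R →+* S),
    (∀ (n : ℕ) (A : Matrix (Fin n) (Fin n) R), Full A → IsUnit (A.map φ)) →
    ∃ Φ : D →+* S, Φ.comp i = φ
  /-- `i` is an epimorphism -/
  ext : ∀ (S : Type) [Ring S] (Φ Ψ : D →+* S), Φ.comp i = Ψ.comp i → Φ = Ψ

/-- Data of a skew free ring over the division ring `κ` on the generators `Y i`:
`Y i * c = ∑ j, α c i j * Y j + β c i`. -/
structure SFData (κ I : Type) [DivisionRing κ] where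
  α : κ → I → (I →₀ κ)
  β : κ → I → κ
  α_one : ∀ i, α 1 i = Finsupp.single i 1
  α_add : ∀ c c' i, α (c + c') i = α c i + α c' i
  α_mul : ∀ c c' i, α (c * c') i = (α c i).sum fun j a => a • α c' j
  β_add : ∀ c c' i, β (c + c') i = β c i + β c' i
  β_mul : ∀ c c' i, β (c * c') i = ((α c i).sum fun j a => a * β c' j) + β c i * c'

end Pool.Agent.FGDiv
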