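import Pool.Agent.MP_e77664_al.Block

/-!
# Block D: the universal localisation is a division ring

Given a ring `R` with Sylvester's law of nullity and a nonzero left `R`-module `V` on which all full
matrices act bijectively, the endomorphisms `u A⁻¹ v` of `V` form a division ring, the universal
localisation of `R` at the full matrices.
-/

set_option autoImplicit false

namespace Pool.Agent.FGDiv

open Matrix

/-- All full matrices act bijectively on the module `W`. -/
def Good (R W : Type) [Ring R] [AddCommGroup W] [Module R W] : Prop :=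
  ∀ (n : ℕ) (A : Matrix (Fin n) (Fin n) R), Full A →
    Function.Bijective (fun (y : Fin n → W) (i : Fin n) => ∑ j, A i j • y j)

section

variable {R : Type} [Ring R] {W : Type} [AddCommGroup W] [Module R W]

theorem Good.existsUnique {ι : Type} [Fintype ι] (hW : Good R W) {A : Matrix ι ι R}
    (hA : Full A) (b : ι → W) : ∃! y : ι → W, ∀ i, ∑ j, A i j • y j = b i := by
  classical
  let e := Fintype.equivFin ι
  have hb := hW _ _ (hA.of_equiv e)
  have key : ∀ y : ι → W, (∀ i, ∑ j, A i j • y j = b i) ↔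
      (fun (y : Fin (Fintype.card ι) → W) (i : Fin (Fintype.card ι)) =>
        ∑ j, (A.submatrix e.symm e.symm) i j • y j) (y ∘ e.symm) = b ∘ e.symm := by
    intro y
    have h1 : ∀ i, ∑ j, (A.submatrix e.symm e.symm) i j • (y ∘ e.symm) j =
        ∑ j, A (e.symm i) j • y j := by
      intro i
      exact Equiv.sum_comp e.symm (fun j => A (e.symm i) j • y j)
    constructor
    · intro h
      funext i
      exact (h1 i).trans (h _)
    · intro h i
      have h2 := (h1 (e i)).symm.trans (congrFun h (e i))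
      simpa using h2
  obtain ⟨y, hy⟩ := hb.2 (b ∘ e.symm)
  refine ⟨y ∘ e, ?_, ?_⟩
  · refine (key _).2 ?_
    rw [← hy]
    congr 1
    funext i
    simp
  · intro y' hy'
    have h2 := (key _).1 hy'
    have h3 : y' ∘ e.symm = y := hb.1 (h2.trans hy.symm)
    rw [← h3]
    funext i
    simp

/-- The data `(A, u, v)` with `A` full, representing `u A⁻¹ v`. -/
structure RData (R : Type) [Ring R] where
  ι : Type
  fin : Fintype ι
  A : Matrix ι ι R
  full : Full A
  u : ι → R
  v : ι → R

attribute [instance] RData.fin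

/-- The solution of `A y = v x`. -/
noncomputable def RData.sol (ρ : RData R) (hW : Good R W) (x : W) : ρ.ι → W :=
  (hW.existsUnique ρ.full (fun i => ρ.v i • x)).choose

theorem RData.sol_spec (ρ : RData R) (hW : Good R W) (x : W) (i : ρ.ι) :
    ∑ j, ρ.A i j • ρ.sol hW x j = ρ.v i • x :=
  (hW.existsUnique ρ.full (fun i => ρ.v i • x)).choose_spec.1 i

theorem RData.sol_unique (ρ : RData R) (hW : Good R W) (x : W) (y : ρ.ι → W)
    (h : ∀ i, ∑ j, ρ.A i j • y j = ρ.v i • x) : ρ.sol hW x = y :=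
  (hW.existsUnique ρ.full (fun i => ρ.v i • x)).unique (ρ.sol_spec hW x) h

/-- The endomorphism `u A⁻¹ v`. -/
noncomputable def RData.ev (ρ : RData R) (hW : Good R W) : AddMonoid.End W where
  toFun x := ∑ j, ρ.u j • ρ.sol hW x j
  map_zero' := by
    have : ρ.sol hW 0 = fun _ => 0 := by
      apply ρ.sol_unique hW
      intro i
      simp
    simp [this]
  map_add' x y := by
    have : ρ.sol hW (x + y) = fun j => ρ.sol hW x j + ρ.sol hW y j := by
      apply ρ.sol_unique hW
      intro i
      simp only [smul_add, Finset.sum_add_distrib, ρ.sol_spec]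
    simp [this, smul_add, Finset.sum_add_distrib]

theorem RData.ev_apply (ρ : RData R) (hW : Good R W) (x : W) :
    ρ.ev hW x = ∑ j, ρ.u j • ρ.sol hW x j := rfl

theorem RData.ev_eq (ρ : RData R) (hW : Good R W) (x : W) (y : ρ.ι → W)
    (h : ∀ i, ∑ j, ρ.A i j • y j = ρ.v i • x) : ρ.ev hW x = ∑ j, ρ.u j • y j := by
  rw [ρ.ev_apply, ρ.sol_unique hW x y h]

end

section

variable {R : Type} [Ring R]

/-- The scalars. -/
def RData.const [Nontrivial R] (r : R) : RData R where
  ι := Unit
  fin := inferInstance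
  A := 1
  full := full_one_unit
  u := fun _ => 1
  v := fun _ => r

/-- Sums. -/
def RData.add (hS : Syl R) (ρ σ : RData R) : RData R where
  ι := ρ.ι ⊕ σ.ι
  fin := inferInstance
  A := fromBlocks ρ.A 0 0 σ.A
  full := Full.fromBlocks_upper hS ρ.full σ.full 0
  u := Sum.elim ρ.u σ.u
  v := Sum.elim ρ.v σ.v

/-- Negatives. -/
def RData.neg (ρ : RData R) : RData R where
  ι := ρ.ι
  fin := inferInstance
  A := ρ.A
  full := ρ.full
  u := fun i => - ρ.u i
  v := ρ.v

/-- Products. -/
def RData.mul (hS : Syl R) (ρ σ : RData R) : RData R where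
  ι := ρ.ι ⊕ σ.ι
  fin := inferInstance
  A := fromBlocks ρ.A (Matrix.of fun i j => - (ρ.v i * σ.u j)) 0 σ.A
  full := Full.fromBlocks_upper hS ρ.full σ.full _
  u := Sum.elim ρ.u (fun _ => 0)
  v := Sum.elim (fun _ => 0) σ.v

/-- The bordered matrix. -/
def RData.M (ρ : RData R) : Matrix (ρ.ι ⊕ Unit) (ρ.ι ⊕ Unit) R :=
  fromBlocks ρ.A (Matrix.of fun i _ => ρ.v i) (Matrix.of fun _ j => ρ.u j) 0

/-- Inverses. -/
def RData.inv (ρ : RData R) (h : Full ρ.M) : RData R where
  ι := ρ.ι ⊕ Unit
  fin := inferInstance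
  A := ρ.M
  full := h
  u := Sum.elim (fun _ => 0) (fun _ => -1)
  v := Sum.elim (fun _ => 0) (fun _ => 1)

/-- Change of the row and column. -/
def RData.set (ρ : RData R) (u v : ρ.ι → R) : RData R where
  ι := ρ.ι
  fin := inferInstance
  A := ρ.A
  full := ρ.full
  u := u
  v := v

variable {W : Type} [AddCommGroup W] [Module R W]

theorem RData.ev_const [Nontrivial R] (hW : Good R W) (r : R) (x : W) :
    (RData.const r).ev hW x = r • x := by
  rw [RData.ev_eq (RData.const r) hW x (fun _ => r • x)]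
  · change ∑ j : Unit, _ = _
    simp [RData.const]
  · rintro ⟨⟩
    change ∑ j : Unit, _ = _
    simp [RData.const]

theorem RData.ev_add (hS : Syl R) (hW : Good R W) (ρ σ : RData R) :
    (RData.add hS ρ σ).ev hW = ρ.ev hW + σ.ev hW := by
  ext x
  rw [RData.ev_eq (RData.add hS ρ σ) hW x (Sum.elim (ρ.sol hW x) (σ.sol hW x))]
  · change ∑ j : ρ.ι ⊕ σ.ι, _ = ρ.ev hW x + σ.ev hW x
    simp [RData.add, RData.ev_apply]
  · rintro (i | i)
    · change ∑ j : ρ.ι ⊕ σ.ι, _ = _
      simp [RData.add, RData.sol_spec]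
    · change ∑ j : ρ.ι ⊕ σ.ι, _ = _
      simp [RData.add, RData.sol_spec]

theorem RData.ev_neg (hW : Good R W) (ρ : RData R) :
    ρ.neg.ev hW = - ρ.ev hW := by
  ext x
  rw [RData.ev_eq ρ.neg hW x (ρ.sol hW x)]
  · change ∑ j : ρ.ι, _ = - (ρ.ev hW x)
    rw [RData.ev_apply]
    simp [RData.neg]
  · intro i
    exact ρ.sol_spec hW x i

theorem RData.ev_mul (hS : Syl R) (hW : Good R W) (ρ σ : RData R) :
    (RData.mul hS ρ σ).ev hW = ρ.ev hW * σ.ev hW := by
  ext x
  rw [RData.ev_eq (RData.mul hS ρ σ) hW x (Sum.elim (ρ.sol hW (σ.ev hW x)) (σ.sol hW x))]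
  · change ∑ j : ρ.ι ⊕ σ.ι, _ = ρ.ev hW (σ.ev hW x)
    rw [RData.ev_apply ρ]
    simp [RData.mul]
  · rintro (i | i)
    · change ∑ j : ρ.ι ⊕ σ.ι, _ = _
      simp only [RData.mul, Fintype.sum_sum_type, fromBlocks_apply₁₁, fromBlocks_apply₁₂,
        Sum.elim_inl, Sum.elim_inr, Matrix.of_apply, RData.sol_spec, neg_smul, mul_smul,
        Finset.sum_neg_distrib, zero_smul]
      rw [RData.ev_apply, ← Finset.smul_sum, add_neg_cancel]
    · change ∑ j : ρ.ι ⊕ σ.ι, _ = _
      simp [RData.mul, RData.sol_spec]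

theorem RData.M_apply_solution (ρ : RData R) (y : ρ.ι → W) (z : W) :
    (∀ i, ∑ j, ρ.M (Sum.inl i) j • (Sum.elim y (fun _ => z) : ρ.ι ⊕ Unit → W) j =
      ∑ j, ρ.A i j • y j + ρ.v i • z) ∧
    ∑ j, ρ.M (Sum.inr ()) j • (Sum.elim y (fun _ => z) : ρ.ι ⊕ Unit → W) j =
      ∑ j, ρ.u j • y j := by
  constructor
  · intro i
    simp [RData.M]
  · simp [RData.M]

theorem RData.ev_inv_mul (hW : Good R W) (ρ : RData R) (h : Full ρ.M) :
    (ρ.inv h).ev hW * ρ.ev hW = 1 := by
  ext x
  change (ρ.inv h).ev hW (ρ.ev hW x) = x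
  rw [RData.ev_eq (ρ.inv h) hW (ρ.ev hW x) (Sum.elim (ρ.sol hW x) (fun _ => -x))]
  · change ∑ j : ρ.ι ⊕ Unit, _ = _
    simp [RData.inv]
  · rintro (i | i)
    · refine ((ρ.M_apply_solution (ρ.sol hW x) (-x)).1 i).trans ?_
      simp [RData.inv, RData.sol_spec]
    · refine ((ρ.M_apply_solution (ρ.sol hW x) (-x)).2).trans ?_
      simp [RData.inv, RData.ev_apply]

theorem RData.ev_mul_inv (hW : Good R W) (ρ : RData R) (h : Full ρ.M) :
    ρ.ev hW * (ρ.inv h).ev hW = 1 := by
  ext x
  change ρ.ev hW ((ρ.inv h).ev hW x) = x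
  have h1 := fun i => (ρ.inv h).sol_spec hW x i
  set s : ρ.ι ⊕ Unit → W := (ρ.inv h).sol hW x with hs
  have hs2 : s = Sum.elim (fun j => s (Sum.inl j)) (fun _ => s (Sum.inr ())) := by
    funext j
    rcases j with j | j <;> rfl
  have hinv : (ρ.inv h).ev hW x = - s (Sum.inr ()) := by
    rw [RData.ev_apply, ← hs]
    change ∑ j : ρ.ι ⊕ Unit, _ = _
    simp [RData.inv]
  have h2 : ∀ i, ∑ j, ρ.A i j • s (Sum.inl j) + ρ.v i • s (Sum.inr ()) = 0 := by
    intro i
    have := h1 (Sum.inl i)
    rw [hs2] at this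
    refine ((ρ.M_apply_solution _ _).1 i).symm.trans (this.trans ?_)
    simp [RData.inv]
  have h3 : ∑ j, ρ.u j • s (Sum.inl j) = x := by
    have := h1 (Sum.inr ())
    rw [hs2] at this
    refine ((ρ.M_apply_solution _ _).2).symm.trans (this.trans ?_)
    simp [RData.inv]
  rw [hinv, RData.ev_eq ρ hW (- s (Sum.inr ())) (fun j => s (Sum.inl j)), h3]
  intro i
  rw [smul_neg]
  exact eq_neg_of_add_eq_zero_left (h2 i)

/-- If the bordered matrix is not full, then the element is zero, in every good module. -/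
theorem RData.ev_eq_zero (hW : Good R W) (ρ : RData R) (h : ¬ Full ρ.M) : ρ.ev hW = 0 := by
  classical
  simp only [Full, not_forall, not_le] at h
  obtain ⟨r, ⟨P, Q, hPQ⟩, hr⟩ := h
  have hcard : Fintype.card (ρ.ι ⊕ Unit) = Fintype.card ρ.ι + 1 := by simp
  rw [hcard] at hr
  -- the blocks
  have hA : ρ.A = (P.submatrix Sum.inl id) * (Q.submatrix id Sum.inl) := by
    ext i j
    have := congrFun (congrFun hPQ (Sum.inl i)) (Sum.inl j)
    simpa [RData.M, Matrix.mul_apply] using this
  have hv : ∀ i, ρ.v i = ∑ k, P (Sum.inl i) k * Q k (Sum.inr ()) := by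
    intro i
    have := congrFun (congrFun hPQ (Sum.inl i)) (Sum.inr ())
    simpa [RData.M, Matrix.mul_apply] using this
  have hu : ∀ j, ρ.u j = ∑ k, P (Sum.inr ()) k * Q k (Sum.inl j) := by
    intro j
    have := congrFun (congrFun hPQ (Sum.inr ())) (Sum.inl j)
    simpa [RData.M, Matrix.mul_apply] using this
  have h0 : ∑ k, P (Sum.inr ()) k * Q k (Sum.inr ()) = 0 := by
    have := congrFun (congrFun hPQ (Sum.inr ())) (Sum.inr ())
    simpa [RData.M, Matrix.mul_apply] using this.symm
  have hle : Fintype.card ρ.ι ≤ r := ρ.full r ⟨_, _, hA⟩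
  have hreq : r = Fintype.card ρ.ι := by omega
  -- the first factor is full, after reindexing
  let e : Fin r ≃ ρ.ι := (finCongr hreq).trans (Fintype.equivFin ρ.ι).symm
  let P1 : Matrix ρ.ι ρ.ι R := Matrix.of fun i k => P (Sum.inl i) (e.symm k)
  have hP1 : Full P1 := by
    rintro s ⟨P', Q', hs⟩
    refine ρ.full s ⟨P', Q' * (Matrix.of fun k j => Q (e.symm k) (Sum.inl j)), ?_⟩
    rw [← Matrix.mul_assoc, ← hs, hA]
    ext i j
    simp only [Matrix.mul_apply, Matrix.submatrix_apply, id, P1, Matrix.of_apply]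
    exact (Equiv.sum_comp e.symm (fun k => P (Sum.inl i) k * Q k (Sum.inl j))).symm
  ext x
  change ρ.ev hW x = 0
  have hsol := ρ.sol_spec hW x
  set y := ρ.sol hW x with hy
  -- Q1 y = q x
  have hQ : (fun k : ρ.ι => ∑ j, Q (e.symm k) (Sum.inl j) • y j) =
      fun k => Q (e.symm k) (Sum.inr ()) • x := by
    refine (hW.existsUnique hP1 (fun i => ρ.v i • x)).unique ?_ ?_
    · intro i
      rw [← hsol i, hA]
      simp only [Matrix.mul_apply, Matrix.submatrix_apply, id, P1, Matrix.of_apply,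
        Finset.smul_sum, Finset.sum_smul, smul_smul]
      rw [Finset.sum_comm]
      apply Finset.sum_congr rfl
      intro j _
      exact Equiv.sum_comp e.symm (fun k => (P (Sum.inl i) k * Q k (Sum.inl j)) • y j)
    · intro i
      simp only [P1, Matrix.of_apply, hv i, smul_smul, Finset.sum_smul]
      exact Equiv.sum_comp e.symm (fun k => (P (Sum.inl i) k * Q k (Sum.inr ())) • x)
  have hQ' : ∀ k : Fin r, ∑ j, Q k (Sum.inl j) • y j = Q k (Sum.inr ()) • x := by
    intro k
    have := congrFun hQ (e k)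
    simpa using this
  rw [RData.ev_apply, ← hy]
  calc ∑ j, ρ.u j • y j
      = ∑ j, ∑ k, P (Sum.inr ()) k • (Q k (Sum.inl j) • y j) := by
        apply Finset.sum_congr rfl
        intro j _
        rw [hu j, Finset.sum_smul]
        simp only [smul_smul]
    _ = ∑ k, P (Sum.inr ()) k • (Q k (Sum.inr ()) • x) := by
        rw [Finset.sum_comm]
        apply Finset.sum_congr rfl
        intro k _
        rw [← Finset.smul_sum, hQ' k]
    _ = (∑ k, P (Sum.inr ()) k * Q k (Sum.inr ())) • x := by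
        rw [Finset.sum_smul]
        simp only [smul_smul]
    _ = 0 := by rw [h0, zero_smul]

end


/-! ### The division ring -/

section

variable {R : Type} [Ring R] [Nontrivial R] (hS : Syl R) {V : Type} [AddCommGroup V] [Module R V]
  (hV : Good R V)

/-- The ring of the endomorphisms `u A⁻¹ v`. -/
def locRing : Subring (AddMonoid.End V) where
  carrier := {f | ∃ ρ : RData R, ρ.ev hV = f}
  zero_mem' := ⟨RData.const 0, by
    ext x
    rw [RData.ev_const]
    simp⟩
  one_mem' := ⟨RData.const 1, by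
    ext x
    rw [RData.ev_const]
    simp⟩
  add_mem' := by
    rintro _ _ ⟨ρ, rfl⟩ ⟨σ, rfl⟩
    exact ⟨RData.add hS ρ σ, RData.ev_add hS hV ρ σ⟩
  mul_mem' := by
    rintro _ _ ⟨ρ, rfl⟩ ⟨σ, rfl⟩
    exact ⟨RData.mul hS ρ σ, RData.ev_mul hS hV ρ σ⟩
  neg_mem' := by
    rintro _ ⟨ρ, rfl⟩
    exact ⟨ρ.neg, RData.ev_neg hV ρ⟩

theorem mem_locRing (ρ : RData R) : ρ.ev hV ∈ locRing hS hV := ⟨ρ, rfl⟩

theorem nontrivial_locRing [Nontrivial V] : Nontrivial (locRing hS hV) := by
  obtain ⟨x, hx⟩ := exists_ne (0 : V)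
  refine ⟨⟨0, 1, ?_⟩⟩
  intro h
  have h1 := congrArg (fun f : locRing hS hV => (f : AddMonoid.End V) x) h
  simp at h1
  exact hx h1.symm

theorem isUnit_or_eq_zero (f : locRing hS hV) : IsUnit f ∨ f = 0 := by
  obtain ⟨f, ρ, rfl⟩ := f
  by_cases h : Full ρ.M
  · left
    refine ⟨⟨⟨ρ.ev hV, mem_locRing hS hV ρ⟩, ⟨(ρ.inv h).ev hV, mem_locRing hS hV _⟩, ?_, ?_⟩, rfl⟩
    · apply Subtype.ext
      exact RData.ev_mul_inv hV ρ h
    · apply Subtype.ext
      exact RData.ev_inv_mul hV ρ h
  · right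
    apply Subtype.ext
    exact RData.ev_eq_zero hV ρ h

/-- The canonical homomorphism. -/
def locMap : R →+* locRing hS hV :=
  (Module.toAddMonoidEnd R V).codRestrict (locRing hS hV) (fun r => ⟨RData.const r, by
    ext x
    rw [RData.ev_const]
    rfl⟩)

theorem locMap_apply (r : R) (x : V) : ((locMap hS hV r : locRing hS hV) : AddMonoid.End V) x = r • x :=
  rfl

/-- Evaluation at an element of the module. -/
def locEval (x : V) : locRing hS hV →+ V where
  toFun f := (f : AddMonoid.End V) x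
  map_zero' := rfl
  map_add' _ _ := rfl

omit [Nontrivial R] in
/-- Elements represented in one good module determine those in all others. -/
theorem RData.ev_eq_ev (hS : Syl R) (hV : Good R V) [Nontrivial V] {W : Type} [AddCommGroup W]
    [Module R W] (hW : Good R W) (ρ σ : RData R) (h : ρ.ev hV = σ.ev hV) :
    ρ.ev hW = σ.ev hW := by
  have h0 : (RData.add hS ρ σ.neg).ev hV = 0 := by
    rw [RData.ev_add, RData.ev_neg, h, add_neg_cancel]
  have hnf : ¬ Full (RData.add hS ρ σ.neg).M := by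
    intro hf
    have h1 := RData.ev_inv_mul hV _ hf
    rw [h0, mul_zero] at h1
    obtain ⟨x, hx⟩ := exists_ne (0 : V)
    have h2 := congrArg (fun f : AddMonoid.End V => f x) h1
    simp at h2
    exact hx h2.symm
  have h3 := RData.ev_eq_zero hW _ hnf
  rw [RData.ev_add, RData.ev_neg, add_neg_eq_zero] at h3
  exact h3

omit [Nontrivial R] in
theorem good_of_isUnit {S : Type} [Ring S] (φ : R →+* S)
    (h : ∀ (n : ℕ) (A : Matrix (Fin n) (Fin n) R), Full A → IsUnit (A.map φ)) :
    @Good R S _ _ (Module.compHom S φ) := by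
  intro n A hA
  obtain ⟨U, hU⟩ := h n A hA
  have key : (fun (y : Fin n → S) (i : Fin n) => ∑ j, (letI := Module.compHom S φ; A i j • y j)) =
      fun y => (A.map φ).mulVec y := by
    funext y i
    rfl
  change Function.Bijective (fun (y : Fin n → S) (i : Fin n) =>
    ∑ j, (letI := Module.compHom S φ; A i j • y j))
  rw [key, ← hU]
  constructor
  · intro y z hyz
    have h1 := congrArg (fun w => ((↑U⁻¹ : Matrix (Fin n) (Fin n) S)).mulVec w) hyz
    simpa [Matrix.mulVec_mulVec] using h1
  · intro z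
    exact ⟨((↑U⁻¹ : Matrix (Fin n) (Fin n) S)).mulVec z, by simp [Matrix.mulVec_mulVec]⟩

omit [Nontrivial R] in
theorem RData.ev_mul_right {S : Type} [Ring S] (φ : R →+* S)
    (hW : @Good R S _ _ (Module.compHom S φ)) (ρ : RData R) (x s : S) :
    @RData.ev R _ S _ (Module.compHom S φ) ρ hW (x * s) =
      @RData.ev R _ S _ (Module.compHom S φ) ρ hW x * s := by
  let _ := Module.compHom S φ
  have hsm : ∀ (r : R) (t : S), r • t = φ r * t := fun _ _ => rfl
  rw [RData.ev_eq ρ hW (x * s) (fun j => ρ.sol hW x j * s), RData.ev_apply, Finset.sum_mul]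
  · apply Finset.sum_congr rfl
    intro j _
    rw [hsm, hsm, mul_assoc]
  · intro i
    have h1 := ρ.sol_spec hW x i
    rw [hsm, ← mul_assoc, ← hsm, ← h1, Finset.sum_mul]
    apply Finset.sum_congr rfl
    intro j _
    rw [hsm, hsm, mul_assoc]

/-- The extension of a homomorphism inverting the full matrices. -/
theorem exists_lift [Nontrivial V] (S : Type) [Ring S] (φ : R →+* S)
    (h : ∀ (n : ℕ) (A : Matrix (Fin n) (Fin n) R), Full A → IsUnit (A.map φ)) :
    ∃ Φ : locRing hS hV →+* S, Φ.comp (locMap hS hV) = φ := by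
  let _ := Module.compHom S φ
  have hsm : ∀ (r : R) (t : S), r • t = φ r * t := fun _ _ => rfl
  have hW : Good R S := good_of_isUnit φ h
  have hval : ∀ (f : locRing hS hV) (ρ : RData R), ρ.ev hV = f →
      f.2.choose.ev hW = ρ.ev hW := by
    intro f ρ hρ
    exact RData.ev_eq_ev hS hV hW _ _ (f.2.choose_spec.trans hρ.symm)
  refine ⟨⟨⟨⟨fun f => f.2.choose.ev hW 1, ?_⟩, ?_⟩, ?_, ?_⟩, ?_⟩
  · change (1 : locRing hS hV).2.choose.ev hW 1 = 1
    rw [hval 1 (RData.const 1), RData.ev_const, one_smul]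
    ext x
    rw [RData.ev_const, one_smul]
    rfl
  · intro f g
    change (f * g).2.choose.ev hW 1 = f.2.choose.ev hW 1 * g.2.choose.ev hW 1
    rw [hval (f * g) (RData.mul hS f.2.choose g.2.choose), RData.ev_mul]
    · change f.2.choose.ev hW (g.2.choose.ev hW 1) = _
      have := RData.ev_mul_right φ hW f.2.choose 1 (g.2.choose.ev hW 1)
      rw [one_mul] at this
      exact this
    · rw [RData.ev_mul, f.2.choose_spec, g.2.choose_spec]
      rfl
  · change (0 : locRing hS hV).2.choose.ev hW 1 = 0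
    rw [hval 0 (RData.const 0), RData.ev_const, zero_smul]
    ext x
    rw [RData.ev_const, zero_smul]
    rfl
  · intro f g
    change (f + g).2.choose.ev hW 1 = f.2.choose.ev hW 1 + g.2.choose.ev hW 1
    rw [hval (f + g) (RData.add hS f.2.choose g.2.choose), RData.ev_add]
    · rfl
    · rw [RData.ev_add, f.2.choose_spec, g.2.choose_spec]
      rfl
  · ext r
    change (locMap hS hV r).2.choose.ev hW 1 = φ r
    rw [hval (locMap hS hV r) (RData.const r), RData.ev_const, hsm, mul_one]
    ext x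
    rw [RData.ev_const]
    rfl

/-- Full matrices become invertible. -/
theorem isUnit_map (n : ℕ) (A : Matrix (Fin n) (Fin n) R) (hA : Full A) :
    IsUnit (A.map (locMap hS hV)) := by
  let ρ : Fin n → Fin n → RData R := fun j k =>
    { ι := Fin n, fin := inferInstance, A := A, full := hA, u := Pi.single j 1, v := Pi.single k 1 }
  have hev : ∀ j k x, (ρ j k).ev hV x = (ρ k k).sol hV x j := by
    intro j k x
    have h1 : (ρ j k).sol hV x = (ρ k k).sol hV x := rfl
    rw [RData.ev_apply, h1]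
    change ∑ l : Fin n, (Pi.single j (1 : R) : Fin n → R) l • (ρ k k).sol hV x l = _
    simp [Pi.single_apply]
  have hsol : ∀ k x i, ∑ j, A i j • (ρ k k).sol hV x j = (Pi.single k (1 : R) : Fin n → R) i • x :=
    fun k x i => (ρ k k).sol_spec hV x i
  let B : Matrix (Fin n) (Fin n) (locRing hS hV) := fun j k => ⟨(ρ j k).ev hV, mem_locRing hS hV _⟩
  have hsing : ∀ (i k : Fin n) (x : V),
      (((1 : Matrix (Fin n) (Fin n) (locRing hS hV)) i k : locRing hS hV) : AddMonoid.End V) x =
        if i = k then x else 0 := by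
    intro i k x
    rw [Matrix.one_apply]
    split_ifs <;> rfl
  refine ⟨⟨A.map (locMap hS hV), B, ?_, ?_⟩, rfl⟩
  · ext i k x
    rw [hsing, Matrix.mul_apply]
    change locEval hS hV x (∑ j, (A.map (locMap hS hV)) i j * B j k) = _
    rw [map_sum]
    have e1 : ∀ j, locEval hS hV x ((A.map (locMap hS hV)) i j * B j k) =
        A i j • (ρ k k).sol hV x j := by
      intro j
      rw [← hev j k x]
      rfl
    rw [Finset.sum_congr rfl (fun j _ => e1 j), hsol]
    by_cases hik : i = k
    · subst hik; simp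
    · simp [hik]
  · ext j l x
    rw [hsing, Matrix.mul_apply]
    change locEval hS hV x (∑ k, B j k * (A.map (locMap hS hV)) k l) = _
    rw [map_sum]
    have e1 : ∀ k, locEval hS hV x (B j k * (A.map (locMap hS hV)) k l) =
        (ρ k k).sol hV (A k l • x) j := by
      intro k
      rw [← hev j k (A k l • x)]
      rfl
    rw [Finset.sum_congr rfl (fun k _ => e1 k)]
    have huniq := (hV.existsUnique hA (fun i => A i l • x)).unique
      (y₁ := fun j => ∑ k, (ρ k k).sol hV (A k l • x) j) (y₂ := fun j => if j = l then x else 0)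
      ?_ ?_
    · exact congrFun huniq j
    · intro i
      calc ∑ j, A i j • ∑ k, (ρ k k).sol hV (A k l • x) j
          = ∑ k, ∑ j, A i j • (ρ k k).sol hV (A k l • x) j := by
            simp only [Finset.smul_sum]
            exact Finset.sum_comm
        _ = ∑ k, (Pi.single k (1 : R) : Fin n → R) i • (A k l • x) :=
            Finset.sum_congr rfl (fun k _ => hsol k (A k l • x) i)
        _ = A i l • x := by simp [Pi.single_apply]
    · intro i
      simp

/-- The canonical homomorphism is an epimorphism. -/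
theorem locMap_ext [Nontrivial V] (S : Type) [Ring S] (Φ Ψ : locRing hS hV →+* S)
    (h : Φ.comp (locMap hS hV) = Ψ.comp (locMap hS hV)) : Φ = Ψ := by
  classical
  let φ : R →+* S := Φ.comp (locMap hS hV)
  have hφ : ∀ (n : ℕ) (A : Matrix (Fin n) (Fin n) R), Full A → IsUnit (A.map φ) := by
    intro n A hA
    have h1 := (isUnit_map hS hV n A hA).map (Φ.mapMatrix : Matrix (Fin n) (Fin n) _ →+* _)
    exact h1
  let _ := Module.compHom S φ
  have hW : Good R S := good_of_isUnit φ hφ
  have hΦ : ∀ r, Φ (locMap hS hV r) = φ r := fun _ => rfl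
  have hΨ : ∀ r, Ψ (locMap hS hV r) = φ r := fun r => (RingHom.congr_fun h r).symm
  have hsm : ∀ (r : R) (t : S), r • t = φ r * t := fun _ _ => rfl
  ext f
  obtain ⟨f, ρ, rfl⟩ := f
  let Y : ρ.ι → locRing hS hV := fun j =>
    ⟨(ρ.set (Pi.single j 1) ρ.v).ev hV, mem_locRing hS hV _⟩
  have hY : ∀ j x, ((Y j : locRing hS hV) : AddMonoid.End V) x = ρ.sol hV x j := by
    intro j x
    change (ρ.set (Pi.single j 1) ρ.v).ev hV x = _
    have h1 : (ρ.set (Pi.single j 1) ρ.v).sol hV x = ρ.sol hV x := rfl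
    rw [RData.ev_apply, h1]
    change ∑ l : ρ.ι, (Pi.single j (1 : R) : ρ.ι → R) l • ρ.sol hV x l = _
    simp [Pi.single_apply]
  have hAY : ∀ i, ∑ j, locMap hS hV (ρ.A i j) * Y j = locMap hS hV (ρ.v i) := by
    intro i
    apply Subtype.ext
    apply AddMonoidHom.ext
    intro x
    change locEval hS hV x (∑ j, locMap hS hV (ρ.A i j) * Y j) = ρ.v i • x
    rw [map_sum, ← ρ.sol_spec hV x i]
    apply Finset.sum_congr rfl
    intro j _
    rw [← hY j x]
    rfl
  have huY : ∑ j, locMap hS hV (ρ.u j) * Y j = ⟨ρ.ev hV, mem_locRing hS hV ρ⟩ := by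
    apply Subtype.ext
    apply AddMonoidHom.ext
    intro x
    change locEval hS hV x (∑ j, locMap hS hV (ρ.u j) * Y j) = ρ.ev hV x
    rw [map_sum, RData.ev_apply]
    apply Finset.sum_congr rfl
    intro j _
    rw [← hY j x]
    rfl
  have hYY : (fun j => Φ (Y j)) = fun j => Ψ (Y j) := by
    refine (hW.existsUnique ρ.full (fun i => φ (ρ.v i))).unique ?_ ?_
    · intro i
      have h1 := congrArg Φ (hAY i)
      rw [map_sum, hΦ] at h1
      rw [← h1]
      apply Finset.sum_congr rfl
      intro j _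
      rw [hsm, map_mul, hΦ]
    · intro i
      have h1 := congrArg Ψ (hAY i)
      rw [map_sum, hΨ] at h1
      rw [← h1]
      apply Finset.sum_congr rfl
      intro j _
      rw [hsm, map_mul, hΨ]
  have h1 : Φ (∑ j, locMap hS hV (ρ.u j) * Y j) = Ψ (∑ j, locMap hS hV (ρ.u j) * Y j) := by
    rw [map_sum, map_sum]
    apply Finset.sum_congr rfl
    intro j _
    rw [map_mul, map_mul, hΦ, hΨ]
    exact congrArg (fun t => φ (ρ.u j) * t) (congrFun hYY j)
  rw [huY] at h1
  exact h1

end

theorem exists_UF_of_module {R : Type} [Ring R] [Nontrivial R] (h : Syl R) (V : Type)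
    [AddCommGroup V] [Module R V] [Nontrivial V]
    (hV : ∀ (n : ℕ) (A : Matrix (Fin n) (Fin n) R), Full A →
        Function.Bijective (fun (y : Fin n → V) (i : Fin n) => ∑ j, A i j • y j)) :
    ∃ (D : Type) (_ : DivisionRing D) (i : R →+* D), IsUF i := by
  have hG : Good R V := hV
  have := nontrivial_locRing h hG
  let dr : DivisionRing (locRing h hG) := DivisionRing.ofIsUnitOrEqZero (isUnit_or_eq_zero h hG)
  refine ⟨locRing h hG, dr, locMap h hG, ⟨?_, ?_, ?_⟩⟩
  · exact isUnit_map h hG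
  · exact exists_lift h hG
  · exact locMap_ext h hG

end Pool.Agent.FGDiv
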