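import Pool.Agent.MP_e77664_al.Defs

/-!
# Block L: Laurent series and Newton iteration

Laurent series over the division ring `K`; a limit of solutions of commutator equations gives an
infinite division ring that is finitely generated as a ring.
-/

set_option autoImplicit false

namespace Pool.Agent.FGDiv

section Laurent

variable {K : Type} [DivisionRing K]

/-- the filtration of the Laurent series ring: all coefficients below `r` vanish -/
def FL (K : Type) [DivisionRing K] (r : ℤ) : AddSubgroup (HahnSeries ℤ K) where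
  carrier := {f | ∀ n, n < r → f.coeff n = 0}
  zero_mem' := by intro n _; simp
  add_mem' := by
    intro a b ha hb n hn
    simp [ha n hn, hb n hn]
  neg_mem' := by
    intro a ha n hn
    simp [ha n hn]

theorem mem_FL {r : ℤ} {f : HahnSeries ℤ K} : f ∈ FL K r ↔ ∀ n, n < r → f.coeff n = 0 := Iff.rfl

theorem FL_anti {a b : ℤ} (h : a ≤ b) {f : HahnSeries ℤ K} (hf : f ∈ FL K b) : f ∈ FL K a :=
  fun n hn => hf n (lt_of_lt_of_le hn h)

theorem FL_mul {a b : ℤ} {f g : HahnSeries ℤ K} (hf : f ∈ FL K a) (hg : g ∈ FL K b) :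
    f * g ∈ FL K (a + b) := by
  intro n hn
  rw [HahnSeries.coeff_mul]
  apply Finset.sum_eq_zero
  intro ij hij
  rw [Finset.mem_addAntidiagonal] at hij
  obtain ⟨h1, h2, h3⟩ := hij
  exfalso
  have h4 : a ≤ ij.1 := by
    by_contra hc
    exact h1 (hf _ (not_le.mp hc))
  have h5 : b ≤ ij.2 := by
    by_contra hc
    exact h2 (hg _ (not_le.mp hc))
  omega

theorem FL_mul' {a b c : ℤ} {f g : HahnSeries ℤ K} (hf : f ∈ FL K a) (hg : g ∈ FL K b)
    (h : c ≤ a + b) : f * g ∈ FL K c := FL_anti h (FL_mul hf hg)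

theorem FL_single (n : ℤ) (c : K) : HahnSeries.single n c ∈ FL K n := by
  intro m hm
  exact HahnSeries.coeff_single_of_ne (ne_of_lt hm)

theorem FL_C (c : K) : (HahnSeries.C c : HahnSeries ℤ K) ∈ FL K 0 := FL_single 0 c

theorem FL_one : (1 : HahnSeries ℤ K) ∈ FL K 0 := FL_single 0 1

theorem eq_zero_of_FL {f : HahnSeries ℤ K} (h : ∀ N : ℕ, ∃ r : ℤ, (N : ℤ) ≤ r ∧ f ∈ FL K r) :
    f = 0 := by
  ext n
  obtain ⟨r, h1, h2⟩ := h (n.toNat + 1)
  have h3 : n ≤ (n.toNat : ℤ) := Int.self_le_toNat n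
  have : f.coeff n = 0 := h2 n (by push_cast at h1; omega)
  simpa using this

theorem exists_FL (f : HahnSeries ℤ K) : ∃ a, f ∈ FL K a := by
  by_cases hf : f = 0
  · exact ⟨0, hf ▸ (FL K 0).zero_mem⟩
  · refine ⟨f.order, fun n hn => ?_⟩
    exact HahnSeries.coeff_eq_zero_of_lt_order hn

theorem exists_order {f : HahnSeries ℤ K} (hf : f ≠ 0) : ∃ a, f ∈ FL K a ∧ f.coeff a ≠ 0 := by
  refine ⟨f.order, fun n hn => HahnSeries.coeff_eq_zero_of_lt_order hn, ?_⟩
  exact mt HahnSeries.coeff_order_eq_zero.mp hf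

theorem mk_FL (c : ℤ → K) (a : ℤ) (h : ∀ n, n < a → c n = 0) :
    ∃ f : HahnSeries ℤ K, f.coeff = c := by
  refine ⟨HahnSeries.ofSuppBddBelow c ⟨a, ?_⟩, rfl⟩
  intro n hn
  by_contra hc
  exact hn (h n (not_le.mp hc))

theorem FL_limit (t : ℕ → HahnSeries ℤ K) (b : ℕ → ℤ) (hb : Monotone b) (c : ℤ)
    (hb' : ∀ n : ℕ, (n : ℤ) + c ≤ b n) (ht : ∀ n, t (n + 1) - t n ∈ FL K (b n)) :
    ∃ t' : HahnSeries ℤ K, ∀ n, t' - t n ∈ FL K (b n) := by
  have h1 : ∀ n k, t (n + k) - t n ∈ FL K (b n) := by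
    intro n k
    induction k with
    | zero => simpa using (FL K (b n)).zero_mem
    | succ k ih =>
      have h2 := FL_anti (hb (Nat.le_add_right n k)) (ht (n + k))
      have h3 := (FL K (b n)).add_mem h2 ih
      have h4 : t (n + (k + 1)) - t n = t (n + k + 1) - t (n + k) + (t (n + k) - t n) := by
        rw [← add_assoc]; abel
      rw [h4]; exact h3
  obtain ⟨d, hd⟩ := mk_FL (K := K) (fun n => (t ((n - c).toNat + 1) - t 0).coeff n) (b 0) (by
    intro n hn
    have := h1 0 ((n - c).toNat + 1) n hn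
    simpa using this)
  refine ⟨t 0 + d, ?_⟩
  intro m n hn
  have h5 : (t 0 + d - t m).coeff n = (t ((n - c).toNat + 1) - t m).coeff n := by
    rw [HahnSeries.coeff_sub, HahnSeries.coeff_add, hd]
    simp only [HahnSeries.coeff_sub]
    abel
  rw [h5]
  rcases le_total m ((n - c).toNat + 1) with h | h
  · obtain ⟨k, hk⟩ := Nat.exists_eq_add_of_le h
    rw [hk]
    exact h1 m k n hn
  · obtain ⟨k, hk⟩ := Nat.exists_eq_add_of_le h
    have h6 := h1 ((n - c).toNat + 1) k
    rw [← hk] at h6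
    have h7 := (FL K _).neg_mem h6
    rw [neg_sub] at h7
    refine h7 n ?_
    have h8 := hb' ((n - c).toNat + 1)
    have h9 : n - c ≤ ((n - c).toNat : ℤ) := Int.self_le_toNat _
    push_cast at h8
    omega

/-- every nonzero Laurent series is a unit -/
theorem exists_right_inv {f : HahnSeries ℤ K} {a : ℤ} (hf : f ∈ FL K a) (ha : f.coeff a ≠ 0) :
    ∃ y ∈ FL K (-a), f * y = 1 := by
  set g0 : HahnSeries ℤ K := HahnSeries.single (-a) (f.coeff a)⁻¹ with hg0
  have hg0F : g0 ∈ FL K (-a) := FL_single _ _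
  have h1 : 1 - f * g0 ∈ FL K 1 := by
    intro n hn
    rw [HahnSeries.coeff_sub, hg0, HahnSeries.coeff_mul_single]
    rcases lt_or_eq_of_le (Int.lt_add_one_iff.mp (by simpa using hn) : n ≤ 0) with h | h
    · rw [FL_one n h, hf (n - -a) (by omega)]; simp
    · subst h
      rw [HahnSeries.coeff_one]
      simp [mul_inv_cancel₀ ha]
  let y : ℕ → HahnSeries ℤ K := fun m => Nat.rec 0 (fun _ ym => ym + g0 * (1 - f * ym)) m
  have hy0 : y 0 = 0 := rfl
  have hys : ∀ m, y (m + 1) = y m + g0 * (1 - f * y m) := fun m => rfl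
  have h2 : ∀ m : ℕ, 1 - f * y m ∈ FL K m := by
    intro m
    induction m with
    | zero => rw [hy0]; simpa using FL_one
    | succ m ih =>
      have : 1 - f * y (m + 1) = (1 - f * g0) * (1 - f * y m) := by
        rw [hys]; noncomm_ring
      rw [this]
      exact FL_mul' h1 ih (by push_cast; omega)
  obtain ⟨t, ht⟩ := FL_limit y (fun m => (m : ℤ) + -a) (fun m n h => by simpa using h) (-a)
    (fun n => le_refl _) (fun m => by
      have : y (m + 1) - y m = g0 * (1 - f * y m) := by rw [hys]; abel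
      rw [this]
      exact FL_mul' hg0F (h2 m) (by omega))
  refine ⟨t, ?_, ?_⟩
  · have := ht 0
    simpa [hy0] using this
  · rw [← sub_eq_zero]
    apply eq_zero_of_FL
    intro N
    refine ⟨N, le_refl _, ?_⟩
    have h3 : f * t - 1 = f * (t - y N) - (1 - f * y N) := by noncomm_ring
    rw [h3]
    exact (FL K _).sub_mem (FL_mul' hf (ht N) (by omega)) (h2 N)

theorem exists_inv {f : HahnSeries ℤ K} {a : ℤ} (hf : f ∈ FL K a) (ha : f.coeff a ≠ 0) :
    ∃ y ∈ FL K (-a), f * y = 1 ∧ y * f = 1 := by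
  obtain ⟨y, hy, h1⟩ := exists_right_inv hf ha
  refine ⟨y, hy, h1, ?_⟩
  have hy0 : y ≠ 0 := by
    rintro rfl
    rw [mul_zero] at h1
    exact zero_ne_one h1
  obtain ⟨b, hb, hb'⟩ := exists_order hy0
  obtain ⟨w, _, h2⟩ := exists_right_inv hb hb'
  have : f = w := by
    calc f = f * (y * w) := by rw [h2, mul_one]
      _ = w := by rw [← mul_assoc, h1, one_mul]
  rw [this]; exact h2

theorem isUnit_of_ne {f : HahnSeries ℤ K} (hf : f ≠ 0) : IsUnit f := by
  obtain ⟨a, ha, ha'⟩ := exists_order hf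
  obtain ⟨y, _, h1, h2⟩ := exists_inv ha ha'
  exact ⟨⟨f, y, h1, h2⟩, rfl⟩

theorem inverse_FL {f : HahnSeries ℤ K} {a : ℤ} (hf : f ∈ FL K a) (ha : f.coeff a ≠ 0) :
    Ring.inverse f ∈ FL K (-a) := by
  obtain ⟨y, hy, h1, h2⟩ := exists_inv hf ha
  have : Ring.inverse f = y := by
    have hu : IsUnit f := ⟨⟨f, y, h1, h2⟩, rfl⟩
    calc Ring.inverse f = Ring.inverse f * (f * y) := by rw [h1, mul_one]
      _ = y := by rw [← mul_assoc, Ring.inverse_mul_cancel _ hu, one_mul]
  rw [this]; exact hy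


theorem FL_coeff_comm (f : HahnSeries ℤ K) (a : K) (n : ℤ) :
    (f * HahnSeries.C a - HahnSeries.C a * f).coeff n = f.coeff n * a - a * f.coeff n := by
  rw [HahnSeries.coeff_sub]
  congr 1
  · exact HahnSeries.coeff_mul_single_zero
  · exact HahnSeries.coeff_single_zero_mul

theorem single_comm (n : ℤ) (f : HahnSeries ℤ K) :
    HahnSeries.single n (1 : K) * f = f * HahnSeries.single n (1 : K) := by
  ext m
  rw [HahnSeries.coeff_single_mul, HahnSeries.coeff_mul_single]
  simp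

/-- coefficientwise solution of commutator equations -/
theorem solve_comm (z : ℤ → K)
    (hK : ∀ (N : ℤ) (f : K), ∃ y : K, y * z N - z N * y = f ∧ ∀ j, j ≠ N → y * z j = z j * y)
    (J : Finset ℤ) (f : ℤ → HahnSeries ℤ K) (r : ℤ) (hf : ∀ j, f j ∈ FL K r)
    (hJ : ∀ j, j ∉ J → f j = 0) :
    ∃ y ∈ FL K r, ∀ j, y * HahnSeries.C (z j) - HahnSeries.C (z j) * y = f j := by
  classical
  choose s hs1 hs2 using hK
  let c : ℤ → K := fun n => ∑ N ∈ J, if (f N).coeff n = 0 then 0 else s N ((f N).coeff n)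
  have hc : ∀ n, n < r → c n = 0 := by
    intro n hn
    apply Finset.sum_eq_zero
    intro N _
    rw [if_pos (hf N n hn)]
  obtain ⟨y, hy⟩ := mk_FL c r hc
  refine ⟨y, fun n hn => by rw [hy]; exact hc n hn, ?_⟩
  intro j
  ext n
  rw [FL_coeff_comm, hy]
  have h1 : ∀ N, (if (f N).coeff n = 0 then 0 else s N ((f N).coeff n)) * z j -
      z j * (if (f N).coeff n = 0 then 0 else s N ((f N).coeff n)) =
      if N = j then (f j).coeff n else 0 := by
    intro N
    by_cases h : N = j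
    · subst h
      by_cases h0 : (f N).coeff n = 0
      · simp [h0]
      · rw [if_neg h0, if_pos rfl, hs1]
    · by_cases h0 : (f N).coeff n = 0
      · simp [h0, h]
      · rw [if_neg h0, if_neg h, hs2 N _ j (Ne.symm h), sub_self]
  have h2 : c n * z j - z j * c n = ∑ N ∈ J, if N = j then (f j).coeff n else 0 := by
    simp only [c]
    rw [Finset.sum_mul, Finset.mul_sum, ← Finset.sum_sub_distrib]
    exact Finset.sum_congr rfl fun N _ => h1 N
  rw [h2, Finset.sum_ite_eq' J j]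
  by_cases h : j ∈ J
  · rw [if_pos h]
  · rw [if_neg h, hJ j h]; simp

/-- Newton iteration for the system `[t, z j] = G j t`. -/
theorem newton (z : ℤ → K)
    (hK : ∀ (N : ℤ) (f : K), ∃ y : K, y * z N - z N * y = f ∧ ∀ j, j ≠ N → y * z j = z j * y)
    (J : Finset ℤ) (G : ℤ → HahnSeries ℤ K → HahnSeries ℤ K) (hJ : ∀ j, j ∉ J → G j = 0)
    (t0 : HahnSeries ℤ K) (B : ℤ)
    (hG : ∀ j r u u', u - t0 ∈ FL K B → u' - t0 ∈ FL K B → u - u' ∈ FL K r →
      G j u - G j u' ∈ FL K (r + 1))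
    (h0 : ∀ j, G j t0 - (t0 * HahnSeries.C (z j) - HahnSeries.C (z j) * t0) ∈ FL K B)
    (h0J : ∀ j, j ∉ J → t0 * HahnSeries.C (z j) - HahnSeries.C (z j) * t0 = 0) :
    ∃ t, t - t0 ∈ FL K B ∧
      ∀ j, t * HahnSeries.C (z j) - HahnSeries.C (z j) * t = G j t := by
  classical
  -- the iteration
  have step : ∀ (m : ℕ) (t : HahnSeries ℤ K), (t - t0 ∈ FL K B ∧
      (∀ j, G j t - (t * HahnSeries.C (z j) - HahnSeries.C (z j) * t) ∈ FL K (B + m)) ∧
      (∀ j, j ∉ J → t * HahnSeries.C (z j) - HahnSeries.C (z j) * t = 0)) →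
      ∃ t' : HahnSeries ℤ K, (t' - t0 ∈ FL K B ∧
      (∀ j, G j t' - (t' * HahnSeries.C (z j) - HahnSeries.C (z j) * t') ∈
        FL K (B + (m + 1 : ℕ))) ∧
      (∀ j, j ∉ J → t' * HahnSeries.C (z j) - HahnSeries.C (z j) * t' = 0)) ∧
      t' - t ∈ FL K (B + m) := by
    intro m t ht
    obtain ⟨h1, h2, h3⟩ := ht
    obtain ⟨y, hy, hy'⟩ := solve_comm z hK J
      (fun j => G j t - (t * HahnSeries.C (z j) - HahnSeries.C (z j) * t)) (B + m) h2
      (fun j hj => by rw [hJ j hj, h3 j hj]; simp)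
    have e1 : ∀ j, (t + y) * HahnSeries.C (z j) - HahnSeries.C (z j) * (t + y) = G j t := by
      intro j
      have := hy' j
      have e2 : (t + y) * HahnSeries.C (z j) - HahnSeries.C (z j) * (t + y) =
        (t * HahnSeries.C (z j) - HahnSeries.C (z j) * t) +
          (y * HahnSeries.C (z j) - HahnSeries.C (z j) * y) := by noncomm_ring
      rw [e2, this]; abel
    have e3 : t + y - t0 ∈ FL K B := by
      have : t + y - t0 = (t - t0) + y := by abel
      rw [this]
      exact (FL K B).add_mem h1 (FL_anti (by omega) hy)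
    have e4 : t + y - t ∈ FL K (B + m) := by simpa using hy
    refine ⟨t + y, ⟨e3, ?_, ?_⟩, e4⟩
    · intro j
      rw [e1 j]
      have := hG j _ _ _ e3 h1 e4
      refine FL_anti ?_ this
      push_cast; omega
    · intro j hj
      rw [e1 j, hJ j hj]; rfl
  choose! nx hnx1 hnx2 using step
  let T : ℕ → HahnSeries ℤ K := fun m => Nat.rec t0 (fun m tm => nx m tm) m
  have hT0 : T 0 = t0 := rfl
  have hTs : ∀ m, T (m + 1) = nx m (T m) := fun m => rfl
  have hinv : ∀ m : ℕ, (T m - t0 ∈ FL K B ∧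
      (∀ j, G j (T m) - (T m * HahnSeries.C (z j) - HahnSeries.C (z j) * T m) ∈ FL K (B + m)) ∧
      (∀ j, j ∉ J → T m * HahnSeries.C (z j) - HahnSeries.C (z j) * T m = 0)) := by
    intro m
    induction m with
    | zero =>
      rw [hT0]
      refine ⟨by simpa using (FL K B).zero_mem, fun j => by simpa using h0 j, h0J⟩
    | succ m ih =>
      rw [hTs]
      exact hnx1 m (T m) ih
  obtain ⟨t, ht⟩ := FL_limit T (fun m => (m : ℤ) + B) (fun m n h => by simpa using h) B
    (fun n => le_refl _) (fun m => by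
      have := hnx2 m (T m) (hinv m)
      rw [← hTs] at this
      exact FL_anti (by omega) this)
  have ht0 : t - t0 ∈ FL K B := by simpa [hT0] using ht 0
  refine ⟨t, ht0, fun j => ?_⟩
  rw [← sub_eq_zero]
  apply eq_zero_of_FL
  intro N
  -- take `m` large
  refine ⟨(N : ℤ), le_refl _, ?_⟩
  set m := N + (-B).toNat with hm
  have hmN : (N : ℤ) ≤ B + m := by
    have := Int.self_le_toNat (-B)
    rw [hm]; push_cast; omega
  have e5 : t * HahnSeries.C (z j) - HahnSeries.C (z j) * t - G j t =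
      ((t - T m) * HahnSeries.C (z j) - HahnSeries.C (z j) * (t - T m)) -
      (G j (T m) - (T m * HahnSeries.C (z j) - HahnSeries.C (z j) * T m)) -
      (G j t - G j (T m)) := by noncomm_ring
  rw [e5]
  have hm' : t - T m ∈ FL K (N : ℤ) := FL_anti (by omega) (ht m)
  refine (FL K _).sub_mem ((FL K _).sub_mem ((FL K _).sub_mem ?_ ?_) ?_) ?_
  · exact FL_mul' hm' (FL_C _) (by omega)
  · exact FL_mul' (FL_C _) hm' (by omega)
  · exact FL_anti hmN ((hinv m).2.1 j)
  · exact FL_anti (by omega) (hG j _ _ _ ht0 (hinv m).1 hm')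


/-- noncommutative polynomial terms in one variable `t` and five constants -/
inductive Tm : Type
  | c : Fin 5 → Tm
  | t : Tm
  | one : Tm
  | add : Tm → Tm → Tm
  | neg : Tm → Tm
  | mul : Tm → Tm → Tm
  deriving Countable

/-- evaluation of a term -/
def ev {L : Type} [Ring L] (g : Fin 5 → L) (t : L) : Tm → L
  | .c i => g i
  | .t => t
  | .one => 1
  | .add p q => ev g t p + ev g t q
  | .neg p => - ev g t p
  | .mul p q => ev g t p * ev g t q

/-- terms are bounded and Lipschitz on the ball `FL 0` -/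
theorem ev_lip (g : Fin 5 → HahnSeries ℤ K) (hg : ∀ i, g i ∈ FL K (-1)) (q : Tm) :
    ∃ D : ℤ, 0 ≤ D ∧ (∀ u, u ∈ FL K 0 → ev g u q ∈ FL K (-D)) ∧
      ∀ r u u', u ∈ FL K 0 → u' ∈ FL K 0 → u - u' ∈ FL K r →
        ev g u q - ev g u' q ∈ FL K (r - D) := by
  induction q with
  | c i =>
    refine ⟨1, by norm_num, fun u _ => hg i, fun r u u' _ _ _ => ?_⟩
    simp only [ev, sub_self]
    exact (FL K _).zero_mem
  | t =>
    exact ⟨0, le_refl _, fun u hu => by simpa [ev] using hu,
      fun r u u' _ _ h => by simpa [ev] using h⟩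
  | one =>
    refine ⟨0, le_refl _, fun u _ => by simpa [ev] using FL_one, fun r u u' _ _ _ => ?_⟩
    simp only [ev, sub_self]
    exact (FL K _).zero_mem
  | add p q ihp ihq =>
    obtain ⟨D, hD, h1, h2⟩ := ihp
    obtain ⟨D', hD', h1', h2'⟩ := ihq
    refine ⟨D + D', by omega, fun u hu => ?_, fun r u u' hu hu' h => ?_⟩
    · exact (FL K _).add_mem (FL_anti (by omega) (h1 u hu)) (FL_anti (by omega) (h1' u hu))
    · have e : ev g u (p.add q) - ev g u' (p.add q) =
        (ev g u p - ev g u' p) + (ev g u q - ev g u' q) := by simp only [ev]; abel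
      rw [e]
      exact (FL K _).add_mem (FL_anti (by omega) (h2 r u u' hu hu' h))
        (FL_anti (by omega) (h2' r u u' hu hu' h))
  | neg p ihp =>
    obtain ⟨D, hD, h1, h2⟩ := ihp
    refine ⟨D, hD, fun u hu => (FL K _).neg_mem (h1 u hu), fun r u u' hu hu' h => ?_⟩
    have e : ev g u p.neg - ev g u' p.neg = - (ev g u p - ev g u' p) := by simp only [ev]; abel
    rw [e]
    exact (FL K _).neg_mem (h2 r u u' hu hu' h)
  | mul p q ihp ihq =>
    obtain ⟨D, hD, h1, h2⟩ := ihp
    obtain ⟨D', hD', h1', h2'⟩ := ihq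
    refine ⟨D + D', by omega, fun u hu => ?_, fun r u u' hu hu' h => ?_⟩
    · exact FL_mul' (h1 u hu) (h1' u hu) (by omega)
    · have e : ev g u (p.mul q) - ev g u' (p.mul q) =
        ev g u p * (ev g u q - ev g u' q) + (ev g u p - ev g u' p) * ev g u' q := by
        simp only [ev]; noncomm_ring
      rw [e]
      exact (FL K _).add_mem (FL_mul' (h1 u hu) (h2' r u u' hu hu' h) (by omega))
        (FL_mul' (h2 r u u' hu hu' h) (h1' u' hu') (by omega))

/-- a good state of the recursion -/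
structure GoodSt (z : ℤ → K) (t : HahnSeries ℤ K) (J : Finset ℤ)
    (G : ℤ → HahnSeries ℤ K → HahnSeries ℤ K) (B : ℤ) : Prop where
  hB : 0 ≤ B
  ht : t ∈ FL K 0
  hJ : ∀ j, j ∉ J → G j = 0
  hlip : ∀ j r u u', u - t ∈ FL K B → u' - t ∈ FL K B → u - u' ∈ FL K r →
      G j u - G j u' ∈ FL K (r + 1)
  hrel : ∀ j, t * HahnSeries.C (z j) - HahnSeries.C (z j) * t = G j t

theorem GoodSt.init (z : ℤ → K) : GoodSt z 0 ∅ (fun _ => 0) 0 where
  hB := le_refl _
  ht := (FL K 0).zero_mem
  hJ := fun _ _ => rfl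
  hlip := fun j r u u' _ _ _ => by simpa using (FL K (r + 1)).zero_mem
  hrel := fun j => by simp

theorem GoodSt.step {z : ℤ → K}
    (hK : ∀ (N : ℤ) (f : K), ∃ y : K, y * z N - z N * y = f ∧ ∀ j, j ≠ N → y * z j = z j * y)
    (g : Fin 5 → HahnSeries ℤ K) (hg : ∀ i, g i ∈ FL K (-1))
    {t : HahnSeries ℤ K} {J : Finset ℤ}
    {G : ℤ → HahnSeries ℤ K → HahnSeries ℤ K} {B : ℤ} (h : GoodSt z t J G B) (q : Tm) (n : ℤ) :
    ∃ (t' : HahnSeries ℤ K) (J' : Finset ℤ) (G' : ℤ → HahnSeries ℤ K → HahnSeries ℤ K) (B' : ℤ),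
      GoodSt z t' J' G' B' ∧ B ≤ B' ∧ n ≤ B' ∧ t' - t ∈ FL K B' ∧
      (∀ j ∈ J, j ∈ J' ∧ G' j = G j) ∧
      (ev g t q ≠ 0 → ∃ j ∈ J', ∃ M : ℕ, G' j = fun u =>
        HahnSeries.single (M : ℤ) (1 : K) * Ring.inverse (ev g u q)) := by
  classical
  by_cases hq : ev g t q = 0
  · refine ⟨t, J, G, max B n, ⟨?_, h.ht, h.hJ, ?_, h.hrel⟩, le_max_left _ _, le_max_right _ _,
      ?_, fun j hj => ⟨hj, rfl⟩, fun hc => absurd hq hc⟩
    · exact le_trans h.hB (le_max_left _ _)
    · intro j r u u' hu hu' huu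
      exact h.hlip j r u u' (FL_anti (le_max_left _ _) hu) (FL_anti (le_max_left _ _) hu') huu
    · rw [sub_self]; exact (FL K _).zero_mem
  · obtain ⟨a, ha, ha'⟩ := exists_order hq
    obtain ⟨D, hD, hD1, hD2⟩ := ev_lip g hg q
    obtain ⟨j0, hj0⟩ := Infinite.exists_notMem_finset J
    set B1 : ℤ := max (max B n) (D + a + 1) with hB1
    have hBB1 : B ≤ B1 := le_trans (le_max_left _ _) (le_max_left _ _)
    have hnB1 : n ≤ B1 := le_trans (le_max_right _ _) (le_max_left _ _)
    have hDB1 : D + a + 1 ≤ B1 := le_max_right _ _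
    have hB10 : 0 ≤ B1 := le_trans h.hB hBB1
    obtain ⟨M, hM1, hM2⟩ : ∃ M : ℕ, B1 + a ≤ M ∧ D + 2 * a + 1 ≤ M := by
      refine ⟨(max (B1 + a) (D + 2 * a + 1)).toNat, ?_, ?_⟩
      · exact le_trans (le_max_left _ _) (Int.self_le_toNat _)
      · exact le_trans (le_max_right _ _) (Int.self_le_toNat _)
    set Gq : HahnSeries ℤ K → HahnSeries ℤ K := fun u =>
        HahnSeries.single (M : ℤ) (1 : K) * Ring.inverse (ev g u q) with hGq
    have hball : ∀ u, u - t ∈ FL K B1 → u ∈ FL K 0 := by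
      intro u hu
      have := (FL K 0).add_mem (FL_anti hB10 hu) h.ht
      simpa using this
    have hord : ∀ u, u - t ∈ FL K B1 → ev g u q ∈ FL K a ∧ (ev g u q).coeff a ≠ 0 := by
      intro u hu
      have h1 := hD2 B1 u t (hball u hu) h.ht hu
      have h2 : ev g u q - ev g t q ∈ FL K (a + 1) := FL_anti (by omega) h1
      constructor
      · have := (FL K a).add_mem (FL_anti (by omega) h2) ha
        simpa using this
      · have h3 := h2 a (by omega)
        rw [HahnSeries.coeff_sub, sub_eq_zero] at h3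
        rw [h3]; exact ha'
    have hinvF : ∀ u, u - t ∈ FL K B1 → Ring.inverse (ev g u q) ∈ FL K (-a) := fun u hu =>
      inverse_FL (hord u hu).1 (hord u hu).2
    have hne : ∀ u, u - t ∈ FL K B1 → IsUnit (ev g u q) := by
      intro u hu
      apply isUnit_of_ne
      intro hc
      have := (hord u hu).2
      rw [hc] at this
      simp at this
    have hGqlip : ∀ r u u', u - t ∈ FL K B1 → u' - t ∈ FL K B1 → u - u' ∈ FL K r →
        Gq u - Gq u' ∈ FL K (r + 1) := by
      intro r u u' hu hu' huu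
      have e : Gq u - Gq u' = HahnSeries.single (M : ℤ) (1 : K) *
          (Ring.inverse (ev g u q) * (-(ev g u q - ev g u' q)) * Ring.inverse (ev g u' q)) := by
        have e1 : Ring.inverse (ev g u q) * (-(ev g u q - ev g u' q)) *
            Ring.inverse (ev g u' q) = Ring.inverse (ev g u q) - Ring.inverse (ev g u' q) := by
          have a1 := Ring.inverse_mul_cancel _ (hne u hu)
          have a2 := Ring.mul_inverse_cancel _ (hne u' hu')
          calc Ring.inverse (ev g u q) * (-(ev g u q - ev g u' q)) *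
              Ring.inverse (ev g u' q)
              = Ring.inverse (ev g u q) * (ev g u' q * Ring.inverse (ev g u' q)) -
                (Ring.inverse (ev g u q) * ev g u q) * Ring.inverse (ev g u' q) := by
                noncomm_ring
            _ = _ := by rw [a1, a2, mul_one, one_mul]
        rw [e1, hGq]; noncomm_ring
      rw [e]
      have h1 := (FL K _).neg_mem (hD2 r u u' (hball u hu) (hball u' hu') huu)
      have h2 := FL_mul (FL_mul (hinvF u hu) h1) (hinvF u' hu')
      exact FL_mul' (FL_single (M : ℤ) 1) h2 (by omega)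
    -- the new system
    set G1 : ℤ → HahnSeries ℤ K → HahnSeries ℤ K := Function.update G j0 Gq with hG1
    have hlip1 : ∀ j r u u', u - t ∈ FL K B1 → u' - t ∈ FL K B1 → u - u' ∈ FL K r →
        G1 j u - G1 j u' ∈ FL K (r + 1) := by
      intro j r u u' hu hu' huu
      by_cases hj : j = j0
      · subst hj
        rw [hG1, Function.update_self]
        exact hGqlip r u u' hu hu' huu
      · rw [hG1, Function.update_of_ne hj]
        exact h.hlip j r u u' (FL_anti hBB1 hu) (FL_anti hBB1 hu') huu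
    have hJ1 : ∀ j, j ∉ insert j0 J → G1 j = 0 := by
      intro j hj
      rw [Finset.mem_insert, not_or] at hj
      rw [hG1, Function.update_of_ne hj.1]
      exact h.hJ j hj.2
    obtain ⟨t', ht', ht''⟩ := newton z hK (insert j0 J) G1 hJ1 t B1 hlip1 (by
      intro j
      by_cases hj : j = j0
      · subst hj
        rw [hG1, Function.update_self, h.hrel j, h.hJ j hj0]
        have : Gq t ∈ FL K B1 := by
          have hh := hinvF t (by rw [sub_self]; exact (FL K _).zero_mem)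
          exact FL_mul' (FL_single (M : ℤ) 1) hh (by omega)
        simpa using this
      · rw [hG1, Function.update_of_ne hj, h.hrel j, sub_self]
        exact (FL K _).zero_mem) (by
      intro j hj
      rw [Finset.mem_insert, not_or] at hj
      rw [h.hrel j, h.hJ j hj.2]; rfl)
    have hb' : ∀ u, u - t' ∈ FL K B1 → u - t ∈ FL K B1 := by
      intro u hu
      have := (FL K B1).add_mem hu ht'
      simpa using this
    refine ⟨t', insert j0 J, G1, B1, ⟨hB10, hball t' ht', hJ1, ?_, ht''⟩, hBB1, hnB1, ht', ?_, ?_⟩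
    · intro j r u u' hu hu' huu
      exact hlip1 j r u u' (hb' u hu) (hb' u' hu') huu
    · intro j hj
      refine ⟨Finset.mem_insert_of_mem hj, ?_⟩
      rw [hG1, Function.update_of_ne]
      rintro rfl; exact hj0 hj
    · intro _
      refine ⟨j0, Finset.mem_insert_self _ _, M, ?_⟩
      rw [hG1, Function.update_self]


/-- The limit of the recursion. -/
theorem exists_limit (z : ℤ → K)
    (hK : ∀ (N : ℤ) (f : K), ∃ y : K, y * z N - z N * y = f ∧ ∀ j, j ≠ N → y * z j = z j * y)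
    (g : Fin 5 → HahnSeries ℤ K) (hg : ∀ i, g i ∈ FL K (-1)) :
    ∃ t : HahnSeries ℤ K, ∀ q : Tm, ev g t q ≠ 0 → ∃ (j : ℤ) (M : ℕ),
      t * HahnSeries.C (z j) - HahnSeries.C (z j) * t =
        HahnSeries.single (M : ℤ) (1 : K) * Ring.inverse (ev g t q) := by
  classical
  haveI : Nonempty Tm := ⟨Tm.one⟩
  obtain ⟨e, he⟩ := exists_surjective_nat Tm
  let Stt : Type := {S : HahnSeries ℤ K × Finset ℤ ×
    (ℤ → HahnSeries ℤ K → HahnSeries ℤ K) × ℤ // GoodSt z S.1 S.2.1 S.2.2.1 S.2.2.2}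
  have step : ∀ (n : ℕ) (S : Stt), ∃ S' : Stt, S.1.2.2.2 ≤ S'.1.2.2.2 ∧
      ((n : ℤ) + 1) ≤ S'.1.2.2.2 ∧ S'.1.1 - S.1.1 ∈ FL K S'.1.2.2.2 ∧
      (∀ j ∈ S.1.2.1, j ∈ S'.1.2.1 ∧ S'.1.2.2.1 j = S.1.2.2.1 j) ∧
      (ev g S.1.1 (e n.unpair.1) ≠ 0 → ∃ j ∈ S'.1.2.1, ∃ M : ℕ, S'.1.2.2.1 j = fun u =>
        HahnSeries.single (M : ℤ) (1 : K) * Ring.inverse (ev g u (e n.unpair.1))) := by
    intro n S
    obtain ⟨t', J', G', B', h1, h2, h3, h4, h5, h6⟩ :=
      GoodSt.step hK g hg S.2 (e n.unpair.1) ((n : ℤ) + 1)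
    exact ⟨⟨⟨t', J', G', B'⟩, h1⟩, h2, h3, h4, h5, h6⟩
  choose nx hnx using step
  let T : ℕ → Stt := fun m => Nat.rec ⟨⟨0, ∅, fun _ => 0, 0⟩, GoodSt.init z⟩
    (fun m S => nx m S) m
  have hTs : ∀ m, T (m + 1) = nx m (T m) := fun m => rfl
  set tt : ℕ → HahnSeries ℤ K := fun m => (T m).1.1 with htt
  set JJ : ℕ → Finset ℤ := fun m => (T m).1.2.1 with hJJ
  set GG : ℕ → (ℤ → HahnSeries ℤ K → HahnSeries ℤ K) := fun m => (T m).1.2.2.1 with hGG
  set BB : ℕ → ℤ := fun m => (T m).1.2.2.2 with hBB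
  have hgood : ∀ m, GoodSt z (tt m) (JJ m) (GG m) (BB m) := fun m => (T m).2
  have hBmono : Monotone BB := monotone_nat_of_le_succ fun m => (hnx m (T m)).1
  have hBn : ∀ n : ℕ, (n : ℤ) ≤ BB n := by
    intro n
    cases n with
    | zero => exact_mod_cast (hgood 0).hB
    | succ n =>
      have := (hnx n (T n)).2.1
      push_cast
      exact this
  have hd : ∀ m, tt (m + 1) - tt m ∈ FL K (BB (m + 1)) := fun m => (hnx m (T m)).2.2.1
  have hpers : ∀ m, ∀ j ∈ JJ m, j ∈ JJ (m + 1) ∧ GG (m + 1) j = GG m j :=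
    fun m => (hnx m (T m)).2.2.2.1
  have hnew : ∀ m, ev g (tt m) (e m.unpair.1) ≠ 0 → ∃ j ∈ JJ (m + 1), ∃ M : ℕ,
      GG (m + 1) j = fun u =>
        HahnSeries.single (M : ℤ) (1 : K) * Ring.inverse (ev g u (e m.unpair.1)) :=
    fun m => (hnx m (T m)).2.2.2.2
  obtain ⟨t, ht⟩ := FL_limit tt BB hBmono 0 (fun n => by simpa using hBn n)
    (fun m => FL_anti (hBmono (Nat.le_succ m)) (hd m))
  have hpers' : ∀ m k, ∀ j ∈ JJ m, j ∈ JJ (m + k) ∧ GG (m + k) j = GG m j := by
    intro m k j hj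
    induction k with
    | zero => exact ⟨hj, rfl⟩
    | succ k ih =>
      obtain ⟨h1, h2⟩ := hpers (m + k) j ih.1
      exact ⟨h1, h2.trans ih.2⟩
  have hlim : ∀ n, ∀ j ∈ JJ n, t * HahnSeries.C (z j) - HahnSeries.C (z j) * t = GG n j t := by
    intro n j hj
    rw [← sub_eq_zero]
    apply eq_zero_of_FL
    intro N
    refine ⟨(N : ℤ), le_refl _, ?_⟩
    have hm := (hpers' n N j hj).2
    set m := n + N with hmdef
    have hBm : (N : ℤ) ≤ BB m := le_trans (by rw [hmdef]; push_cast; omega) (hBn m)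
    have e1 : t * HahnSeries.C (z j) - HahnSeries.C (z j) * t - GG n j t =
        ((t - tt m) * HahnSeries.C (z j) - HahnSeries.C (z j) * (t - tt m)) +
        (GG m j (tt m) - GG m j t) := by
      have h1 := (hgood m).hrel j
      rw [← hm, ← h1]; noncomm_ring
    rw [e1]
    have htm : t - tt m ∈ FL K (N : ℤ) := FL_anti hBm (ht m)
    refine (FL K _).add_mem ((FL K _).sub_mem ?_ ?_) ?_
    · exact FL_mul' htm (FL_C _) (by omega)
    · exact FL_mul' (FL_C _) htm (by omega)
    · have h2 := (hgood m).hlip j (BB m) (tt m) t (by rw [sub_self]; exact (FL K _).zero_mem)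
        (ht m) (by
          have := (FL K _).neg_mem (ht m)
          rwa [neg_sub] at this)
      exact FL_anti (by omega) h2
  refine ⟨t, fun q hq => ?_⟩
  obtain ⟨a, ha, ha'⟩ := exists_order hq
  obtain ⟨D, hD, hD1, hD2⟩ := ev_lip g hg q
  have ht0 : t ∈ FL K 0 := by
    have h1 := (FL K 0).add_mem (FL_anti (hgood 0).hB (ht 0)) (hgood 0).ht
    simpa using h1
  obtain ⟨k, hk⟩ := he q
  set n := Nat.pair k ((a + D).toNat + 1) with hn
  have hnk : n.unpair.1 = k := by rw [hn, Nat.unpair_pair]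
  have hnB : a + D < BB n := by
    have h1 : (a + D).toNat + 1 ≤ n := Nat.right_le_pair _ _
    have h2 := Int.self_le_toNat (a + D)
    have h3 := hBn n
    omega
  have hnz : ev g (tt n) q ≠ 0 := by
    intro h0
    have h1 := hD2 (BB n) t (tt n) ht0 (hgood n).ht (ht n)
    rw [h0, sub_zero] at h1
    exact ha' (h1 a (by omega))
  obtain ⟨j, hj, M, hM⟩ := hnew n (by rw [hnk, hk]; exact hnz)
  refine ⟨j, M, ?_⟩
  rw [hlim (n + 1) j hj, hM, hnk, hk]

end Laurent

/-- Block L: from the division ring `K` to an infinite division ring that is finitely generated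
as a ring. -/
theorem final_of_K (K : Type) [DivisionRing K] (x : K) (z : ℤ → K) (hx : x ≠ 0)
    (hxz : ∀ j, x * z j = z (j + 1) * x)
    (hK : ∀ (N : ℤ) (f : K), ∃ y : K, y * z N - z N * y = f ∧ ∀ j, j ≠ N → y * z j = z j * y) :
    ∃ (D : Type) (_ : DivisionRing D), Infinite D ∧
      ∃ s : Finset D, Subring.closure (s : Set D) = ⊤ := by
  classical
  let g : Fin 5 → HahnSeries ℤ K := ![HahnSeries.single 1 1, HahnSeries.single (-1) 1,
    HahnSeries.C x, HahnSeries.C x⁻¹, HahnSeries.C (z 0)]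
  have hg : ∀ i, g i ∈ FL K (-1) := by
    intro i
    fin_cases i
    · exact FL_anti (by norm_num) (FL_single 1 1)
    · exact FL_single (-1) 1
    · exact FL_anti (by norm_num) (FL_C x)
    · exact FL_anti (by norm_num) (FL_C x⁻¹)
    · exact FL_anti (by norm_num) (FL_C (z 0))
  obtain ⟨t, ht⟩ := exists_limit z hK g hg
  set X : Set (HahnSeries ℤ K) := insert t (Set.range g) with hX
  set S : Subring (HahnSeries ℤ K) := Subring.closure X with hS
  have hgS : ∀ i, g i ∈ S := fun i => Subring.subset_closure (Set.mem_insert_of_mem _ ⟨i, rfl⟩)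
  have htS : t ∈ S := Subring.subset_closure (Set.mem_insert _ _)
  have hev : ∀ q, ev g t q ∈ S := by
    intro q
    induction q with
    | c i => exact hgS i
    | t => exact htS
    | one => exact S.one_mem
    | add p q ihp ihq => exact S.add_mem ihp ihq
    | neg p ihp => exact S.neg_mem ihp
    | mul p q ihp ihq => exact S.mul_mem ihp ihq
  have hev' : ∀ f ∈ S, ∃ q, ev g t q = f := by
    intro f hf
    induction hf using Subring.closure_induction with
    | mem y hy =>
      rcases hy with rfl | ⟨i, rfl⟩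
      · exact ⟨.t, rfl⟩
      · exact ⟨.c i, rfl⟩
    | zero => exact ⟨.add .one (.neg .one), by simp [ev]⟩
    | one => exact ⟨.one, rfl⟩
    | add a b _ _ iha ihb =>
      obtain ⟨p, hp⟩ := iha
      obtain ⟨q, hq⟩ := ihb
      exact ⟨.add p q, by simp [ev, hp, hq]⟩
    | neg a _ iha =>
      obtain ⟨p, hp⟩ := iha
      exact ⟨.neg p, by simp [ev, hp]⟩
    | mul a b _ _ iha ihb =>
      obtain ⟨p, hp⟩ := iha
      obtain ⟨q, hq⟩ := ihb
      exact ⟨.mul p q, by simp [ev, hp, hq]⟩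
  have hxS : HahnSeries.C x ∈ S := hgS 2
  have hxiS : HahnSeries.C x⁻¹ ∈ S := hgS 3
  have hz0S : HahnSeries.C (z 0) ∈ S := hgS 4
  have hzS : ∀ j : ℤ, (HahnSeries.C (z j) : HahnSeries ℤ K) ∈ S := by
    intro j
    induction j using Int.induction_on with
    | zero => exact hz0S
    | succ i ih =>
      have h1 : z ((i : ℤ) + 1) = x * z i * x⁻¹ := by
        rw [hxz i, mul_assoc, mul_inv_cancel₀ hx, mul_one]
      rw [h1, map_mul, map_mul]
      exact S.mul_mem (S.mul_mem hxS ih) hxiS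
    | pred i ih =>
      have h1 : z (-(i : ℤ) - 1) = x⁻¹ * z (-(i : ℤ)) * x := by
        have h2 := hxz (-(i : ℤ) - 1)
        rw [sub_add_cancel] at h2
        rw [mul_assoc, ← h2, ← mul_assoc, inv_mul_cancel₀ hx, one_mul]
      rw [h1, map_mul, map_mul]
      exact S.mul_mem (S.mul_mem hxiS ih) hxS
  have htauS : ∀ M : ℕ, (HahnSeries.single (-(M : ℤ)) (1 : K)) ∈ S := by
    intro M
    have h1 : (HahnSeries.single (-1 : ℤ) (1 : K)) ^ M = HahnSeries.single (-(M : ℤ)) (1 : K) := by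
      rw [HahnSeries.single_pow]; simp
    rw [← h1]
    exact S.pow_mem (hgS 1) M
  have hinvS : ∀ f ∈ S, f ≠ 0 → Ring.inverse f ∈ S := by
    intro f hf hf0
    obtain ⟨q, hq⟩ := hev' f hf
    obtain ⟨j, M, hM⟩ := ht q (by rw [hq]; exact hf0)
    rw [hq] at hM
    have h1 : Ring.inverse f = HahnSeries.single (-(M : ℤ)) (1 : K) *
        (t * HahnSeries.C (z j) - HahnSeries.C (z j) * t) := by
      rw [hM, ← mul_assoc, HahnSeries.single_mul_single]
      simp
    rw [h1]
    exact S.mul_mem (htauS M) (S.sub_mem (S.mul_mem htS (hzS j)) (S.mul_mem (hzS j) htS))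
  have hunit : ∀ a : S, IsUnit a ∨ a = 0 := by
    intro a
    by_cases ha : a = 0
    · exact Or.inr ha
    · left
      have ha' : (a : HahnSeries ℤ K) ≠ 0 := fun h => ha (Subtype.ext h)
      have hu := isUnit_of_ne ha'
      refine ⟨⟨a, ⟨Ring.inverse (a : HahnSeries ℤ K), hinvS _ a.2 ha'⟩, ?_, ?_⟩, rfl⟩
      · exact Subtype.ext (Ring.mul_inverse_cancel _ hu)
      · exact Subtype.ext (Ring.inverse_mul_cancel _ hu)
  have hinf : Infinite S := by
    -- infinitely many powers of `tau`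
    refine Infinite.of_injective
      (fun n : ℕ => (⟨HahnSeries.single (-(n : ℤ)) (1 : K), htauS n⟩ : S)) ?_
    intro m n hmn
    have h1 : (HahnSeries.single (-(m : ℤ)) (1 : K)) = HahnSeries.single (-(n : ℤ)) (1 : K) :=
      congrArg Subtype.val hmn
    have h2 := congrArg (fun f : HahnSeries ℤ K => f.coeff (-(m : ℤ))) h1
    simp only [HahnSeries.coeff_single_same] at h2
    by_contra hne
    rw [HahnSeries.coeff_single_of_ne (by omega)] at h2
    exact one_ne_zero h2
  have hfin : ((Subtype.val : S → HahnSeries ℤ K) ⁻¹' X).Finite :=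
    Set.Finite.preimage Subtype.val_injective.injOn ((Set.finite_range g).insert t)
  have key : ∀ q, (⟨ev g t q, hev q⟩ : S) ∈
      Subring.closure ((Subtype.val : S → HahnSeries ℤ K) ⁻¹' X) := by
    intro q
    induction q with
    | c i => exact Subring.subset_closure (Set.mem_insert_of_mem _ ⟨i, rfl⟩)
    | t => exact Subring.subset_closure (Set.mem_insert _ _)
    | one =>
      have h : (⟨ev g t .one, hev .one⟩ : S) = 1 := Subtype.ext rfl
      rw [h]
      exact Subring.one_mem _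
    | add p q ihp ihq =>
      have h : (⟨ev g t (p.add q), hev (p.add q)⟩ : S) =
        (⟨ev g t p, hev p⟩ : S) + (⟨ev g t q, hev q⟩ : S) := Subtype.ext rfl
      rw [h]
      exact Subring.add_mem _ ihp ihq
    | neg p ihp =>
      have h : (⟨ev g t p.neg, hev p.neg⟩ : S) = -(⟨ev g t p, hev p⟩ : S) := Subtype.ext rfl
      rw [h]
      exact Subring.neg_mem _ ihp
    | mul p q ihp ihq =>
      have h : (⟨ev g t (p.mul q), hev (p.mul q)⟩ : S) =
        (⟨ev g t p, hev p⟩ : S) * (⟨ev g t q, hev q⟩ : S) := Subtype.ext rfl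
      rw [h]
      exact Subring.mul_mem _ ihp ihq
  have htop : Subring.closure ((hfin.toFinset : Finset S) : Set S) = ⊤ := by
    rw [Set.Finite.coe_toFinset, eq_top_iff]
    rintro ⟨a, ha⟩ -
    obtain ⟨q, hq⟩ := hev' a ha
    have h3 := key q
    have h4 : (⟨ev g t q, hev q⟩ : S) = ⟨a, ha⟩ := Subtype.ext hq
    rw [h4] at h3
    exact h3
  exact ⟨S, DivisionRing.ofIsUnitOrEqZero hunit, hinf, hfin.toFinset, htop⟩

end Pool.Agent.FGDiv
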