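import Pool.Agent.MP_e77664_al.Block

/-!
# A module on which every full matrix acts bijectively

For a nontrivial ring satisfying Sylvester's law of nullity we construct a nonzero left module on
which every full matrix acts bijectively.
-/

set_option autoImplicit false

namespace Pool.Agent.FGDiv

open Matrix

namespace ModV

/-- matrix acting on vectors with entries in a module -/
def mulV {R V m n : Type} [Ring R] [AddCommGroup V] [Module R V] [Fintype n]
    (A : Matrix m n R) (y : n → V) : m → V := fun i => ∑ j, A i j • y j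

section mulV

variable {R V m n : Type} [Ring R] [AddCommGroup V] [Module R V] [Fintype n]

theorem mulV_apply (A : Matrix m n R) (y : n → V) (i : m) : mulV A y i = ∑ j, A i j • y j := rfl

theorem mulV_fromBlocks {p q : Type} [Fintype p] (A : Matrix m n R) (B : Matrix m p R)
    (C : Matrix q n R) (D : Matrix q p R) (x : n → V) (y : p → V) :
    mulV (fromBlocks A B C D) (Sum.elim x y) =
      Sum.elim (fun i => mulV A x i + mulV B y i) (fun i => mulV C x i + mulV D y i) := by
  funext i
  rcases i with i | i <;> simp [mulV, Fintype.sum_sum_type]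

theorem mulV_sub (A : Matrix m n R) (x y : n → V) : mulV A (x - y) = mulV A x - mulV A y := by
  funext i
  simp [mulV, smul_sub, Finset.sum_sub_distrib]

theorem mulV_neg' (A : Matrix m n R) (x : n → V) : mulV (-A) x = - mulV A x := by
  funext i
  simp [mulV]

theorem mulV_zero' (x : n → V) : mulV (0 : Matrix m n R) x = 0 := by
  funext i
  simp [mulV]

theorem mulV_map {W : Type} [AddCommGroup W] [Module R W] (f : V →ₗ[R] W) (A : Matrix m n R)
    (x : n → V) (i : m) : f (mulV A x i) = mulV A (fun j => f (x j)) i := by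
  simp [mulV]

end mulV

theorem Fac.mul_left {R : Type} [Ring R] {l m n : Type} [Fintype m] {A : Matrix m n R} {r : ℕ}
    (h : Fac A r) (L : Matrix l m R) : Fac (L * A) r := by
  obtain ⟨P, Q, rfl⟩ := h
  exact ⟨L * P, Q, by rw [Matrix.mul_assoc]⟩

theorem Fac.submatrix {R : Type} [Ring R] {l m n o : Type} {A : Matrix m n R} {r : ℕ}
    (h : Fac A r) (f : l → m) (g : o → n) : Fac (A.submatrix f g) r := by
  obtain ⟨P, Q, rfl⟩ := h
  exact ⟨P.submatrix f id, Q.submatrix id g, by
    ext i j
    simp [Matrix.mul_apply]⟩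

theorem full_one_unit {R : Type} [Ring R] [Nontrivial R] :
    Full (1 : Matrix Unit Unit R) := by
  intro r hr
  by_contra hlt
  have hr0 : r = 0 := by
    simp at hlt
    exact hlt
  subst hr0
  obtain ⟨P, Q, hPQ⟩ := hr
  have := congrFun (congrFun hPQ ()) ()
  simp [Matrix.mul_apply] at this

theorem full_empty {R : Type} [Ring R] {ι : Type} [Fintype ι] [IsEmpty ι] (A : Matrix ι ι R) :
    Full A := by
  intro r _
  simp

/-- splitting off the `none` component of a sigma type over `Option` -/
def sigmaOpt {o : Type} (m : Option o → Type) :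
    (Σ i : Option o, m i) ≃ (m none ⊕ Σ i : o, m (some i)) where
  toFun x := match x with
    | ⟨none, y⟩ => Sum.inl y
    | ⟨some i, y⟩ => Sum.inr ⟨i, y⟩
  invFun x := match x with
    | Sum.inl y => ⟨none, y⟩
    | Sum.inr ⟨i, y⟩ => ⟨some i, y⟩
  left_inv := by rintro ⟨_ | i, y⟩ <;> rfl
  right_inv := by rintro (y | ⟨i, y⟩) <;> rfl

/-- block diagonal matrices of full matrices are full -/
theorem full_blockDiagonal' {R : Type} [Ring R] (h : Syl R) (o : Type) [Fintype o] :
    ∀ [DecidableEq o] (m : o → Type) [∀ i, Fintype (m i)] (M : ∀ i, Matrix (m i) (m i) R),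
    (∀ i, Full (M i)) → Full (Matrix.blockDiagonal' M) := by
  classical
  refine Fintype.induction_empty_option (P := fun (o : Type) (_ : Fintype o) =>
    ∀ [DecidableEq o] (m : o → Type) [∀ i, Fintype (m i)]
    (M : ∀ i, Matrix (m i) (m i) R), (∀ i, Full (M i)) → Full (Matrix.blockDiagonal' M)) ?_ ?_ ?_ o
  · intro α β _ e hα _ m _ M hM
    let _ : Fintype α := Fintype.ofEquiv β e.symm
    have h1 := hα (fun a => m (e a)) (fun a => M (e a)) (fun a => hM (e a))
    have h2 := Full.of_equiv (Equiv.sigmaCongrLeft (β := m) e) h1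
    have h3 : (Matrix.blockDiagonal' fun a => M (e a)).submatrix
        (Equiv.sigmaCongrLeft (β := m) e).symm (Equiv.sigmaCongrLeft (β := m) e).symm =
        Matrix.blockDiagonal' M := by
      ext x y
      obtain ⟨x, rfl⟩ := (Equiv.sigmaCongrLeft (β := m) e).surjective x
      obtain ⟨y, rfl⟩ := (Equiv.sigmaCongrLeft (β := m) e).surjective y
      simp only [Matrix.submatrix_apply, Equiv.symm_apply_apply]
      obtain ⟨a, x⟩ := x
      obtain ⟨b, y⟩ := y
      by_cases hab : a = b
      · subst hab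
        simp [Matrix.blockDiagonal'_apply_eq, Equiv.sigmaCongrLeft]
      · rw [Matrix.blockDiagonal'_apply_ne _ _ _ hab, Equiv.sigmaCongrLeft_apply,
          Equiv.sigmaCongrLeft_apply, Matrix.blockDiagonal'_apply_ne]
        exact fun hh => hab (e.injective hh)
    rw [h3] at h2
    convert h2
  · intro _ m _ M _
    exact full_empty _
  · intro α _ hα _ m _ M hM
    have h1 := hα (fun a => m (some a)) (fun a => M (some a)) (fun a => hM _)
    have h2 := Full.of_equiv (sigmaOpt m).symm
      (Full.fromBlocks_upper h (hM none) h1 (0 : Matrix (m none) (Σ a : α, m (some a)) R))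
    have h3 : (fromBlocks (M none) 0 0 (Matrix.blockDiagonal' fun a => M (some a))).submatrix
        (sigmaOpt m).symm.symm (sigmaOpt m).symm.symm = Matrix.blockDiagonal' M := by
      ext x y
      obtain ⟨_ | a, x⟩ := x <;> obtain ⟨_ | b, y⟩ := y
      · simp [sigmaOpt, Matrix.blockDiagonal'_apply_eq]
      · simp [sigmaOpt, Matrix.blockDiagonal'_apply_ne]
      · simp [sigmaOpt, Matrix.blockDiagonal'_apply_ne]
      · by_cases hab : a = b
        · subst hab
          simp [sigmaOpt, Matrix.blockDiagonal'_apply_eq]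
        · have : (some a : Option α) ≠ some b := fun hh => hab (Option.some.inj hh)
          simp [sigmaOpt, Matrix.blockDiagonal'_apply_ne _ _ _ hab,
            Matrix.blockDiagonal'_apply_ne _ _ _ this]
    rw [h3] at h2
    convert h2

/-! ### The generators and the relations -/

/-- systems `A y = b` with `A` full -/
structure Gen (R : Type) [Ring R] where
  /-- size -/
  n : ℕ
  /-- matrix -/
  A : Matrix (Fin n) (Fin n) R
  full : Full A
  /-- right hand side -/
  b : Fin n → R

/-- indices of the unknowns -/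
abbrev Idx (R : Type) [Ring R] : Type := Σ g : Gen R, Fin g.n

/-- the free module -/
abbrev FM (R : Type) [Ring R] : Type := Option (Idx R) →₀ R

variable {R : Type} [Ring R]

/-- basis vectors of the free module -/
noncomputable def bv (x : Option (Idx R)) : FM R := Finsupp.single x 1

/-- the relations -/
noncomputable def rel (x : Idx R) : FM R :=
  (∑ j, x.1.A x.2 j • bv (some ⟨x.1, j⟩)) - x.1.b x.2 • bv none

/-- submodule of relations -/
noncomputable def N0 (R : Type) [Ring R] : Submodule R (FM R) := Submodule.span R (Set.range rel)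

/-- witness -/
def Wit {ι : Type} [Fintype ι] (B : Matrix ι ι R) (X : ι → FM R) : Prop :=
  Full B ∧ ∀ l, mulV B X l ∈ N0 R

/-- the set which we kill -/
def Wset (R : Type) [Ring R] : Set (FM R) :=
  {x | ∃ (ι : Type) (_ : Fintype ι) (B : Matrix ι ι R) (X : ι → FM R),
    Wit B X ∧ x ∈ Submodule.span R (Set.range X)}

theorem Wit.sum (h : Syl R) {ι κ : Type} [Fintype ι] [Fintype κ] {B : Matrix ι ι R}
    {B' : Matrix κ κ R} {X : ι → FM R} {X' : κ → FM R} (hB : Wit B X) (hB' : Wit B' X') :
    Wit (fromBlocks B 0 0 B') (Sum.elim X X') := by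
  refine ⟨Full.fromBlocks_upper h hB.1 hB'.1 0, ?_⟩
  rw [mulV_fromBlocks]
  rintro (l | l)
  · simpa [mulV_zero'] using hB.2 l
  · simpa [mulV_zero'] using hB'.2 l

theorem span_left {V ι κ : Type} [AddCommGroup V] [Module R V] (X : ι → V) (X' : κ → V) :
    Submodule.span R (Set.range X) ≤ Submodule.span R (Set.range (Sum.elim X X')) := by
  apply Submodule.span_mono
  rintro _ ⟨i, rfl⟩
  exact ⟨Sum.inl i, rfl⟩

theorem span_right {V ι κ : Type} [AddCommGroup V] [Module R V] (X : ι → V) (X' : κ → V) :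
    Submodule.span R (Set.range X') ≤ Submodule.span R (Set.range (Sum.elim X X')) := by
  apply Submodule.span_mono
  rintro _ ⟨i, rfl⟩
  exact ⟨Sum.inr i, rfl⟩

/-- the submodule which we kill -/
noncomputable def Wsub (h : Syl R) : Submodule R (FM R) where
  carrier := Wset R
  add_mem' := by
    rintro x y ⟨ι, _, B, X, hB, hx⟩ ⟨κ, _, B', X', hB', hy⟩
    exact ⟨ι ⊕ κ, inferInstance, _, _, hB.sum h hB',
      Submodule.add_mem _ (span_left X X' hx) (span_right X X' hy)⟩
  zero_mem' := ⟨Empty, inferInstance, 0, fun x => x.elim, ⟨full_empty _, fun x => x.elim⟩,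
    Submodule.zero_mem _⟩
  smul_mem' := by
    rintro r x ⟨ι, _, B, X, hB, hx⟩
    exact ⟨ι, _, B, X, hB, Submodule.smul_mem _ r hx⟩

theorem mem_Wsub (h : Syl R) {x : FM R} : x ∈ Wsub h ↔
    ∃ (ι : Type) (_ : Fintype ι) (B : Matrix ι ι R) (X : ι → FM R),
    Wit B X ∧ x ∈ Submodule.span R (Set.range X) := Iff.rfl

theorem N0_le (h : Syl R) [Nontrivial R] : N0 R ≤ Wsub h := by
  intro x hx
  rw [mem_Wsub]
  refine ⟨Unit, inferInstance, 1, fun _ => x, ⟨full_one_unit, ?_⟩, ?_⟩
  · intro l
    simpa [mulV] using hx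
  · exact Submodule.subset_span ⟨(), rfl⟩

/-- common witness for finitely many elements -/
theorem common_witness (h : Syl R) (s : Finset (FM R)) (hs : ∀ x ∈ s, x ∈ Wsub h) :
    ∃ (ι : Type) (_ : Fintype ι) (B : Matrix ι ι R) (X : ι → FM R),
    Wit B X ∧ ∀ x ∈ s, x ∈ Submodule.span R (Set.range X) := by
  classical
  induction s using Finset.induction_on with
  | empty =>
    exact ⟨Empty, inferInstance, 0, fun x => x.elim, ⟨full_empty _, fun x => x.elim⟩, by simp⟩
  | insert a s _ ih =>
    obtain ⟨ι, _, B, X, hB, hx⟩ := ih (fun x hx => hs x (Finset.mem_insert_of_mem hx))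
    obtain ⟨κ, _, B', X', hB', hy⟩ := (mem_Wsub h).1 (hs a (Finset.mem_insert_self _ _))
    refine ⟨κ ⊕ ι, inferInstance, _, _, hB'.sum h hB, ?_⟩
    intro x hx'
    rw [Finset.mem_insert] at hx'
    rcases hx' with rfl | hx'
    · exact span_left X' X hy
    · exact span_right X' X (hx x hx')

/-- the module -/
abbrev VM (h : Syl R) : Type := FM R ⧸ Wsub h

/-- torsion freeness -/
theorem tf (h : Syl R) {ι : Type} [Fintype ι] (A : Matrix ι ι R) (hA : Full A) (y : ι → VM h)
    (hy : mulV A y = 0) : y = 0 := by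
  classical
  choose X hX using fun i => Submodule.Quotient.mk_surjective (Wsub h) (y i)
  have h1 : ∀ l, mulV A X l ∈ Wsub h := by
    intro l
    rw [← Submodule.Quotient.mk_eq_zero, ← Submodule.mkQ_apply, mulV_map]
    simp only [Submodule.mkQ_apply, hX]
    exact congrFun hy l
  obtain ⟨κ, _, B, Z, hB, hZ⟩ := common_witness h (Finset.univ.image (mulV A X)) (by
    intro x hx
    rw [Finset.mem_image] at hx
    obtain ⟨l, _, rfl⟩ := hx
    exact h1 l)
  have h2 : ∀ l, ∃ c : κ → R, ∑ k, c k • Z k = mulV A X l := by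
    intro l
    have := hZ (mulV A X l) (Finset.mem_image_of_mem _ (Finset.mem_univ _))
    exact (Submodule.mem_span_range_iff_exists_fun R).1 this
  choose C hC using h2
  have hw : Wit (fromBlocks A (-(Matrix.of C)) 0 B) (Sum.elim X Z) := by
    refine ⟨Full.fromBlocks_upper h hA hB.1 _, ?_⟩
    rw [mulV_fromBlocks]
    rintro (l | l)
    · have : mulV (Matrix.of C) Z l = mulV A X l := hC l
      rw [Sum.elim_inl, mulV_neg', Pi.neg_apply, this, add_neg_cancel]
      exact Submodule.zero_mem _
    · simpa [mulV_zero'] using hB.2 l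
  funext i
  rw [← hX i, Pi.zero_apply, Submodule.Quotient.mk_eq_zero, mem_Wsub]
  exact ⟨_, _, _, _, hw, Submodule.subset_span ⟨Sum.inl i, rfl⟩⟩

/-- the distinguished vector -/
noncomputable def v0 (h : Syl R) : VM h := Submodule.Quotient.mk (bv none)

/-- solving `A y = b v0` -/
theorem solve_none [Nontrivial R] (h : Syl R) {ι : Type} [Fintype ι] (A : Matrix ι ι R)
    (hA : Full A) (b : ι → R) : ∃ y : ι → VM h, mulV A y = fun i => b i • v0 h := by
  classical
  let e := Fintype.equivFin ι
  let g : Gen R := ⟨Fintype.card ι, A.submatrix e.symm e.symm, Full.of_equiv e hA, b ∘ e.symm⟩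
  refine ⟨fun i => Submodule.Quotient.mk (bv (some ⟨g, e i⟩)), ?_⟩
  funext i
  have h1 : rel (⟨g, e i⟩ : Idx R) ∈ Wsub h := N0_le h (Submodule.subset_span ⟨_, rfl⟩)
  rw [← Submodule.Quotient.mk_eq_zero, rel, Submodule.Quotient.mk_sub, sub_eq_zero,
    ← Submodule.mkQ_apply, ← Submodule.mkQ_apply, map_sum] at h1
  simp only [map_smul] at h1
  have h2 : mulV A (fun i => (Submodule.Quotient.mk (bv (some ⟨g, e i⟩)) : VM h)) i =
      ∑ x : Fin g.n, g.A (e i) x • (Wsub h).mkQ (bv (some ⟨g, x⟩)) := by
    rw [mulV_apply]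
    refine Fintype.sum_equiv e _ _ ?_
    intro j
    simp [g]
  rw [h2, h1]
  simp [g, v0]

/-- `e` is the solution of a system `A e = β v0` with `A` full -/
def Sys (h : Syl R) {ι : Type} [Fintype ι] (e : ι → VM h) : Prop :=
  ∃ (A : Matrix ι ι R) (β : ι → R), Full A ∧ mulV A e = fun i => β i • v0 h

theorem Sys.sum (h : Syl R) {ι κ : Type} [Fintype ι] [Fintype κ] {e : ι → VM h} {f : κ → VM h}
    (he : Sys h e) (hf : Sys h f) : Sys h (Sum.elim e f) := by
  obtain ⟨A, β, hA, h1⟩ := he
  obtain ⟨B, γ, hB, h2⟩ := hf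
  refine ⟨fromBlocks A 0 0 B, Sum.elim β γ, Full.fromBlocks_upper h hA hB 0, ?_⟩
  rw [mulV_fromBlocks]
  funext l
  rcases l with l | l
  · simp [mulV_zero', h1]
  · simp [mulV_zero', h2]

/-- span of `v0` and a system -/
noncomputable def Sp (h : Syl R) {ι : Type} (e : ι → VM h) : Submodule R (VM h) :=
  Submodule.span R {v0 h} ⊔ Submodule.span R (Set.range e)

theorem Sp_left (h : Syl R) {ι κ : Type} (e : ι → VM h) (f : κ → VM h) :
    Sp h e ≤ Sp h (Sum.elim e f) := sup_le_sup_left (span_left e f) _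

theorem Sp_right (h : Syl R) {ι κ : Type} (e : ι → VM h) (f : κ → VM h) :
    Sp h f ≤ Sp h (Sum.elim e f) := sup_le_sup_left (span_right e f) _

theorem exists_sys [Nontrivial R] (h : Syl R) (v : VM h) :
    ∃ (ι : Type) (_ : Fintype ι) (e : ι → VM h), Sys h e ∧ v ∈ Sp h e := by
  classical
  obtain ⟨f, rfl⟩ := Submodule.Quotient.mk_surjective (Wsub h) v
  induction f using Finsupp.induction_linear with
  | zero =>
    refine ⟨Empty, inferInstance, fun x => x.elim, ⟨0, fun x => x.elim, full_empty _, ?_⟩, ?_⟩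
    · funext x
      exact x.elim
    · exact Submodule.zero_mem _
  | add f g hf hg =>
    obtain ⟨ι, _, e, he, h1⟩ := hf
    obtain ⟨κ, _, e', he', h2⟩ := hg
    refine ⟨ι ⊕ κ, inferInstance, _, he.sum h he', ?_⟩
    rw [Submodule.Quotient.mk_add]
    exact Submodule.add_mem _ (Sp_left h e e' h1) (Sp_right h e e' h2)
  | single x r =>
    rcases x with _ | ⟨g, j⟩
    · refine ⟨Empty, inferInstance, fun x => x.elim, ⟨0, fun x => x.elim, full_empty _, ?_⟩, ?_⟩
      · funext x
        exact x.elim
      · have : (Submodule.Quotient.mk (Finsupp.single none r) : VM h) = r • v0 h := by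
          rw [v0, ← Submodule.Quotient.mk_smul, bv, Finsupp.smul_single, smul_eq_mul, mul_one]
        rw [this]
        exact Submodule.smul_mem _ _ (Submodule.mem_sup_left (Submodule.subset_span rfl))
    · refine ⟨Fin g.n, inferInstance, fun i => Submodule.Quotient.mk (bv (some ⟨g, i⟩)),
        ⟨g.A, g.b, g.full, ?_⟩, ?_⟩
      · funext i
        have h1 : rel (⟨g, i⟩ : Idx R) ∈ Wsub h := N0_le h (Submodule.subset_span ⟨_, rfl⟩)
        rw [← Submodule.Quotient.mk_eq_zero, rel, Submodule.Quotient.mk_sub, sub_eq_zero,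
          ← Submodule.mkQ_apply, ← Submodule.mkQ_apply, map_sum] at h1
        simp only [map_smul] at h1
        exact h1
      · have : (Submodule.Quotient.mk (Finsupp.single (some ⟨g, j⟩) r) : VM h) =
            r • Submodule.Quotient.mk (bv (some ⟨g, j⟩)) := by
          rw [← Submodule.Quotient.mk_smul, bv, Finsupp.smul_single, smul_eq_mul, mul_one]
        rw [this]
        exact Submodule.smul_mem _ _ (Submodule.mem_sup_right (Submodule.subset_span ⟨j, rfl⟩))

theorem exists_sys_finset [Nontrivial R] (h : Syl R) (s : Finset (VM h)) :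
    ∃ (ι : Type) (_ : Fintype ι) (e : ι → VM h), Sys h e ∧ ∀ v ∈ s, v ∈ Sp h e := by
  classical
  induction s using Finset.induction_on with
  | empty =>
    refine ⟨Empty, inferInstance, fun x => x.elim, ⟨0, fun x => x.elim, full_empty _, ?_⟩, ?_⟩
    · funext x
      exact x.elim
    · simp
  | insert a s _ ih =>
    obtain ⟨ι, _, e, he, h1⟩ := ih
    obtain ⟨κ, _, f, hf, h2⟩ := exists_sys h a
    refine ⟨κ ⊕ ι, inferInstance, _, hf.sum h he, ?_⟩
    intro v hv
    rw [Finset.mem_insert] at hv
    rcases hv with rfl | hv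
    · exact Sp_left h f e h2
    · exact Sp_right h f e (h1 v hv)

/-- divisibility -/
theorem div [Nontrivial R] (h : Syl R) {ι : Type} [Fintype ι] (A : Matrix ι ι R) (hA : Full A)
    (b : ι → VM h) : ∃ y : ι → VM h, mulV A y = b := by
  classical
  obtain ⟨κ, _, e, ⟨A', β, hA', he⟩, hb⟩ := exists_sys_finset h (Finset.univ.image b)
  have h1 : ∀ i, ∃ (u : κ → R) (c : R), b i = ∑ k, u k • e k + c • v0 h := by
    intro i
    have := hb (b i) (Finset.mem_image_of_mem _ (Finset.mem_univ _))
    rw [Sp, Submodule.mem_sup] at this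
    obtain ⟨y, hy, z, hz, hyz⟩ := this
    rw [Submodule.mem_span_singleton] at hy
    obtain ⟨c, rfl⟩ := hy
    obtain ⟨u, rfl⟩ := (Submodule.mem_span_range_iff_exists_fun R).1 hz
    exact ⟨u, c, by rw [← hyz, add_comm]⟩
  choose U c hUc using h1
  obtain ⟨z, hz⟩ := solve_none h (fromBlocks A (-(Matrix.of U)) 0 A')
    (Full.fromBlocks_upper h hA hA' _) (Sum.elim c β)
  have hz' : z = Sum.elim (z ∘ Sum.inl) (z ∘ Sum.inr) := by
    funext x
    rcases x with x | x <;> rfl
  rw [hz', mulV_fromBlocks] at hz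
  have h2 : z ∘ Sum.inr = e := by
    rw [← sub_eq_zero]
    apply tf h A' hA'
    rw [mulV_sub, he, sub_eq_zero]
    funext l
    have := congrFun hz (Sum.inr l)
    simpa [mulV_zero'] using this
  refine ⟨z ∘ Sum.inl, ?_⟩
  funext i
  have h3 := congrFun hz (Sum.inl i)
  simp only [Sum.elim_inl, h2, mulV_neg', Pi.neg_apply] at h3
  have h4 : mulV (Matrix.of U) e i = ∑ k, U i k • e k := rfl
  rw [h4] at h3
  rw [hUc i, ← h3]
  abel

/-! ### The module is nonzero -/

theorem rel_some (g : Gen R) (i j : Fin g.n) : rel (⟨g, i⟩ : Idx R) (some ⟨g, j⟩) = g.A i j := by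
  classical
  simp only [rel, bv, Finsupp.coe_sub, Pi.sub_apply, Finsupp.finsetSum_apply, Finsupp.smul_apply,
    smul_eq_mul, Finsupp.single_apply]
  rw [Finset.sum_eq_single j]
  · simp
  · intro k _ hk
    have : (some (⟨g, k⟩ : Idx R)) ≠ some ⟨g, j⟩ := by
      intro hh
      apply hk
      have h2 := Option.some.inj hh
      simpa using h2
    simp [this]
  · simp

theorem rel_some_ne (x y : Idx R) (hxy : x.1 ≠ y.1) : rel x (some y) = 0 := by
  classical
  simp only [rel, bv, Finsupp.coe_sub, Pi.sub_apply, Finsupp.finsetSum_apply, Finsupp.smul_apply,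
    smul_eq_mul, Finsupp.single_apply]
  rw [Finset.sum_eq_zero]
  · simp
  · intro k _
    have : (some (⟨x.1, k⟩ : Idx R)) ≠ some y := by
      intro hh
      have h2 := Option.some.inj hh
      exact hxy (by rw [← h2])
    simp [this]

theorem rel_none (x : Idx R) : rel x none = - x.1.b x.2 := by
  classical
  simp [rel, bv]

theorem v0_ne [Nontrivial R] (h : Syl R) : v0 h ≠ 0 := by
  classical
  intro h0
  rw [v0, Submodule.Quotient.mk_eq_zero, mem_Wsub] at h0
  obtain ⟨ι, _, B, X, ⟨hBf, hBX⟩, hx⟩ := h0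
  obtain ⟨c, hc⟩ := (Submodule.mem_span_range_iff_exists_fun R).1 hx
  choose d hd using fun l => (Finsupp.mem_span_range_iff_exists_finsupp).1 (hBX l)
  let S : Finset (Gen R) := (Finset.univ.biUnion fun l => (d l).support.image Sigma.fst) ∪
    (Finset.univ.biUnion fun i => (Finset.eraseNone (X i).support).image Sigma.fst)
  let J : Type := Σ g : {g // g ∈ S}, Fin g.1.n
  let ψ : J → Idx R := fun x => ⟨x.1.1, x.2⟩
  have hψ : Function.Injective ψ := by
    rintro ⟨⟨g, hg⟩, i⟩ ⟨⟨g', hg'⟩, i'⟩ hh
    simp only [ψ, Sigma.mk.injEq] at hh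
    obtain ⟨rfl, hh⟩ := hh
    simp at hh
    simp [hh]
  have hψS : ∀ x : Idx R, x.1 ∈ S → ∃ y : J, ψ y = x := by
    rintro ⟨g, i⟩ hg
    exact ⟨⟨⟨g, hg⟩, i⟩, rfl⟩
  have key : ∀ (f : Idx R →₀ R), (∀ x ∈ f.support, x.1 ∈ S) → ∀ t : Idx R → R,
      (f.sum fun x r => r * t x) = ∑ x : J, f (ψ x) * t (ψ x) := by
    intro f hf t
    rw [Finsupp.sum_of_support_subset f (s := Finset.univ.map ⟨ψ, hψ⟩)]
    · rw [Finset.sum_map]
      rfl
    · intro x hx
      obtain ⟨y, rfl⟩ := hψS x (hf x hx)
      simp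
    · simp
  have hdS : ∀ l, ∀ x ∈ (d l).support, x.1 ∈ S := by
    intro l x hx
    apply Finset.mem_union_left
    rw [Finset.mem_biUnion]
    exact ⟨l, Finset.mem_univ _, Finset.mem_image_of_mem _ hx⟩
  let AS : Matrix J J R := Matrix.blockDiagonal' (fun g : {g // g ∈ S} => g.1.A)
  have hAS : Full AS := full_blockDiagonal' h _ _ _ (fun g => g.1.full)
  have hrel : ∀ x y : J, rel (ψ x) (some (ψ y)) = AS x y := by
    rintro ⟨g, i⟩ ⟨g', i'⟩
    by_cases hg : g = g'
    · subst hg
      rw [rel_some]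
      simp [AS, Matrix.blockDiagonal'_apply_eq]
    · rw [rel_some_ne _ _ (fun hh => hg (Subtype.ext hh))]
      exact (Matrix.blockDiagonal'_apply_ne _ _ _ hg).symm
  let β : Matrix J Unit R := fun x _ => x.1.1.b x.2
  let U : Matrix ι J R := fun i x => X i (some (ψ x))
  let C : Matrix ι Unit R := fun i _ => X i none
  let G : Matrix ι J R := fun l x => d l (ψ x)
  let c' : Matrix Unit ι R := fun _ i => c i
  have h1 : B * U = G * AS := by
    ext l y
    have := congrArg (fun f : FM R => f (some (ψ y))) (hd l)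
    simp only [mulV_apply, Finsupp.finsetSum_apply, Finsupp.smul_apply, smul_eq_mul] at this
    rw [Matrix.mul_apply, Matrix.mul_apply]
    change ∑ i, B l i * X i (some (ψ y)) = ∑ x, d l (ψ x) * AS x y
    rw [← this, Finsupp.sum_apply]
    simp only [Finsupp.smul_apply, smul_eq_mul]
    rw [key (d l) (hdS l) (fun x => rel x (some (ψ y)))]
    simp only [hrel]
  have h2 : B * C = - (G * β) := by
    ext l y
    have := congrArg (fun f : FM R => f none) (hd l)
    simp only [mulV_apply, Finsupp.finsetSum_apply, Finsupp.smul_apply, smul_eq_mul] at this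
    rw [Matrix.neg_apply, Matrix.mul_apply, Matrix.mul_apply]
    change ∑ i, B l i * X i none = - ∑ x, d l (ψ x) * β x ()
    rw [← this, Finsupp.sum_apply]
    simp only [Finsupp.smul_apply, smul_eq_mul]
    rw [key (d l) (hdS l) (fun x => rel x none)]
    simp only [rel_none, mul_neg, Finset.sum_neg_distrib]
    rfl
  have h3 : c' * U = 0 := by
    ext l y
    have := congrArg (fun f : FM R => f (some (ψ y))) hc
    simp only [Finsupp.finsetSum_apply, Finsupp.smul_apply, smul_eq_mul, bv] at this
    rw [Matrix.mul_apply]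
    simpa [c', U] using this
  have h4 : c' * C = 1 := by
    ext l y
    have := congrArg (fun f : FM R => f none) hc
    simp only [Finsupp.finsetSum_apply, Finsupp.smul_apply, smul_eq_mul, bv] at this
    rw [Matrix.mul_apply]
    simpa [c', C] using this
  let M1 : Matrix ι (ι ⊕ J) R := Matrix.fromCols B (-G)
  let M2 : Matrix (ι ⊕ J) (J ⊕ Unit) R := fromBlocks U C AS (-β)
  have hM : M1 * M2 = 0 := by
    simp only [M1, M2]
    rw [Matrix.fromCols_mul_fromBlocks, h1, h2]
    ext l y
    rcases y with y | y <;> simp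
  obtain ⟨a, b, hab, hFa, hFb⟩ := h.general M1 M2 hM
  have ha : Fintype.card ι ≤ a := by
    apply hBf a
    have := Fac.submatrix hFa (id : ι → ι) (Sum.inl : ι → ι ⊕ J)
    convert this
    ext i j
    rfl
  have hb : Fintype.card J + 1 ≤ b := by
    have hF : Full (fromBlocks AS (-β) 0 1 : Matrix (J ⊕ Unit) (J ⊕ Unit) R) :=
      Full.fromBlocks_upper h hAS full_one_unit _
    have h5 := hF b ?_
    · simpa using h5
    · have h6 := Fac.mul_left hFb (fromBlocks c' 0 0 1 : Matrix (Unit ⊕ J) (ι ⊕ J) R)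
      have h7 := Fac.submatrix h6 (Sum.swap : J ⊕ Unit → Unit ⊕ J) id
      convert h7 using 1
      simp only [M2]
      rw [Matrix.fromBlocks_multiply, h3, h4]
      ext x y
      rcases x with x | x <;> rcases y with y | y <;> simp
  rw [Fintype.card_sum] at hab
  omega

end ModV

/-- a nonzero module on which all full matrices act bijectively -/
theorem exists_module {R : Type} [Ring R] [Nontrivial R] (h : Syl R) :
    ∃ (V : Type) (_ : AddCommGroup V) (_ : Module R V), Nontrivial V ∧
      ∀ (n : ℕ) (A : Matrix (Fin n) (Fin n) R), Full A →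
        Function.Bijective (fun (y : Fin n → V) (i : Fin n) => ∑ j, A i j • y j) := by
  refine ⟨ModV.VM h, inferInstance, inferInstance, ⟨ModV.v0 h, 0, ModV.v0_ne h⟩, ?_⟩
  intro n A hA
  constructor
  · intro x y hxy
    rw [← sub_eq_zero]
    apply ModV.tf h A hA
    rw [ModV.mulV_sub, sub_eq_zero]
    exact hxy
  · intro b
    exact ModV.div h A hA b

end Pool.Agent.FGDiv
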