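import Pool.Agent.MP_e77664_al.Defs

/-!
# The skew free ring attached to `SFData`
-/

set_option autoImplicit false

namespace Pool.Agent.FGDiv

open Matrix

namespace SFData

variable {κ I : Type} [DivisionRing κ] (d : SFData κ I)

theorem α_zero (i : I) : d.α 0 i = 0 := by
  have h := d.α_add 0 0 i
  rw [add_zero] at h
  exact left_eq_add.1 h

theorem β_zero (i : I) : d.β 0 i = 0 := by
  have h := d.β_add 0 0 i
  rw [add_zero] at h
  exact left_eq_add.1 h

theorem β_one (i : I) : d.β 1 i = 0 := by
  have h := d.β_mul 1 1 i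
  rw [mul_one, d.α_one, Finsupp.sum_single_index (by simp), one_mul, mul_one] at h
  exact left_eq_add.1 h

/-- The operator of left multiplication by `Y i`. -/
noncomputable def yh (i : I) : (List I →₀ κ) →+ (List I →₀ κ) :=
  Finsupp.liftAddHom fun w =>
    { toFun := fun c => Finsupp.mapDomain (fun j => j :: w) (d.α c i) + Finsupp.single w (d.β c i)
      map_zero' := by rw [d.α_zero, d.β_zero]; simp
      map_add' := fun c c' => by
        rw [d.α_add, d.β_add, Finsupp.mapDomain_add, Finsupp.single_add]; abel }

theorem yh_single (i : I) (w : List I) (c : κ) : d.yh i (Finsupp.single w c) =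
    Finsupp.mapDomain (fun j => j :: w) (d.α c i) + Finsupp.single w (d.β c i) := by
  unfold yh
  rw [Finsupp.liftAddHom_apply_single]
  rfl

/-- Key identity. -/
theorem yh_smul (i : I) (c : κ) (u : List I →₀ κ) :
    d.yh i (c • u) = ((d.α c i).sum fun j a => a • d.yh j u) + d.β c i • u := by
  induction u using Finsupp.induction_linear with
  | zero => simp
  | add u v hu hv =>
    rw [smul_add, map_add, hu, hv, smul_add]
    have : ((d.α c i).sum fun j a => a • d.yh j (u + v)) =
        ((d.α c i).sum fun j a => a • d.yh j u) + ((d.α c i).sum fun j a => a • d.yh j v) := by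
      rw [← Finsupp.sum_add]
      apply Finsupp.sum_congr
      intro j _
      rw [map_add, smul_add]
    rw [this]; abel
  | single w e =>
    rw [Finsupp.smul_single, smul_eq_mul, yh_single, d.α_mul, d.β_mul]
    have h1 : ((d.α c i).sum fun j a => a • d.yh j (Finsupp.single w e)) =
        ((d.α c i).sum fun j a => Finsupp.mapDomain (fun j => j :: w) (a • d.α e j)) +
        ((d.α c i).sum fun j a => Finsupp.single w (a * d.β e j)) := by
      rw [← Finsupp.sum_add]
      apply Finsupp.sum_congr
      intro j _
      rw [yh_single, smul_add, Finsupp.mapDomain_smul, Finsupp.smul_single, smul_eq_mul]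
    rw [h1]
    have h2 : Finsupp.mapDomain (fun j => j :: w) ((d.α c i).sum fun j a => a • d.α e j) =
        ((d.α c i).sum fun j a => Finsupp.mapDomain (fun j => j :: w) (a • d.α e j)) := by
      unfold Finsupp.sum
      rw [Finsupp.mapDomain_finsetSum]
    have h3 : (Finsupp.single w (((d.α c i).sum fun j a => a * d.β e j) + d.β c i * e) :
        List I →₀ κ) = ((d.α c i).sum fun j a => Finsupp.single w (a * d.β e j)) +
        Finsupp.single w (d.β c i * e) := by
      rw [Finsupp.single_add]
      unfold Finsupp.sum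
      rw [Finsupp.single_finsetSum]
    rw [h2, h3, Finsupp.smul_single, smul_eq_mul]
    abel

/-- pointwise formulas -/
theorem yh_nil (i : I) (x : List I →₀ κ) : d.yh i x [] = d.β (x []) i := by
  classical
  induction x using Finsupp.induction_linear with
  | zero => simp [d.β_zero]
  | add u v hu hv => rw [map_add, Finsupp.add_apply, hu, hv, Finsupp.add_apply, d.β_add]
  | single w e =>
    rw [yh_single, Finsupp.add_apply, Finsupp.mapDomain_of_notMem_range, zero_add,
      Finsupp.single_apply, Finsupp.single_apply]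
    · split_ifs <;> simp [d.β_zero]
    · rintro ⟨j, hj⟩
      simp at hj

theorem yh_cons (i j : I) (v : List I) (x : List I →₀ κ) :
    d.yh i x (j :: v) = d.α (x v) i j + d.β (x (j :: v)) i := by
  classical
  induction x using Finsupp.induction_linear with
  | zero => simp [d.β_zero, d.α_zero]
  | add u v hu hv =>
    rw [map_add, Finsupp.add_apply, hu, hv, Finsupp.add_apply, Finsupp.add_apply, d.β_add, d.α_add,
      Finsupp.add_apply]
    abel
  | single w e =>
    rw [yh_single, Finsupp.add_apply]
    congr 1
    · by_cases h : w = v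
      · subst h
        rw [Finsupp.mapDomain_apply (fun a b hab => by simpa using hab), Finsupp.single_eq_same]
      · rw [Finsupp.mapDomain_of_notMem_range, Finsupp.single_apply, if_neg h, d.α_zero]
        · rfl
        · rintro ⟨k, hk⟩
          simp only [List.cons.injEq] at hk
          exact h hk.2
    · rw [Finsupp.single_apply, Finsupp.single_apply]
      split_ifs <;> simp [d.β_zero]

/-- Left multiplication by a word. -/
noncomputable def wh : List I → ((List I →₀ κ) →+ (List I →₀ κ))
  | [] => AddMonoidHom.id _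
  | i :: w => (d.yh i).comp (wh w)

theorem wh_nil (x : List I →₀ κ) : d.wh [] x = x := rfl
theorem wh_cons (i : I) (w : List I) (x : List I →₀ κ) : d.wh (i :: w) x = d.yh i (d.wh w x) := rfl

/-- The product. -/
noncomputable def mul (v x : List I →₀ κ) : List I →₀ κ := v.sum fun w c => c • d.wh w x

theorem mul_single_left (w : List I) (c : κ) (x : List I →₀ κ) :
    d.mul (Finsupp.single w c) x = c • d.wh w x := by
  unfold mul
  rw [Finsupp.sum_single_index (by simp)]

theorem mul_add_left (u v x : List I →₀ κ) : d.mul (u + v) x = d.mul u x + d.mul v x := by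
  unfold mul
  rw [Finsupp.sum_add_index' (by simp) (by intros; rw [add_smul])]

theorem mul_add_right (u x y : List I →₀ κ) : d.mul u (x + y) = d.mul u x + d.mul u y := by
  unfold mul
  rw [← Finsupp.sum_add]
  apply Finsupp.sum_congr
  intro w _
  rw [map_add, smul_add]

theorem mul_zero_left (x : List I →₀ κ) : d.mul 0 x = 0 := by
  unfold mul; simp

theorem mul_zero_right (x : List I →₀ κ) : d.mul x 0 = 0 := by
  unfold mul; simp

theorem mul_smul_left (c : κ) (u x : List I →₀ κ) : d.mul (c • u) x = c • d.mul u x := by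
  induction u using Finsupp.induction_linear with
  | zero => simp [mul_zero_left]
  | add u v hu hv => rw [smul_add, mul_add_left, mul_add_left, hu, hv, smul_add]
  | single w e =>
    rw [Finsupp.smul_single, mul_single_left, mul_single_left, smul_eq_mul, mul_smul]

theorem mul_finset_sum_left {ι : Type} (s : Finset ι) (f : ι → (List I →₀ κ)) (x : List I →₀ κ) :
    d.mul (∑ j ∈ s, f j) x = ∑ j ∈ s, d.mul (f j) x := by
  classical
  induction s using Finset.induction_on with
  | empty => simp [mul_zero_left]
  | insert a s ha ih => rw [Finset.sum_insert ha, Finset.sum_insert ha, mul_add_left, ih]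

theorem yh_mul (i : I) (x y : List I →₀ κ) : d.yh i (d.mul x y) = d.mul (d.yh i x) y := by
  induction x using Finsupp.induction_linear with
  | zero => simp [mul_zero_left]
  | add u v hu hv => rw [mul_add_left, map_add, map_add, mul_add_left, hu, hv]
  | single w c =>
    rw [mul_single_left, yh_smul, yh_single, mul_add_left, mul_single_left]
    congr 1
    unfold Finsupp.mapDomain Finsupp.sum
    rw [mul_finset_sum_left]
    apply Finset.sum_congr rfl
    intro j _
    rw [mul_single_left, wh_cons]

theorem wh_mul (w : List I) (x y : List I →₀ κ) : d.wh w (d.mul x y) = d.mul (d.wh w x) y := by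
  induction w with
  | nil => rfl
  | cons i w ih => rw [wh_cons, ih, yh_mul, wh_cons]

theorem mul_assoc' (x y z : List I →₀ κ) : d.mul (d.mul x y) z = d.mul x (d.mul y z) := by
  induction x using Finsupp.induction_linear with
  | zero => simp [mul_zero_left]
  | add u v hu hv => rw [mul_add_left, mul_add_left, mul_add_left, hu, hv]
  | single w c => rw [mul_single_left, mul_single_left, mul_smul_left, wh_mul]

theorem one_mul' (x : List I →₀ κ) : d.mul (Finsupp.single [] 1) x = x := by
  rw [mul_single_left, one_smul, wh_nil]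

theorem yh_single_one (i : I) (w : List I) :
    d.yh i (Finsupp.single w 1) = Finsupp.single (i :: w) 1 := by
  rw [yh_single, d.α_one, d.β_one, Finsupp.mapDomain_single, Finsupp.single_zero, add_zero]

theorem wh_single_one (w v : List I) :
    d.wh w (Finsupp.single v 1) = Finsupp.single (w ++ v) 1 := by
  induction w with
  | nil => rfl
  | cons i w ih => rw [wh_cons, ih, yh_single_one, List.cons_append]

theorem mul_one' (x : List I →₀ κ) : d.mul x (Finsupp.single [] 1) = x := by
  induction x using Finsupp.induction_linear with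
  | zero => simp [mul_zero_left]
  | add u v hu hv => rw [mul_add_left, hu, hv]
  | single w c =>
    rw [mul_single_left, wh_single_one, List.append_nil, Finsupp.smul_single, smul_eq_mul, mul_one]

end SFData

/-- The skew free ring. -/
def SFR {κ I : Type} [DivisionRing κ] (_ : SFData κ I) : Type := List I →₀ κ

namespace SFR

variable {κ I : Type} [DivisionRing κ] {d : SFData κ I}

noncomputable instance : AddCommGroup (SFR d) := inferInstanceAs (AddCommGroup (List I →₀ κ))

noncomputable instance : Ring (SFR d) :=
  { (inferInstance : AddCommGroup (SFR d)) with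
    mul := d.mul
    one := (Finsupp.single [] 1 : List I →₀ κ)
    left_distrib := fun x y z => d.mul_add_right x y z
    right_distrib := fun x y z => d.mul_add_left x y z
    zero_mul := fun x => d.mul_zero_left x
    mul_zero := fun x => d.mul_zero_right x
    mul_assoc := fun x y z => d.mul_assoc' x y z
    one_mul := fun x => d.one_mul' x
    mul_one := fun x => d.mul_one' x }

theorem mul_def (x y : SFR d) : x * y = d.mul x y := rfl
theorem one_def : (1 : SFR d) = (Finsupp.single [] 1 : List I →₀ κ) := rfl

end SFR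



namespace SFR

variable {κ I : Type} [DivisionRing κ] {d : SFData κ I}

/-- scalars -/
noncomputable def cc (d : SFData κ I) : κ →+* SFR d where
  toFun a := (Finsupp.single [] a : List I →₀ κ)
  map_zero' := Finsupp.single_zero _
  map_one' := rfl
  map_add' a b := Finsupp.single_add _ _ _
  map_mul' a b := by
    rw [mul_def]
    erw [d.mul_single_left]
    rw [SFData.wh_nil, Finsupp.smul_single, smul_eq_mul]

/-- words -/
noncomputable def ww (d : SFData κ I) (w : List I) : SFR d := (Finsupp.single w 1 : List I →₀ κ)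

theorem ww_nil : ww d [] = 1 := rfl

theorem single_eq (w : List I) (a : κ) :
    ((Finsupp.single w a : List I →₀ κ) : SFR d) = cc d a * ww d w := by
  rw [mul_def]
  show _ = d.mul (Finsupp.single [] a) (Finsupp.single w 1)
  rw [d.mul_single_left, SFData.wh_nil, Finsupp.smul_single, smul_eq_mul, mul_one]

theorem ww_append (v w : List I) : ww d (v ++ w) = ww d v * ww d w := by
  rw [mul_def]
  show _ = d.mul (Finsupp.single v 1) (Finsupp.single w 1)
  rw [d.mul_single_left, one_smul, d.wh_single_one]
  rfl

theorem ww_cons (i : I) (w : List I) : ww d (i :: w) = ww d [i] * ww d w := by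
  rw [← ww_append]; rfl

theorem comm_rel (a : κ) (i : I) :
    ww d [i] * cc d a = ((d.α a i).sum fun j b => cc d b * ww d [j]) + cc d (d.β a i) := by
  rw [mul_def]
  show d.mul (Finsupp.single [i] 1) (Finsupp.single [] a) = _
  rw [d.mul_single_left, one_smul, SFData.wh_cons, SFData.wh_nil, SFData.yh_single]
  have : Finsupp.mapDomain (fun j => [j]) (d.α a i) =
      ((d.α a i).sum fun j b => (Finsupp.single [j] b : List I →₀ κ)) := rfl
  rw [this]
  simp_rw [← single_eq]
  rfl

/-- induction principle -/
theorem induct {p : SFR d → Prop} (x : SFR d) (h0 : p 0) (hadd : ∀ x y, p x → p y → p (x + y))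
    (hs : ∀ w a, p (cc d a * ww d w)) : p x := by
  refine Finsupp.induction_linear (motive := fun x : List I →₀ κ => p x) x h0 hadd ?_
  intro w a
  show p _
  rw [single_eq]
  exact hs w a

section Univ

variable {S : Type} [Ring S] (f : κ →+* S) (s : I → S)

/-- product of the `s i` -/
def sw (w : List I) : S := (w.map s).prod

/-- The additive map. -/
noncomputable def phiAdd (d : SFData κ I) : SFR d →+ S :=
  (Finsupp.liftAddHom fun w : List I =>
    (AddMonoidHom.mulRight (sw s w)).comp f.toAddMonoidHom : (List I →₀ κ) →+ S)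

theorem phiAdd_single (w : List I) (a : κ) : phiAdd f s d (cc d a * ww d w) = f a * sw s w := by
  rw [← single_eq]
  unfold phiAdd
  erw [Finsupp.liftAddHom_apply_single]
  rfl

theorem phiAdd_cc (a : κ) : phiAdd f s d (cc d a) = f a := by
  have := phiAdd_single (d := d) f s [] a
  rw [ww_nil, mul_one] at this
  rw [this]; simp [sw]

theorem phiAdd_yy_mul (h : ∀ a i, s i * f a = ((d.α a i).sum fun j b => f b * s j) + f (d.β a i))
    (i : I) (x : SFR d) : phiAdd f s d (ww d [i] * x) = s i * phiAdd f s d x := by
  refine induct (p := fun x => phiAdd f s d (ww d [i] * x) = s i * phiAdd f s d x) x (by simp)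
    (fun x y hx hy => by rw [mul_add, map_add, hx, hy, map_add, mul_add]) ?_
  intro w a
  rw [← mul_assoc, comm_rel, add_mul, map_add, phiAdd_single, phiAdd_single, ← mul_assoc, h, add_mul]
  congr 1
  unfold Finsupp.sum
  rw [Finset.sum_mul, map_sum, Finset.sum_mul]
  apply Finset.sum_congr rfl
  intro j _
  rw [mul_assoc, ← ww_cons, phiAdd_single, mul_assoc]
  simp [sw]

theorem phiAdd_ww_mul (h : ∀ a i, s i * f a = ((d.α a i).sum fun j b => f b * s j) + f (d.β a i))
    (w : List I) (x : SFR d) : phiAdd f s d (ww d w * x) = sw s w * phiAdd f s d x := by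
  induction w with
  | nil => rw [ww_nil]; simp [sw]
  | cons i w ih =>
    rw [ww_cons, mul_assoc, phiAdd_yy_mul f s h, ih, ← mul_assoc]
    simp [sw]

theorem phiAdd_cc_mul (a : κ) (x : SFR d) : phiAdd f s d (cc d a * x) = f a * phiAdd f s d x := by
  refine induct (p := fun x => phiAdd f s d (cc d a * x) = f a * phiAdd f s d x) x (by simp)
    (fun x y hx hy => by rw [mul_add, map_add, hx, hy, map_add, mul_add]) ?_
  intro w b
  rw [← mul_assoc, ← map_mul, phiAdd_single, phiAdd_single, map_mul, mul_assoc]

theorem phiAdd_mul (h : ∀ a i, s i * f a = ((d.α a i).sum fun j b => f b * s j) + f (d.β a i))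
    (x y : SFR d) : phiAdd f s d (x * y) = phiAdd f s d x * phiAdd f s d y := by
  refine induct (p := fun x => phiAdd f s d (x * y) = phiAdd f s d x * phiAdd f s d y) x (by simp)
    (fun x x' hx hy => by rw [add_mul, map_add, hx, hy, map_add, add_mul]) ?_
  intro w a
  rw [mul_assoc, phiAdd_cc_mul, phiAdd_ww_mul f s h, phiAdd_single, mul_assoc]

/-- The homomorphism given by the universal property. -/
noncomputable def phi (h : ∀ a i, s i * f a = ((d.α a i).sum fun j b => f b * s j) + f (d.β a i)) :
    SFR d →+* S :=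
  { phiAdd f s d with
    map_one' := by
      have := phiAdd_cc (d := d) f s 1
      rw [map_one (cc d), map_one f] at this
      exact this
    map_mul' := phiAdd_mul f s h }

theorem phi_comp (h : ∀ a i, s i * f a = ((d.α a i).sum fun j b => f b * s j) + f (d.β a i)) :
    (phi f s h).comp (cc d) = f := by
  ext a
  exact phiAdd_cc f s a

theorem phi_yy (h : ∀ a i, s i * f a = ((d.α a i).sum fun j b => f b * s j) + f (d.β a i)) (i : I) :
    phi f s h (ww d [i]) = s i := by
  have := phiAdd_single (d := d) f s [i] 1
  rw [map_one, one_mul, map_one, one_mul] at this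
  refine this.trans ?_
  simp [sw]

theorem hom_ext (φ ψ : SFR d →+* S) (h1 : φ.comp (cc d) = ψ.comp (cc d))
    (h2 : ∀ i, φ (ww d [i]) = ψ (ww d [i])) : φ = ψ := by
  have h3 : ∀ w, φ (ww d w) = ψ (ww d w) := by
    intro w
    induction w with
    | nil => rw [ww_nil, map_one, map_one]
    | cons i w ih => rw [ww_cons, map_mul, map_mul, h2, ih]
  ext x
  refine induct (p := fun x => φ x = ψ x) x (by simp) (fun x y hx hy => by
    rw [map_add, map_add, hx, hy]) ?_
  intro w a
  rw [map_mul, map_mul, h3]
  congr 1
  exact congrArg (fun g : κ →+* S => g a) h1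

end Univ

end SFR

/-! ### Filtration by word length -/

section Fil

variable {κ I : Type} [DivisionRing κ]

/-- all words of `x` have length `< n` -/
def FilLt (n : ℕ) (x : List I →₀ κ) : Prop := ∀ w : List I, n ≤ w.length → x w = 0

theorem FilLt.zero (n : ℕ) : FilLt n (0 : List I →₀ κ) := fun _ _ => rfl

theorem FilLt.add {n : ℕ} {x y : List I →₀ κ} (hx : FilLt n x) (hy : FilLt n y) :
    FilLt n (x + y) :=
  fun w hw => by rw [Finsupp.add_apply, hx w hw, hy w hw, add_zero]

theorem FilLt.neg {n : ℕ} {x : List I →₀ κ} (hx : FilLt n x) : FilLt n (-x) :=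
  fun w hw => by rw [Finsupp.neg_apply, hx w hw, neg_zero]

theorem FilLt.sub {n : ℕ} {x y : List I →₀ κ} (hx : FilLt n x) (hy : FilLt n y) :
    FilLt n (x - y) := by
  rw [sub_eq_add_neg]; exact hx.add hy.neg

theorem FilLt.mono {n m : ℕ} (h : n ≤ m) {x : List I →₀ κ} (hx : FilLt n x) : FilLt m x :=
  fun w hw => hx w (h.trans hw)

theorem FilLt.sum {ι : Type} {n : ℕ} {t : Finset ι} {f : ι → (List I →₀ κ)}
    (h : ∀ i ∈ t, FilLt n (f i)) : FilLt n (∑ i ∈ t, f i) := by
  classical
  induction t using Finset.induction_on with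
  | empty => exact FilLt.zero n
  | insert a t ha ih =>
    rw [Finset.sum_insert ha]
    exact (h a (Finset.mem_insert_self _ _)).add
      (ih fun i hi => h i (Finset.mem_insert_of_mem hi))

theorem FilLt.eq_zero {x : List I →₀ κ} (hx : FilLt 0 x) : x = 0 :=
  Finsupp.ext fun w => hx w (Nat.zero_le _)

theorem FilLt.smul {n : ℕ} {x : List I →₀ κ} (hx : FilLt n x) (c : κ) :
    FilLt n (c • x) := fun w hw => by
  rw [Finsupp.smul_apply, hx w hw, smul_zero]

variable (d : SFData κ I)

theorem FilLt.yh {n : ℕ} {x : List I →₀ κ} (hx : FilLt n x) (i : I) :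
    FilLt (n + 1) (d.yh i x) := by
  intro w hw
  cases w with
  | nil => simp at hw
  | cons j v =>
    simp only [List.length_cons] at hw
    rw [d.yh_cons i j v x, hx v (by omega), hx (j :: v) (by simp; omega), d.α_zero, d.β_zero]
    simp

theorem FilLt.wh {n : ℕ} {x : List I →₀ κ} (hx : FilLt n x) (w : List I) :
    FilLt (n + w.length) (d.wh w x) := by
  induction w with
  | nil => exact hx
  | cons i w ih => exact ih.yh d i

theorem FilLt.mul {a b : ℕ} {x y : List I →₀ κ} (hx : FilLt (a + 1) x) (hy : FilLt b y) :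
    FilLt (a + b) (d.mul x y) := by
  unfold SFData.mul Finsupp.sum
  refine FilLt.sum ?_
  intro w hw
  have hl : w.length ≤ a := by
    by_contra hc
    push Not at hc
    exact (Finsupp.mem_support_iff.1 hw) (hx w hc)
  exact FilLt.smul ((hy.wh d w).mono (by omega)) _

/-- The right coefficient of the word `w`. -/
noncomputable def rc (w : List I) : (List I →₀ κ) →+ (List I →₀ κ) where
  toFun x := Finsupp.comapDomain (fun v => v ++ w) x
    (fun a _ b _ h => List.append_cancel_right h)
  map_zero' := by ext v; rfl
  map_add' x y := by ext v; rfl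

theorem rc_apply (w v : List I) (x : List I →₀ κ) : rc w x v = x (v ++ w) := rfl

theorem rc_smul (w : List I) (c : κ) (x : List I →₀ κ) : rc w (c • x) = c • rc w x := by
  ext v; rfl

theorem FilLt.rc {n : ℕ} {x : List I →₀ κ} (hx : FilLt n x) (w : List I) :
    FilLt (n - w.length) (rc w x) := fun v hv => by
  rw [rc_apply]
  exact hx _ (by rw [List.length_append]; omega)

theorem rc_yh (w : List I) (i : I) (x : List I →₀ κ) :
    FilLt 1 (FGDiv.rc w (d.yh i x) - d.yh i (FGDiv.rc w x)) := by
  intro v hv
  cases v with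
  | nil => simp at hv
  | cons j v =>
    rw [Finsupp.sub_apply, rc_apply, d.yh_cons, rc_apply, rc_apply, List.cons_append, d.yh_cons]
    exact sub_self _

theorem rc_wh (w u : List I) (x : List I →₀ κ) :
    FilLt u.length (FGDiv.rc w (d.wh u x) - d.wh u (FGDiv.rc w x)) := by
  induction u with
  | nil =>
    rw [SFData.wh_nil, SFData.wh_nil, sub_self]; exact FilLt.zero _
  | cons i u ih =>
    have h1 := rc_yh d w i (d.wh u x)
    have h2 := ih.yh d i
    have h3 := (h1.mono (Nat.le_add_left 1 u.length)).add h2
    rw [map_sub, sub_add_sub_cancel] at h3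
    exact h3

theorem rc_mul {N : ℕ} {a b : List I →₀ κ} (ha : FilLt (N + 1) a) (w : List I) :
    FilLt N (FGDiv.rc w (d.mul a b) - d.mul a (FGDiv.rc w b)) := by
  have h1 : FGDiv.rc w (d.mul a b) - d.mul a (FGDiv.rc w b) =
      ∑ u ∈ a.support, a u • (FGDiv.rc w (d.wh u b) - d.wh u (FGDiv.rc w b)) := by
    unfold SFData.mul Finsupp.sum
    rw [map_sum, ← Finset.sum_sub_distrib]
    apply Finset.sum_congr rfl
    intro u _
    rw [rc_smul, smul_sub]
  rw [h1]
  refine FilLt.sum ?_
  intro u hu
  have hl : u.length ≤ N := by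
    by_contra hc
    push Not at hc
    exact (Finsupp.mem_support_iff.1 hu) (ha u hc)
  exact FilLt.smul ((rc_wh d w u b).mono hl) _

/-- the degree plus one (`0` for `0`) -/
noncomputable def dg (x : List I →₀ κ) : ℕ := x.support.sup fun w => w.length + 1

theorem filLt_dg (x : List I →₀ κ) : FilLt (dg x) x := by
  intro w hw
  by_contra hc
  have := Finset.le_sup (f := fun w : List I => w.length + 1) (Finsupp.mem_support_iff.2 hc)
  unfold dg at hw
  omega

theorem exists_top {x : List I →₀ κ} (hx : x ≠ 0) : ∃ w, x w ≠ 0 ∧ dg x = w.length + 1 := by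
  have hne : x.support.Nonempty := Finsupp.support_nonempty_iff.2 hx
  obtain ⟨w, hw, h⟩ := Finset.exists_mem_eq_sup x.support hne fun w => w.length + 1
  exact ⟨w, Finsupp.mem_support_iff.1 hw, h⟩

theorem rc_top {x : List I →₀ κ} {w : List I} (h : dg x = w.length + 1) :
    FGDiv.rc w x = Finsupp.single [] (x w) := by
  ext v
  rw [rc_apply]
  cases v with
  | nil => simp
  | cons j v =>
    rw [Finsupp.single_apply, if_neg (by simp)]
    exact filLt_dg x _ (by rw [h]; simp)

end Fil



namespace SFR

variable {κ I : Type} [DivisionRing κ] {d : SFData κ I}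

/-- filtration on the skew free ring -/
def FL (n : ℕ) (x : SFR d) : Prop := @FilLt κ I _ n x

theorem FL.zero (n : ℕ) : FL n (0 : SFR d) := FilLt.zero n

theorem FL.add {n : ℕ} {x y : SFR d} (hx : FL n x) (hy : FL n y) : FL n (x + y) :=
  FilLt.add hx hy

theorem FL.neg {n : ℕ} {x : SFR d} (hx : FL n x) : FL n (-x) := FilLt.neg hx

theorem FL.sum {ι : Type} {n : ℕ} {t : Finset ι} {f : ι → SFR d} (h : ∀ i ∈ t, FL n (f i)) :
    FL n (∑ i ∈ t, f i) := FilLt.sum h

theorem FL.mono {n m : ℕ} (h : n ≤ m) {x : SFR d} (hx : FL n x) : FL m x := FilLt.mono h hx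

theorem FL.eq_zero {x : SFR d} (hx : FL 0 x) : x = 0 := FilLt.eq_zero hx

theorem FL.mul {a b : ℕ} {x y : SFR d} (hx : FL (a + 1) x) (hy : FL b y) : FL (a + b) (x * y) :=
  FilLt.mul d hx hy

theorem FL.mul_cc {n : ℕ} {x : SFR d} (hx : FL n x) (a : κ) : FL n (x * cc d a) := by
  rcases n with _ | n
  · rw [hx.eq_zero, zero_mul]; exact FL.zero 0
  · refine hx.mul ?_
    intro w hw
    show (Finsupp.single [] a : List I →₀ κ) w = 0
    rw [Finsupp.single_apply, if_neg]
    rintro rfl
    simp at hw

/-- degree plus one -/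
noncomputable def deg (x : SFR d) : ℕ := @dg κ I _ x

theorem fl_deg (x : SFR d) : FL (deg x) x := filLt_dg _

/-- right coefficient -/
noncomputable def rcf (w : List I) : SFR d →+ SFR d := (rc w : (List I →₀ κ) →+ (List I →₀ κ))

theorem FL.rcf {n : ℕ} {x : SFR d} (hx : FL n x) (w : List I) : FL (n - w.length) (rcf w x) :=
  FilLt.rc hx w

theorem rcf_mul {N : ℕ} {a b : SFR d} (ha : FL (N + 1) a) (w : List I) :
    FL N (SFR.rcf w (a * b) - a * SFR.rcf w b) := rc_mul d ha w

theorem exists_top' {x : SFR d} (hx : x ≠ 0) :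
    ∃ w : List I, ∃ β : κ, β ≠ 0 ∧ deg x = w.length + 1 ∧ SFR.rcf w x = cc d β := by
  obtain ⟨w, h1, h2⟩ := exists_top (x := (show List I →₀ κ from x)) hx
  exact ⟨w, _, h1, h2, rc_top h2⟩

/-- The weak algorithm. -/
theorem weak {m n : ℕ} (A : Matrix (Fin m) (Fin n) (SFR d)) (b : Fin n → SFR d) (hb : b ≠ 0)
    (N : Fin n → ℕ) (hN : ∀ j, 1 ≤ N j) (hA : ∀ i j, FL (N j) (A i j))
    (hAb : ∀ i, ∑ j, A i j * b j = 0) :
    ∃ (k : Fin n) (c : Fin n → SFR d), c k = 0 ∧ ∀ i, FL (N k - 1) (A i k + ∑ j, A i j * c j) := by
  classical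
  -- the indices with `b j ≠ 0`
  have hS : (Finset.univ.filter fun j => b j ≠ 0).Nonempty := by
    obtain ⟨j, hj⟩ := Function.ne_iff.1 hb
    exact ⟨j, by simpa using hj⟩
  obtain ⟨k₀, hk₀, hmax₀⟩ := Finset.exists_max_image _ (fun j => N j + deg (b j)) hS
  obtain ⟨k, hk, hmax⟩ := Finset.exists_max_image
    (Finset.univ.filter fun j => b j ≠ 0 ∧ N j + deg (b j) = N k₀ + deg (b k₀)) N
    ⟨k₀, by simpa using hk₀⟩
  simp only [Finset.mem_filter, Finset.mem_univ, true_and] at hk hk₀ hmax hmax₀
  obtain ⟨hbk, hkD⟩ := hk
  obtain ⟨w, β, hβ, hw, hrc⟩ := exists_top' hbk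
  set e : Fin n → SFR d := fun j =>
    if b j ≠ 0 ∧ N j + deg (b j) = N k₀ + deg (b k₀) then SFR.rcf w (b j) else 0 with he
  have key : ∀ i j, FL (N k - 1) (SFR.rcf w (A i j * b j) - A i j * e j) := by
    intro i j
    have hNj := hN j
    have hAij : FL (N j - 1 + 1) (A i j) := by
      rw [Nat.sub_add_cancel hNj]; exact hA i j
    by_cases h : b j ≠ 0 ∧ N j + deg (b j) = N k₀ + deg (b k₀)
    · have e1 : e j = SFR.rcf w (b j) := by rw [he]; exact if_pos h
      rw [e1]
      have h1 := rcf_mul (b := b j) hAij w
      have h2 := hmax j h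
      exact h1.mono (by omega)
    · have e1 : e j = 0 := by rw [he]; exact if_neg h
      rw [e1, mul_zero, sub_zero]
      by_cases hj : b j = 0
      · rw [hj, mul_zero, map_zero]; exact FL.zero _
      · have h2 := hmax₀ j hj
        have h3 : N j + deg (b j) ≠ N k₀ + deg (b k₀) := fun h' => h ⟨hj, h'⟩
        have h4 := (hAij.mul (fl_deg (b j))).rcf w
        have hNk := hN k
        exact h4.mono (by omega)
  have hsum : ∀ i, FL (N k - 1) (∑ j, A i j * e j) := by
    intro i
    have h1 : FL (N k - 1) (∑ j, (SFR.rcf w (A i j * b j) - A i j * e j)) :=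
      FL.sum fun j _ => key i j
    rw [Finset.sum_sub_distrib, ← map_sum, hAb i, map_zero, zero_sub] at h1
    have := h1.neg
    rwa [neg_neg] at this
  have hek : e k = cc d β := by
    rw [he]
    show (if _ then _ else _) = _
    rw [if_pos ⟨hbk, hkD⟩, hrc]
  refine ⟨k, fun j => if j = k then 0 else e j * cc d β⁻¹, if_pos rfl, fun i => ?_⟩
  have h2 : A i k + ∑ j, A i j * (if j = k then 0 else e j * cc d β⁻¹) =
      (∑ j, A i j * e j) * cc d β⁻¹ := by
    rw [Finset.sum_mul]
    rw [← Finset.add_sum_erase _ _ (Finset.mem_univ k), ← Finset.add_sum_erase _ _ (Finset.mem_univ k)]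
    rw [if_pos rfl, mul_zero, zero_add, hek, mul_assoc, ← map_mul, mul_inv_cancel₀ hβ, map_one,
      mul_one]
    congr 1
    apply Finset.sum_congr rfl
    intro j hj
    rw [if_neg (Finset.ne_of_mem_erase hj), mul_assoc]
  rw [h2]
  exact (hsum i).mul_cc _

end SFR

section Del

variable {R : Type} [Ring R]

theorem fac_insert_col {m n a : ℕ} (A : Matrix (Fin m) (Fin (n + 1)) R) (j : Fin (n + 1))
    (hj : ∀ i, A i j = 0) (h : Fac (A.submatrix id j.succAbove) a) : Fac A a := by
  obtain ⟨P, Q, h⟩ := h
  refine ⟨P, Matrix.of fun r => j.insertNth (α := fun _ => R) 0 (Q r), ?_⟩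
  ext i t
  rw [Matrix.mul_apply]
  rcases Fin.eq_self_or_eq_succAbove j t with rfl | ⟨t', rfl⟩
  · rw [hj]
    simp
  · have := congrFun (congrFun h i) t'
    rw [Matrix.submatrix_apply, Matrix.mul_apply] at this
    simpa using this

theorem fac_insert_row {n p b : ℕ} (B : Matrix (Fin (n + 1)) (Fin p) R) (j : Fin (n + 1))
    (h : Fac (B.submatrix j.succAbove id) b) : Fac B (b + 1) := by
  obtain ⟨P, Q, h⟩ := h
  refine ⟨Matrix.of (j.insertNth (α := fun _ => Fin (b + 1) → R)
      (Fin.snoc (α := fun _ => R) (fun _ => 0) 1)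
      (fun t => Fin.snoc (α := fun _ => R) (P t) 0)),
    Matrix.of (Fin.snoc (α := fun _ => Fin p → R) Q (B j)), ?_⟩
  ext t l
  rw [Matrix.mul_apply, Fin.sum_univ_castSucc]
  rcases Fin.eq_self_or_eq_succAbove j t with rfl | ⟨t', rfl⟩
  · simp
  · have := congrFun (congrFun h t') l
    rw [Matrix.submatrix_apply, Matrix.mul_apply] at this
    simpa using this

end Del

namespace SFR

variable {κ I : Type} [DivisionRing κ] {d : SFData κ I}

theorem syl_aux : ∀ (n s m p : ℕ) (A : Matrix (Fin m) (Fin n) (SFR d))
    (B : Matrix (Fin n) (Fin p) (SFR d)) (N : Fin n → ℕ), (∀ i j, FL (N j) (A i j)) →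
    ∑ j, N j ≤ s → A * B = 0 → ∃ a b : ℕ, a + b = n ∧ Fac A a ∧ Fac B b := by
  classical
  intro n
  induction n with
  | zero =>
    intro s m p A B N _ _ _
    refine ⟨0, 0, rfl, ⟨Matrix.of fun _ j => j.elim0, Matrix.of fun i => i.elim0, ?_⟩,
      ⟨Matrix.of fun i => i.elim0, Matrix.of fun i => i.elim0, ?_⟩⟩
    · ext i j; exact j.elim0
    · ext i j; exact i.elim0
  | succ n ihn =>
    intro s
    induction s with
    | zero =>
      intro m p A B N hA hs hAB
      have hN : ∀ j, N j = 0 := by
        intro j
        have : ∑ j, N j = 0 := by omega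
        exact (Finset.sum_eq_zero_iff.1 this) j (Finset.mem_univ _)
      have hA0 : A = 0 := by
        ext i j
        have := hA i j
        rw [hN j] at this
        exact this.eq_zero
      refine ⟨0, n + 1, by omega, ?_, ⟨1, B, by simp⟩⟩
      rw [hA0]
      exact ⟨0, 0, by simp⟩
    | succ s ihs =>
      intro m p A B N hA hs hAB
      by_cases hB : B = 0
      · refine ⟨n + 1, 0, rfl, ⟨A, 1, by simp⟩, ?_⟩
        rw [hB]
        exact ⟨0, 0, by simp⟩
      by_cases hz : ∃ j, N j = 0
      · obtain ⟨j, hj⟩ := hz
        have hj0 : ∀ i, A i j = 0 := fun i => by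
          have := hA i j
          rw [hj] at this
          exact this.eq_zero
        have h1 : A.submatrix id j.succAbove * B.submatrix j.succAbove id = 0 := by
          ext i l
          have := congrFun (congrFun hAB i) l
          rw [Matrix.mul_apply, Fin.sum_univ_succAbove _ j, hj0, zero_mul, zero_add] at this
          rw [Matrix.mul_apply]
          exact this
        obtain ⟨a, b, hab, h2, h3⟩ := ihn (∑ t, N (j.succAbove t)) m p _ _
          (fun t => N (j.succAbove t)) (fun i t => hA i (j.succAbove t)) le_rfl h1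
        exact ⟨a, b + 1, by omega, fac_insert_col A j hj0 h2, fac_insert_row B j h3⟩
      · push Not at hz
        have hN : ∀ j, 1 ≤ N j := fun j => Nat.one_le_iff_ne_zero.2 (hz j)
        obtain ⟨l, hl⟩ : ∃ l, (fun j => B j l) ≠ 0 := by
          by_contra hc
          push Not at hc
          exact hB (by ext j l; exact congrFun (hc l) j)
        obtain ⟨k, c, hck, hc⟩ := weak A (fun j => B j l) hl N hN hA (fun i => by
          have := congrFun (congrFun hAB i) l
          rw [Matrix.mul_apply] at this
          exact this)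
        set C : Matrix (Fin (n + 1)) (Fin (n + 1)) (SFR d) :=
          Matrix.of fun j l => if l = k then c j else 0 with hC
        have hCC : C * C = 0 := by
          ext i j
          rw [Matrix.mul_apply]
          apply Finset.sum_eq_zero
          intro t _
          rw [hC]
          simp only [Matrix.of_apply]
          by_cases ht : t = k
          · subst ht
            split_ifs <;> simp [hck]
          · rw [if_neg ht, zero_mul]
        have hE1 : (1 + C) * (1 - C) = 1 := by
          rw [mul_sub, add_mul, add_mul, hCC]; simp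
        have hE2 : (1 - C) * (1 + C) = 1 := by
          rw [mul_add, sub_mul, sub_mul, hCC]; simp
        have hAC : ∀ i t, (A * (1 + C) : Matrix (Fin m) (Fin (n + 1)) (SFR d)) i t = if t = k then A i k + ∑ j, A i j * c j else A i t := by
          intro i t
          rw [Matrix.mul_add, Matrix.mul_one, Matrix.add_apply, Matrix.mul_apply]
          split_ifs with ht
          · subst ht
            congr 1
            apply Finset.sum_congr rfl
            intro j _
            rw [hC]; simp
          · rw [Finset.sum_eq_zero, add_zero]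
            intro j _
            rw [hC]; simp [ht]
        obtain ⟨a, b, hab, h2, h3⟩ := ihs m p (A * (1 + C)) ((1 - C) * B)
          (Function.update N k (N k - 1)) (by
            intro i t
            rw [hAC]
            by_cases ht : t = k
            · subst ht
              rw [if_pos rfl, Function.update_self]; exact hc i
            · rw [if_neg ht, Function.update_of_ne ht]; exact hA i t) (by
            have h4 := Finset.sum_update_of_mem (Finset.mem_univ k) N (N k - 1)
            rw [h4]
            have h5 := Finset.add_sum_erase Finset.univ N (Finset.mem_univ k)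
            have h6 := hN k
            rw [← Finset.erase_eq]
            omega) (by
            rw [Matrix.mul_assoc, ← Matrix.mul_assoc (1 + C), hE1, Matrix.one_mul, hAB])
        refine ⟨a, b, hab, ?_, ?_⟩
        · obtain ⟨P, Q, h⟩ := h2
          refine ⟨P, Q * (1 - C), ?_⟩
          rw [← Matrix.mul_assoc, ← h, Matrix.mul_assoc, hE1, Matrix.mul_one]
        · obtain ⟨P, Q, h⟩ := h3
          refine ⟨(1 + C) * P, Q, ?_⟩
          rw [Matrix.mul_assoc, ← h, ← Matrix.mul_assoc, hE1, Matrix.one_mul]

theorem syl : Syl (SFR d) := by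
  intro m n p A B hAB
  refine syl_aux n _ m p A B (fun j => Finset.univ.sup fun i => deg (A i j)) (fun i j => ?_)
    le_rfl hAB
  exact (fl_deg _).mono (Finset.le_sup (f := fun i => deg (A i j)) (Finset.mem_univ i))

instance : Nontrivial (SFR d) := by
  refine ⟨1, 0, ?_⟩
  intro h
  have : (Finsupp.single [] 1 : List I →₀ κ) = 0 := h
  rw [Finsupp.single_eq_zero] at this
  exact one_ne_zero this

end SFR

theorem exists_SF (κ I : Type) [DivisionRing κ] (d : SFData κ I) :
    ∃ (B : Type) (_ : Ring B) (c : κ →+* B) (Y : I → B), Nontrivial B ∧ Syl B ∧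
      (∀ a i, Y i * c a = ((d.α a i).sum fun j b => c b * Y j) + c (d.β a i)) ∧
      (∀ (S : Type) [Ring S] (f : κ →+* S) (s : I → S),
        (∀ a i, s i * f a = ((d.α a i).sum fun j b => f b * s j) + f (d.β a i)) →
        ∃ φ : B →+* S, φ.comp c = f ∧ ∀ i, φ (Y i) = s i) ∧
      (∀ (S : Type) [Ring S] (φ ψ : B →+* S), φ.comp c = ψ.comp c → (∀ i, φ (Y i) = ψ (Y i)) →
        φ = ψ) :=
  ⟨SFR d, inferInstance, SFR.cc d, fun i => SFR.ww d [i], inferInstance, SFR.syl,
    SFR.comm_rel, fun _ _ f s h => ⟨SFR.phi f s h, SFR.phi_comp f s h, SFR.phi_yy f s h⟩,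
    fun _ _ φ ψ h1 h2 => SFR.hom_ext φ ψ h1 h2⟩

end Pool.Agent.FGDiv
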