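import Pool.Agent.MP_e77664_al.SF
import Pool.Agent.MP_e77664_al.ModV
import Pool.Agent.MP_e77664_al.DivR

/-! # The tower of division rings -/

set_option autoImplicit false

namespace Pool.Agent.FGDiv

open Matrix

theorem exists_UF {R : Type} [Ring R] [Nontrivial R] (h : Syl R) :
    ∃ (D : Type) (_ : DivisionRing D) (i : R →+* D), IsUF i := by
  obtain ⟨V, i1, i2, i3, hV⟩ := exists_module h
  exact exists_UF_of_module h V hV

/-! ### Dual numbers -/

section Dual

variable {K : Type} [DivisionRing K]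

/-- first component of a dual number as a ring homomorphism -/
def fstR (K : Type) [DivisionRing K] : TrivSqZeroExt K K →+* K where
  toFun := TrivSqZeroExt.fst
  map_one' := TrivSqZeroExt.fst_one
  map_mul' := TrivSqZeroExt.fst_mul
  map_zero' := TrivSqZeroExt.fst_zero
  map_add' := TrivSqZeroExt.fst_add

theorem map_snd_mul {m n p : Type} [Fintype n] (A : Matrix m n (TrivSqZeroExt K K))
    (B : Matrix n p (TrivSqZeroExt K K)) :
    (A * B).map TrivSqZeroExt.snd = A.map TrivSqZeroExt.fst * B.map TrivSqZeroExt.snd +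
      A.map TrivSqZeroExt.snd * B.map TrivSqZeroExt.fst := by
  ext i j
  simp only [Matrix.map_apply, Matrix.mul_apply, Matrix.add_apply, TrivSqZeroExt.snd_sum,
    TrivSqZeroExt.snd_mul, Finset.sum_add_distrib, smul_eq_mul, MulOpposite.smul_eq_mul_unop,
    MulOpposite.unop_op]

theorem map_fst_mul {m n p : Type} [Fintype n] (A : Matrix m n (TrivSqZeroExt K K))
    (B : Matrix n p (TrivSqZeroExt K K)) :
    (A * B).map TrivSqZeroExt.fst = A.map TrivSqZeroExt.fst * B.map TrivSqZeroExt.fst := by
  ext i j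
  simp only [Matrix.map_apply, Matrix.mul_apply, TrivSqZeroExt.fst_sum, TrivSqZeroExt.fst_mul]

omit [DivisionRing K] in
theorem ext_fst_snd {m n : Type} {A B : Matrix m n (TrivSqZeroExt K K)}
    (h1 : A.map TrivSqZeroExt.fst = B.map TrivSqZeroExt.fst)
    (h2 : A.map TrivSqZeroExt.snd = B.map TrivSqZeroExt.snd) : A = B := by
  ext i j
  · exact congrFun (congrFun h1 i) j
  · exact congrFun (congrFun h2 i) j

theorem isUnit_dual {n : ℕ} (A : Matrix (Fin n) (Fin n) (TrivSqZeroExt K K))
    (h : IsUnit (A.map TrivSqZeroExt.fst)) : IsUnit A := by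
  obtain ⟨u, hu⟩ := h
  set A0 := A.map TrivSqZeroExt.fst with hA0
  set A1 := A.map TrivSqZeroExt.snd with hA1
  set B0 : Matrix (Fin n) (Fin n) K := ↑(u⁻¹) with hB0
  have h1 : A0 * B0 = 1 := by rw [← hu]; exact u.mul_inv
  have h2 : B0 * A0 = 1 := by rw [← hu]; exact u.inv_mul
  set B : Matrix (Fin n) (Fin n) (TrivSqZeroExt K K) :=
    fun i j => TrivSqZeroExt.inl (B0 i j) + TrivSqZeroExt.inr (-(B0 * A1 * B0) i j) with hB
  have hBf : B.map TrivSqZeroExt.fst = B0 := by
    ext i j
    simp [hB]
  have hBs : B.map TrivSqZeroExt.snd = -(B0 * A1 * B0) := by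
    ext i j
    simp [hB]
  have h1f : (1 : Matrix (Fin n) (Fin n) (TrivSqZeroExt K K)).map TrivSqZeroExt.fst = 1 := by
    ext i j
    by_cases hij : i = j
    · subst hij; simp
    · simp [hij]
  have h1s : (1 : Matrix (Fin n) (Fin n) (TrivSqZeroExt K K)).map TrivSqZeroExt.snd = 0 := by
    ext i j
    by_cases hij : i = j
    · subst hij; simp
    · simp [hij]
  have hAB : A * B = 1 := by
    apply ext_fst_snd
    · rw [map_fst_mul, hBf, h1f, ← hA0, h1]
    · rw [map_snd_mul, hBf, hBs, h1s, ← hA0, ← hA1, mul_neg, Matrix.mul_assoc B0 A1 B0,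
        ← Matrix.mul_assoc A0 B0, h1, Matrix.one_mul, neg_add_cancel]
  have hBA : B * A = 1 := by
    apply ext_fst_snd
    · rw [map_fst_mul, hBf, h1f, ← hA0, h2]
    · rw [map_snd_mul, hBf, hBs, h1s, ← hA0, ← hA1, neg_mul, Matrix.mul_assoc (B0 * A1) B0 A0, h2,
        Matrix.mul_one, add_neg_cancel]
  exact ⟨⟨A, B, hAB, hBA⟩, rfl⟩

end Dual

/-! ### Adjoining elements with prescribed commutators -/

section Step

variable {F K S : Type} [DivisionRing F] [DivisionRing K]

/-- an elementary form of `e` is a basis of `K` as a left vector space over `F` -/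
structure LBasis (g : F →+* K) (I : Type) where
  e : I → K
  r : K →+ (I →₀ F)
  smul : ∀ (a : F) (v : K), r (g a * v) = a • r v
  expand : ∀ v : K, ((r v).sum fun j a => g a * e j) = v
  single : ∀ j, r (e j) = Finsupp.single j 1

theorem exists_LBasis (g : F →+* K) : ∃ I : Type, Nonempty (LBasis g I) := by
  let _ : Module F K := Module.compHom K g
  have hsm : ∀ (a : F) (v : K), a • v = g a * v := fun a v => rfl
  let b := Module.Free.chooseBasis F K
  refine ⟨Module.Free.ChooseBasisIndex F K, ⟨⟨b, b.repr.toLinearMap.toAddMonoidHom, ?_, ?_, ?_⟩⟩⟩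
  · intro a v
    exact b.repr.map_smul a v
  · intro v
    exact b.linearCombination_repr v
  · intro j
    exact b.repr_self j

variable {g : F →+* K} {I : Type} (L : LBasis g I)

theorem LBasis.induction (P : K → Prop) (h0 : P 0) (hadd : ∀ v w, P v → P w → P (v + w))
    (h1 : ∀ j (a : F), P (g a * L.e j)) (v : K) : P v := by
  rw [← L.expand v]
  refine Finset.sum_induction _ P hadd h0 ?_
  intro j _
  exact h1 j _

/-- `v = ∑ a j * e j ↦ ∑ (g (a j)) (j, s)` -/
noncomputable def LBasis.T (s : S) : K →+ (I × S →₀ K) :=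
  (Finsupp.liftAddHom fun j => (Finsupp.singleAddHom (j, s)).comp g.toAddMonoidHom).comp L.r

/-- `v = ∑ a j * e j ↦ ∑ δ (a j) * e j` -/
noncomputable def LBasis.D (δ : F →+ K) : K →+ K :=
  (Finsupp.liftAddHom fun j => (AddMonoidHom.mulRight (L.e j)).comp δ).comp L.r

theorem LBasis.T_apply (s : S) (v : K) :
    L.T s v = (L.r v).sum fun j a => Finsupp.single (j, s) (g a) := by
  rfl

theorem LBasis.D_apply (δ : F →+ K) (v : K) :
    L.D δ v = (L.r v).sum fun j a => δ a * L.e j := by
  rfl

theorem LBasis.T_smul (s : S) (a : F) (v : K) : L.T s (g a * v) = g a • L.T s v := by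
  rw [T_apply, T_apply, L.smul, Finsupp.smul_sum, Finsupp.sum_smul_index (by simp)]
  simp

theorem LBasis.D_smul (δ : F →+ K) (hδ : ∀ a b, δ (a * b) = g a * δ b + δ a * g b) (a : F)
    (v : K) : L.D δ (g a * v) = g a * L.D δ v + δ a * v := by
  have h : L.D δ (g a * v) = (L.r v).sum fun j b => (g a * (δ b * L.e j) + δ a * (g b * L.e j)) := by
    rw [D_apply, L.smul, Finsupp.sum_smul_index (by simp)]
    apply Finsupp.sum_congr
    intro j _
    rw [hδ, add_mul, mul_assoc, mul_assoc]
  rw [h, Finsupp.sum_add, ← Finsupp.mul_sum, ← Finsupp.mul_sum, L.expand, D_apply]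

theorem LBasis.T_e (s : S) (j : I) : L.T s (L.e j) = Finsupp.single (j, s) 1 := by
  rw [T_apply, L.single, Finsupp.sum_single_index (by simp)]
  simp

theorem LBasis.D_e (δ : F →+ K) (hδ1 : δ 1 = 0) (j : I) : L.D δ (L.e j) = 0 := by
  rw [D_apply, L.single, Finsupp.sum_single_index (by simp), hδ1, zero_mul]

theorem LBasis.T_mul (s : S) (v c : K) :
    L.T s (v * c) = (L.T s v).sum fun p a => a • L.T p.2 (L.e p.1 * c) := by
  induction v using L.induction with
  | h0 => simp
  | hadd v w hv hw =>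
    rw [add_mul, map_add, hv, hw, map_add, Finsupp.sum_add_index' (by simp)
      (by intro p a b; rw [add_smul])]
  | h1 j a =>
    rw [mul_assoc, T_smul, T_smul, T_e, Finsupp.smul_single, Finsupp.sum_single_index (by simp)]
    simp

theorem LBasis.D_mul (δ : S → F →+ K) (hδ : ∀ s a b, δ s (a * b) = g a * δ s b + δ s a * g b)
    (s : S) (v c : K) :
    L.D (δ s) (v * c) = ((L.T s v).sum fun p a => a * L.D (δ p.2) (L.e p.1 * c)) +
      L.D (δ s) v * c := by
  have hδ1 : δ s 1 = 0 := by
    have := hδ s 1 1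
    simpa using this
  induction v using L.induction with
  | h0 => simp
  | hadd v w hv hw =>
    rw [add_mul, map_add, hv, hw, map_add, Finsupp.sum_add_index' (by simp)
      (by intro p a b; rw [add_mul]), map_add, add_mul]
    abel
  | h1 j a =>
    rw [mul_assoc, D_smul _ _ (hδ s), D_smul _ _ (hδ s), T_smul, T_e, Finsupp.smul_single,
      Finsupp.sum_single_index (by simp), D_e _ _ hδ1]
    simp [mul_assoc]

/-- the skew free ring data attached to a family of derivations `F → K` -/
noncomputable def LBasis.data (δ : S → F →+ K)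
    (hδ : ∀ s a b, δ s (a * b) = g a * δ s b + δ s a * g b) : SFData K (I × S) where
  α c p := L.T p.2 (L.e p.1 * c)
  β c p := L.D (δ p.2) (L.e p.1 * c)
  α_one p := by rw [mul_one, T_e]
  α_add c c' p := by rw [mul_add, map_add]
  α_mul c c' p := by rw [← mul_assoc, T_mul]
  β_add c c' p := by rw [mul_add, map_add]
  β_mul c c' p := by rw [← mul_assoc, D_mul L δ hδ]

/-- **Step.** Adjoining elements inducing given derivations `δ s : F → K`. -/
theorem exists_inner (g : F →+* K) (δ : S → F →+ K)
    (hδ : ∀ s a b, δ s (a * b) = g a * δ s b + δ s a * g b) :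
    ∃ (K' : Type) (_ : DivisionRing K') (h : K →+* K') (y : S → K'),
      ∀ s a, y s * h (g a) = h (g a) * y s + h (δ s a) := by
  obtain ⟨I, ⟨L⟩⟩ := exists_LBasis g
  obtain ⟨B, iB, c, Y, hnt, hsyl, hrel, -, -⟩ := exists_SF K (I × S) (L.data δ hδ)
  obtain ⟨K', iK, i, hi⟩ := exists_UF hsyl
  -- the elements Y s * v
  let Z : S → K → B := fun s v => ((L.T s v).sum fun p a => c a * Y p) + c (L.D (δ s) v)
  have hZmul : ∀ s v w, Z s v * c w = Z s (v * w) := by
    intro s v w
    simp only [Z]
    rw [add_mul, Finsupp.sum_mul, L.T_mul, L.D_mul δ hδ, map_add, map_mul]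
    have h1 : ∀ (f : (I × S) →₀ K), (f.sum fun p a => c a * Y p * c w) =
        ((f.sum fun p a => a • L.T p.2 (L.e p.1 * w)).sum fun p a => c a * Y p) +
          c (f.sum fun p a => a * L.D (δ p.2) (L.e p.1 * w)) := by
      intro f
      induction f using Finsupp.induction_linear with
      | zero => simp
      | add f f' hf hf' =>
        rw [Finsupp.sum_add_index' (by simp) (by intro p a b; rw [map_add, add_mul, add_mul]),
          Finsupp.sum_add_index' (by simp) (by intro p a b; rw [add_smul]),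
          Finsupp.sum_add_index' (by simp) (by intro p a b; rw [map_add, add_mul]),
          Finsupp.sum_add_index' (by simp) (by intro p a b; rw [add_mul]), hf, hf', map_add]
        abel
      | single p a =>
        rw [Finsupp.sum_single_index (by simp), Finsupp.sum_single_index (by simp),
          Finsupp.sum_single_index (by simp), mul_assoc, hrel, mul_add, map_mul c a]
        congr 1
        rw [Finsupp.sum_smul_index (by simp), Finsupp.mul_sum]
        apply Finsupp.sum_congr
        intro q _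
        rw [map_mul c, mul_assoc]
    rw [h1]
    abel
  have hZsmul : ∀ s (a : F) v, Z s (g a * v) = c (g a) * Z s v + c (δ s a * v) := by
    intro s a v
    simp only [Z]
    rw [L.T_smul, L.D_smul _ (hδ s), Finsupp.sum_smul_index (by simp), map_add, map_mul, mul_add,
      Finsupp.mul_sum]
    have : ∀ f : (I × S) →₀ K, (f.sum fun p b => c (g a * b) * Y p) =
        f.sum fun p b => c (g a) * (c b * Y p) := by
      intro f
      apply Finsupp.sum_congr
      intro q _
      rw [map_mul, mul_assoc]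
    rw [this]
    abel
  refine ⟨K', iK, i.comp c, fun s => i (Z s 1), ?_⟩
  intro s a
  have h1 : Z s 1 * c (g a) = c (g a) * Z s 1 + c (δ s a) := by
    rw [hZmul, one_mul]
    have := hZsmul s a 1
    rwa [mul_one, mul_one] at this
  have h2 := congrArg i h1
  simpa using h2

end Step

/-! ### The base: a free division ring with a shift -/

section Base

/-- data of the free algebra over `𝔽₂` on `ℤ` -/
noncomputable def freeData : SFData (ZMod 2) ℤ where
  α c i := Finsupp.single i c
  β _ _ := 0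
  α_one _ := rfl
  α_add c c' i := Finsupp.single_add i c c'
  α_mul c c' i := by
    rw [Finsupp.sum_single_index (by simp), Finsupp.smul_single, smul_eq_mul]
  β_add _ _ _ := by simp
  β_mul c c' i := by simp

theorem zmod2_cases (a : ZMod 2) : a = 0 ∨ a = 1 := by
  fin_cases a
  · exact Or.inl rfl
  · exact Or.inr rfl

/-- The free division ring on `ζ j`, `j ∈ ℤ`, its shift, and derivations with arbitrary values on
the free generators. -/
theorem exists_free : ∃ (F : Type) (_ : DivisionRing F) (ζ : ℤ → F) (σ : F →+* F),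
    (∀ j, σ (ζ j) = ζ (j + 1)) ∧
    ∀ (K : Type) [DivisionRing K] (g : F →+* K) (f : ℤ → K), ∃ δ : F →+ K,
      (∀ a b, δ (a * b) = g a * δ b + δ a * g b) ∧ ∀ j, δ (ζ j) = f j := by
  obtain ⟨R, iR, c, Y, hnt, hsyl, hrel, hlift, hext⟩ := exists_SF (ZMod 2) ℤ freeData
  obtain ⟨F, iF, i, hi⟩ := exists_UF hsyl
  have hlift' : ∀ (S : Type) [Ring S] (f : ZMod 2 →+* S) (s : ℤ → S),
      ∃ φ : R →+* S, φ.comp c = f ∧ ∀ i, φ (Y i) = s i := by
    intro S _ f s
    apply hlift S f s
    intro a j
    simp only [freeData]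
    rw [Finsupp.sum_single_index (by simp)]
    rcases zmod2_cases a with rfl | rfl <;> simp
  -- the shift of `R`
  obtain ⟨τ, hτc, hτ⟩ := hlift' R c (fun j => Y (j + 1))
  obtain ⟨τ', hτ'c, hτ'⟩ := hlift' R c (fun j => Y (j - 1))
  have hττ' : τ'.comp τ = RingHom.id R := by
    apply hext
    · rw [RingHom.comp_assoc, hτc, hτ'c, RingHom.id_comp]
    · intro j
      simp [hτ, hτ']
  have hfullτ : ∀ (n : ℕ) (A : Matrix (Fin n) (Fin n) R), Full A → Full (A.map τ) := by
    intro n A hA r hr
    apply hA r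
    obtain ⟨P, Q, hPQ⟩ := hr
    refine ⟨P.map τ', Q.map τ', ?_⟩
    have h1 : (A.map τ).map τ' = A := by
      ext x y
      simp only [Matrix.map_apply]
      exact RingHom.congr_fun hττ' (A x y)
    rw [← h1, hPQ, Matrix.map_mul]
  obtain ⟨σ, hσ⟩ := hi.lift F (i.comp τ) (by
    intro n A hA
    have := hi.inv n (A.map τ) (hfullτ n A hA)
    rwa [Matrix.map_map] at this)
  refine ⟨F, iF, fun j => i (Y j), σ, ?_, ?_⟩
  · intro j
    have := RingHom.congr_fun hσ (Y j)
    simpa [hτ] using this
  · intro K _ g f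
    obtain ⟨φ, hφc, hφ⟩ := hlift' (TrivSqZeroExt K K)
      (((TrivSqZeroExt.inlHom K K).comp g).comp (i.comp c))
      (fun j => TrivSqZeroExt.inl (g (i (Y j))) + TrivSqZeroExt.inr (f j))
    have hfst : (fstR K).comp φ = g.comp i := by
      apply hext
      · rw [RingHom.comp_assoc, hφc]
        ext a
        rfl
      · intro j
        simp [hφ, fstR]
    obtain ⟨Φ, hΦ⟩ := hi.lift (TrivSqZeroExt K K) φ (by
      intro n A hA
      apply isUnit_dual
      have h1 := (hi.inv n A hA).map (g.mapMatrix (m := Fin n))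
      have h2 : (A.map φ).map TrivSqZeroExt.fst = g.mapMatrix (A.map i) := by
        ext x y
        simp only [Matrix.map_apply, RingHom.mapMatrix_apply]
        exact RingHom.congr_fun hfst (A x y)
      rw [h2]
      exact h1)
    have hΦfst : (fstR K).comp Φ = g := by
      apply hi.ext
      rw [RingHom.comp_assoc, hΦ, hfst]
    have hΦ' : ∀ a, (Φ a).fst = g a := fun a => RingHom.congr_fun hΦfst a
    refine ⟨⟨⟨fun a => (Φ a).snd, by simp⟩, by intro a b; simp⟩, ?_, ?_⟩
    · intro a b
      show (Φ (a * b)).snd = g a * (Φ b).snd + (Φ a).snd * g b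
      rw [map_mul, TrivSqZeroExt.snd_mul, hΦ', hΦ']
      simp
    · intro j
      show (Φ (i (Y j))).snd = f j
      have := RingHom.congr_fun hΦ (Y j)
      rw [RingHom.comp_apply] at this
      rw [this, hφ]
      simp

end Base

/-! ### Adding the element `x` -/

section AddX

/-- data of the skew polynomial ring `F[x; σ]` -/
noncomputable def skewData {F : Type} [DivisionRing F] (σ : F →+* F) : SFData F Unit where
  α c i := Finsupp.single i (σ c)
  β _ _ := 0
  α_one i := by rw [map_one]
  α_add c c' i := by rw [map_add, Finsupp.single_add]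
  α_mul c c' i := by
    rw [Finsupp.sum_single_index (by simp), Finsupp.smul_single, smul_eq_mul, map_mul]
  β_add _ _ _ := by simp
  β_mul c c' i := by simp

theorem exists_x {F : Type} [DivisionRing F] (σ : F →+* F) :
    ∃ (K : Type) (_ : DivisionRing K) (g : F →+* K) (x : K), x ≠ 0 ∧
      ∀ a, x * g a = g (σ a) * x := by
  obtain ⟨R, iR, c, Y, hnt, hsyl, hrel, hlift, hext⟩ := exists_SF F Unit (skewData σ)
  obtain ⟨K, iK, i, hi⟩ := exists_UF hsyl
  have hY : Y () ≠ 0 := by
    obtain ⟨φ, -, hφ⟩ := hlift (Module.End ℤ F) (Module.toModuleEnd ℤ F (S := F))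
      (fun _ => σ.toAddMonoidHom.toIntLinearMap) (by
        intro a i
        simp only [skewData]
        rw [Finsupp.sum_single_index (by rw [map_zero, zero_mul]), map_zero, add_zero]
        ext v
        simp)
    intro h0
    have h1 := hφ ()
    rw [h0, map_zero] at h1
    have h2 := LinearMap.congr_fun h1 1
    simp at h2
  refine ⟨K, iK, i.comp c, i (Y ()), ?_, ?_⟩
  · have hfull : Full (Matrix.of fun (_ _ : Fin 1) => Y ()) := by
      rintro r ⟨P, Q, hPQ⟩
      rcases Nat.eq_zero_or_pos r with h | h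
      · subst h
        exfalso
        have := congrFun (congrFun hPQ 0) 0
        simp [Matrix.mul_apply] at this
        exact hY this
      · simp only [Fintype.card_fin]
        omega
    have hu := hi.inv 1 _ hfull
    obtain ⟨u, hu⟩ := hu
    intro h0
    have h1 : (u : Matrix (Fin 1) (Fin 1) K) = 0 := by
      rw [hu]
      ext a b
      simp [h0]
    have h2 := u.mul_inv
    rw [h1, Matrix.zero_mul] at h2
    have := congrFun (congrFun h2 0) 0
    simp at this
  · intro a
    have h1 := hrel a ()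
    simp only [skewData] at h1
    rw [Finsupp.sum_single_index (by simp), map_zero, add_zero] at h1
    have h2 := congrArg i h1
    simpa using h2

end AddX

/-! ### The union of a tower -/

section Union

/-- a division ring under `F` -/
structure Obj (F : Type) [DivisionRing F] where
  K : Type
  inst : DivisionRing K
  g : F →+* K

attribute [instance] Obj.inst

variable {F : Type} [DivisionRing F]

/-- a solution of all commutator problems of the ring `o.K` -/
def Solves (ζ : ℤ → F) (o : Obj F) {K' : Type} [DivisionRing K'] (h : o.K →+* K') : Prop :=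
  ∀ (N : ℤ) (f : o.K), ∃ y : K', y * h (o.g (ζ N)) - h (o.g (ζ N)) * y = h f ∧
    ∀ j, j ≠ N → y * h (o.g (ζ j)) = h (o.g (ζ j)) * y

theorem exists_next (ζ : ℤ → F)
    (hder : ∀ (K : Type) [DivisionRing K] (g : F →+* K) (f : ℤ → K), ∃ δ : F →+ K,
      (∀ a b, δ (a * b) = g a * δ b + δ a * g b) ∧ ∀ j, δ (ζ j) = f j) (o : Obj F) :
    ∃ (K' : Type) (_ : DivisionRing K') (h : o.K →+* K'), Solves ζ o h := by
  classical
  choose δ hδ hδζ using fun s : ℤ × o.K => hder o.K o.g (fun j => if j = s.1 then s.2 else 0)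
  obtain ⟨K', iK, h, y, hy⟩ := exists_inner o.g δ hδ
  refine ⟨K', iK, h, ?_⟩
  intro N f
  refine ⟨y (N, f), ?_, ?_⟩
  · rw [hy, hδζ]
    simp
  · intro j hj
    rw [hy, hδζ]
    simp [hj]

/-- the next object of the tower -/
noncomputable def nextObj (ζ : ℤ → F)
    (hder : ∀ (K : Type) [DivisionRing K] (g : F →+* K) (f : ℤ → K), ∃ δ : F →+ K,
      (∀ a b, δ (a * b) = g a * δ b + δ a * g b) ∧ ∀ j, δ (ζ j) = f j) (o : Obj F) : Obj F where
  K := (exists_next ζ hder o).choose
  inst := (exists_next ζ hder o).choose_spec.choose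
  g := (exists_next ζ hder o).choose_spec.choose_spec.choose.comp o.g

/-- the map to the next object of the tower -/
noncomputable def nextHom (ζ : ℤ → F)
    (hder : ∀ (K : Type) [DivisionRing K] (g : F →+* K) (f : ℤ → K), ∃ δ : F →+ K,
      (∀ a b, δ (a * b) = g a * δ b + δ a * g b) ∧ ∀ j, δ (ζ j) = f j) (o : Obj F) :
    o.K →+* (nextObj ζ hder o).K :=
  (exists_next ζ hder o).choose_spec.choose_spec.choose

theorem nextHom_solves (ζ : ℤ → F)
    (hder : ∀ (K : Type) [DivisionRing K] (g : F →+* K) (f : ℤ → K), ∃ δ : F →+ K,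
      (∀ a b, δ (a * b) = g a * δ b + δ a * g b) ∧ ∀ j, δ (ζ j) = f j) (o : Obj F) :
    Solves ζ o (nextHom ζ hder o) :=
  (exists_next ζ hder o).choose_spec.choose_spec.choose_spec

variable (ζ : ℤ → F)
    (hder : ∀ (K : Type) [DivisionRing K] (g : F →+* K) (f : ℤ → K), ∃ δ : F →+ K,
      (∀ a b, δ (a * b) = g a * δ b + δ a * g b) ∧ ∀ j, δ (ζ j) = f j) (o₀ : Obj F)

/-- the tower -/
noncomputable def tower : ℕ → Obj F
  | 0 => o₀
  | n + 1 => nextObj ζ hder (tower n)

/-- the one-step maps of the tower -/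
noncomputable def towerStep (n : ℕ) :
    (tower ζ hder o₀ n).K →+* (tower ζ hder o₀ (n + 1)).K :=
  nextHom ζ hder (tower ζ hder o₀ n)

/-- the maps of the tower -/
noncomputable def towerMap (i j : ℕ) (h : i ≤ j) :
    (tower ζ hder o₀ i).K →+* (tower ζ hder o₀ j).K :=
  Nat.leRecOn h (fun {k} g => (towerStep ζ hder o₀ k).comp g) (RingHom.id _)

theorem towerMap_self (i : ℕ) : towerMap ζ hder o₀ i i le_rfl = RingHom.id _ :=
  Nat.leRecOn_self _

theorem towerMap_succ (i j : ℕ) (h : i ≤ j) :
    towerMap ζ hder o₀ i (j + 1) (Nat.le_succ_of_le h) =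
      (towerStep ζ hder o₀ j).comp (towerMap ζ hder o₀ i j h) :=
  Nat.leRecOn_succ h _

theorem towerMap_trans (i j k : ℕ) (hij : i ≤ j) (hjk : j ≤ k) :
    (towerMap ζ hder o₀ j k hjk).comp (towerMap ζ hder o₀ i j hij) =
      towerMap ζ hder o₀ i k (hij.trans hjk) := by
  induction k, hjk using Nat.le_induction with
  | base => rw [towerMap_self]; rfl
  | succ k hjk ih =>
    rw [towerMap_succ _ _ _ j k hjk, towerMap_succ _ _ _ i k (hij.trans hjk), RingHom.comp_assoc,
      ih]

instance towerSystem : DirectedSystem (fun i => (tower ζ hder o₀ i).K)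
    (towerMap ζ hder o₀ · · ·) :=
  ⟨fun i x => by rw [towerMap_self]; rfl,
    fun _ _ _ hij hjk x => RingHom.congr_fun (towerMap_trans ζ hder o₀ _ _ _ hij hjk) x⟩

theorem towerMap_g (i : ℕ) :
    (towerMap ζ hder o₀ 0 i (Nat.zero_le i)).comp o₀.g = (tower ζ hder o₀ i).g := by
  induction i with
  | zero =>
    rw [towerMap_self]
    rfl
  | succ i ih =>
    rw [towerMap_succ _ _ _ 0 i (Nat.zero_le i), RingHom.comp_assoc, ih]
    rfl

/-- the union of the tower -/
abbrev TowerLim : Type := DirectLimit (fun i => (tower ζ hder o₀ i).K) (towerMap ζ hder o₀)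

noncomputable instance : DivisionRing (TowerLim ζ hder o₀) := inferInstance

include ζ hder in
theorem exists_union :
    ∃ (K : Type) (_ : DivisionRing K) (h : o₀.K →+* K), ∀ (N : ℤ) (f : K), ∃ y : K,
      y * h (o₀.g (ζ N)) - h (o₀.g (ζ N)) * y = f ∧
        ∀ j, j ≠ N → y * h (o₀.g (ζ j)) = h (o₀.g (ζ j)) * y := by
  let of : ∀ i, (tower ζ hder o₀ i).K →+* TowerLim ζ hder o₀ :=
    fun i => DirectLimit.Ring.of _ (towerMap ζ hder o₀) i
  have hof : ∀ i j (h : i ≤ j) x, of j (towerMap ζ hder o₀ i j h x) = of i x :=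
    fun i j h x => DirectLimit.Ring.of_f (G := fun i => (tower ζ hder o₀ i).K)
      (f := towerMap ζ hder o₀) h x
  have hofg : ∀ i a, of i ((tower ζ hder o₀ i).g a) = of 0 (o₀.g a) := by
    intro i a
    rw [← towerMap_g, RingHom.comp_apply]
    exact hof 0 i (Nat.zero_le i) (o₀.g a)
  refine ⟨TowerLim ζ hder o₀, inferInstance, of 0, ?_⟩
  intro N f
  obtain ⟨n, f, rfl⟩ : ∃ n x, f = of n x := by
    induction f using DirectLimit.induction with
    | _ n x => exact ⟨n, x, rfl⟩
  obtain ⟨y, hy1, hy2⟩ : ∃ y : (tower ζ hder o₀ (n + 1)).K,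
      y * towerStep ζ hder o₀ n ((tower ζ hder o₀ n).g (ζ N)) -
        towerStep ζ hder o₀ n ((tower ζ hder o₀ n).g (ζ N)) * y = towerStep ζ hder o₀ n f ∧
      ∀ j, j ≠ N → y * towerStep ζ hder o₀ n ((tower ζ hder o₀ n).g (ζ j)) =
        towerStep ζ hder o₀ n ((tower ζ hder o₀ n).g (ζ j)) * y :=
    nextHom_solves ζ hder (tower ζ hder o₀ n) N f
  have hstep : ∀ x, of (n + 1) (towerStep ζ hder o₀ n x) = of n x := by
    intro x
    have h1 : towerMap ζ hder o₀ n (n + 1) (Nat.le_succ n) = towerStep ζ hder o₀ n := by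
      rw [towerMap_succ _ _ _ n n le_rfl, towerMap_self]
      rfl
    have := hof n (n + 1) (Nat.le_succ n) x
    rw [h1] at this
    exact this
  refine ⟨of (n + 1) y, ?_, ?_⟩
  · have := congrArg (of (n + 1)) hy1
    rw [map_sub, map_mul, map_mul, hstep, hstep, hofg] at this
    exact this
  · intro j hj
    have := congrArg (of (n + 1)) (hy2 j hj)
    rw [map_mul, map_mul, hstep, hofg] at this
    exact this

end Union

theorem exists_K : ∃ (K : Type) (_ : DivisionRing K) (x : K) (z : ℤ → K), x ≠ 0 ∧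
    (∀ j, x * z j = z (j + 1) * x) ∧
    (∀ (N : ℤ) (f : K), ∃ y : K, y * z N - z N * y = f ∧ ∀ j, j ≠ N → y * z j = z j * y) := by
  obtain ⟨F, iF, ζ, σ, hσ, hder⟩ := exists_free
  obtain ⟨K₀, iK₀, g, x, hx, hxg⟩ := exists_x σ
  obtain ⟨K, iK, h, hK⟩ := exists_union ζ hder ⟨K₀, iK₀, g⟩
  refine ⟨K, iK, h x, fun j => h (g (ζ j)), ?_, ?_, hK⟩
  · intro h0
    exact hx (h.injective (by rw [h0, map_zero]))
  · intro j
    rw [← map_mul, ← map_mul, hxg, hσ]

end Pool.Agent.FGDiv
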