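import Pool.Agent.MP_e77664_al.Tower
import Pool.Agent.MP_e77664_al.Laurent

/-!
# Infinite division rings finitely generated as rings, in every characteristic

The construction of `Tower` over an arbitrary prime field instead of `𝔽₂`, and the number of
generators.
-/

set_option autoImplicit false

namespace Pool.Agent.FGDiv

section Base

/-- data of the free algebra over the field `k` on `ℤ` -/
noncomputable def freeDataK (k : Type) [Field k] : SFData k ℤ where
  α c i := Finsupp.single i c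
  β _ _ := 0
  α_one _ := rfl
  α_add c c' i := Finsupp.single_add i c c'
  α_mul c c' i := by
    rw [Finsupp.sum_single_index (by simp), Finsupp.smul_single, smul_eq_mul]
  β_add _ _ _ := by simp
  β_mul c c' i := by simp

/-- The free division ring over the prime field `k` on `ζ j`, `j ∈ ℤ`, its shift, and derivations
with arbitrary values on the free generators. -/
theorem exists_freeK (k : Type) [Field k]
    (hk : ∀ (S : Type) [Ring S] (f : k →+* S) (a : k) (s : S), s * f a = f a * s) :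
    ∃ (F : Type) (_ : DivisionRing F) (_ : k →+* F) (ζ : ℤ → F) (σ : F →+* F),
    (∀ j, σ (ζ j) = ζ (j + 1)) ∧
    ∀ (K : Type) [DivisionRing K] (g : F →+* K) (f : ℤ → K), ∃ δ : F →+ K,
      (∀ a b, δ (a * b) = g a * δ b + δ a * g b) ∧ ∀ j, δ (ζ j) = f j := by
  obtain ⟨R, iR, c, Y, hnt, hsyl, hrel, hlift, hext⟩ := exists_SF k ℤ (freeDataK k)
  obtain ⟨F, iF, i, hi⟩ := exists_UF hsyl
  have hlift' : ∀ (S : Type) [Ring S] (f : k →+* S) (s : ℤ → S),
      ∃ φ : R →+* S, φ.comp c = f ∧ ∀ i, φ (Y i) = s i := by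
    intro S _ f s
    apply hlift S f s
    intro a j
    simp only [freeDataK]
    rw [Finsupp.sum_single_index (by simp), map_zero, add_zero]
    exact hk S f a (s j)
  -- the shift of `R`
  obtain ⟨τ, hτc, hτ⟩ := hlift' R c (fun j => Y (j + 1))
  obtain ⟨τ', hτ'c, hτ'⟩ := hlift' R c (fun j => Y (j - 1))
  have hττ' : τ'.comp τ = RingHom.id R := by
    apply hext
    · rw [RingHom.comp_assoc, hτc, hτ'c, RingHom.id_comp]
    · intro j
      simp [hτ, hτ']
  have hfullτ : ∀ (n : ℕ) (A : Matrix (Fin n) (Fin n) R), Full A → Full (A.map τ) := by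
    intro n A hA r hr
    apply hA r
    obtain ⟨P, Q, hPQ⟩ := hr
    refine ⟨P.map τ', Q.map τ', ?_⟩
    have h1 : (A.map τ).map τ' = A := by
      ext x y
      simp only [Matrix.map_apply]
      exact RingHom.congr_fun hττ' (A x y)
    rw [← h1, hPQ, Matrix.map_mul]
  obtain ⟨σ, hσ⟩ := hi.lift F (i.comp τ) (by
    intro n A hA
    have := hi.inv n (A.map τ) (hfullτ n A hA)
    rwa [Matrix.map_map] at this)
  refine ⟨F, iF, i.comp c, fun j => i (Y j), σ, ?_, ?_⟩
  · intro j
    have := RingHom.congr_fun hσ (Y j)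
    simpa [hτ] using this
  · intro K _ g f
    obtain ⟨φ, hφc, hφ⟩ := hlift' (TrivSqZeroExt K K)
      (((TrivSqZeroExt.inlHom K K).comp g).comp (i.comp c))
      (fun j => TrivSqZeroExt.inl (g (i (Y j))) + TrivSqZeroExt.inr (f j))
    have hfst : (fstR K).comp φ = g.comp i := by
      apply hext
      · rw [RingHom.comp_assoc, hφc]
        ext a
        rfl
      · intro j
        simp [hφ, fstR]
    obtain ⟨Φ, hΦ⟩ := hi.lift (TrivSqZeroExt K K) φ (by
      intro n A hA
      apply isUnit_dual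
      have h1 := (hi.inv n A hA).map (g.mapMatrix (m := Fin n))
      have h2 : (A.map φ).map TrivSqZeroExt.fst = g.mapMatrix (A.map i) := by
        ext x y
        simp only [Matrix.map_apply, RingHom.mapMatrix_apply]
        exact RingHom.congr_fun hfst (A x y)
      rw [h2]
      exact h1)
    have hΦfst : (fstR K).comp Φ = g := by
      apply hi.ext
      rw [RingHom.comp_assoc, hΦ, hfst]
    have hΦ' : ∀ a, (Φ a).fst = g a := fun a => RingHom.congr_fun hΦfst a
    refine ⟨⟨⟨fun a => (Φ a).snd, by simp⟩, by intro a b; simp⟩, ?_, ?_⟩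
    · intro a b
      show (Φ (a * b)).snd = g a * (Φ b).snd + (Φ a).snd * g b
      rw [map_mul, TrivSqZeroExt.snd_mul, hΦ', hΦ']
      simp
    · intro j
      show (Φ (i (Y j))).snd = f j
      have := RingHom.congr_fun hΦ (Y j)
      rw [RingHom.comp_apply] at this
      rw [this, hφ]
      simp

end Base

theorem exists_KK (k : Type) [Field k]
    (hk : ∀ (S : Type) [Ring S] (f : k →+* S) (a : k) (s : S), s * f a = f a * s) :
    ∃ (K : Type) (_ : DivisionRing K) (_ : k →+* K) (x : K) (z : ℤ → K), x ≠ 0 ∧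
    (∀ j, x * z j = z (j + 1) * x) ∧
    (∀ (N : ℤ) (f : K), ∃ y : K, y * z N - z N * y = f ∧ ∀ j, j ≠ N → y * z j = z j * y) := by
  obtain ⟨F, iF, c, ζ, σ, hσ, hder⟩ := exists_freeK k hk
  obtain ⟨K₀, iK₀, g, x, hx, hxg⟩ := exists_x σ
  obtain ⟨K, iK, h, hK⟩ := exists_union ζ hder ⟨K₀, iK₀, g⟩
  refine ⟨K, iK, (h.comp g).comp c, h x, fun j => h (g (ζ j)), ?_, ?_, hK⟩
  · intro h0
    exact hx (h.injective (by rw [h0, map_zero]))
  · intro j
    rw [← map_mul, ← map_mul, hxg, hσ]

theorem central_zmod (n : ℕ) (S : Type) [Ring S] (f : ZMod n →+* S) (a : ZMod n) (s : S) :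
    s * f a = f a * s := by
  obtain ⟨m, rfl⟩ := ZMod.intCast_surjective a
  rw [map_intCast]
  exact (Int.cast_commute m s).eq.symm

theorem central_rat (S : Type) [Ring S] (f : ℚ →+* S) (a : ℚ) (s : S) :
    s * f a = f a * s := by
  have h1 : ∀ (d : ℕ), d ≠ 0 → s * f ((d : ℚ)⁻¹) = f ((d : ℚ)⁻¹) * s := by
    intro d hd
    have hd' : (d : ℚ) ≠ 0 := Nat.cast_ne_zero.2 hd
    have h2 : (d : S) * f ((d : ℚ)⁻¹) = 1 := by
      rw [← map_natCast f d, ← map_mul, mul_inv_cancel₀ hd', map_one]
    have h3 : f ((d : ℚ)⁻¹) * (d : S) = 1 := by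
      rw [← map_natCast f d, ← map_mul, inv_mul_cancel₀ hd', map_one]
    calc s * f ((d : ℚ)⁻¹) = (f ((d : ℚ)⁻¹) * (d : S)) * (s * f ((d : ℚ)⁻¹)) := by
          rw [h3, one_mul]
      _ = f ((d : ℚ)⁻¹) * ((d : S) * s) * f ((d : ℚ)⁻¹) := by simp only [mul_assoc]
      _ = f ((d : ℚ)⁻¹) * (s * (d : S)) * f ((d : ℚ)⁻¹) := by rw [(Nat.cast_commute d s).eq]
      _ = f ((d : ℚ)⁻¹) * s * ((d : S) * f ((d : ℚ)⁻¹)) := by simp only [mul_assoc]
      _ = f ((d : ℚ)⁻¹) * s := by rw [h2, mul_one]
  have h4 : f a = (a.num : S) * f ((a.den : ℚ)⁻¹) := by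
    rw [← map_intCast f a.num, ← map_mul]
    congr 1
    rw [← div_eq_mul_inv, Rat.num_div_den]
  rw [h4, ← mul_assoc, ← (Int.cast_commute a.num s).eq, mul_assoc, h1 a.den a.den_nz, mul_assoc]

/-- `final_of_K` with the characteristic and the number of generators. -/
theorem final_of_KK (K : Type) [DivisionRing K] (x : K) (z : ℤ → K) (hx : x ≠ 0)
    (hxz : ∀ j, x * z j = z (j + 1) * x)
    (hK : ∀ (N : ℤ) (f : K), ∃ y : K, y * z N - z N * y = f ∧ ∀ j, j ≠ N → y * z j = z j * y) :
    ∃ (D : Type) (_ : DivisionRing D), (∀ p : ℕ, CharP K p → CharP D p) ∧ Infinite D ∧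
      ∃ s : Finset D, s.card ≤ 6 ∧ Subring.closure (s : Set D) = ⊤ := by
  classical
  let g : Fin 5 → HahnSeries ℤ K := ![HahnSeries.single 1 1, HahnSeries.single (-1) 1,
    HahnSeries.C x, HahnSeries.C x⁻¹, HahnSeries.C (z 0)]
  have hg : ∀ i, g i ∈ FL K (-1) := by
    intro i
    fin_cases i
    · exact FL_anti (by norm_num) (FL_single 1 1)
    · exact FL_single (-1) 1
    · exact FL_anti (by norm_num) (FL_C x)
    · exact FL_anti (by norm_num) (FL_C x⁻¹)
    · exact FL_anti (by norm_num) (FL_C (z 0))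
  obtain ⟨t, ht⟩ := exists_limit z hK g hg
  set X : Set (HahnSeries ℤ K) := insert t (Set.range g) with hX
  set S : Subring (HahnSeries ℤ K) := Subring.closure X with hS
  have hgS : ∀ i, g i ∈ S := fun i => Subring.subset_closure (Set.mem_insert_of_mem _ ⟨i, rfl⟩)
  have htS : t ∈ S := Subring.subset_closure (Set.mem_insert _ _)
  have hev : ∀ q, ev g t q ∈ S := by
    intro q
    induction q with
    | c i => exact hgS i
    | t => exact htS
    | one => exact S.one_mem
    | add p q ihp ihq => exact S.add_mem ihp ihq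
    | neg p ihp => exact S.neg_mem ihp
    | mul p q ihp ihq => exact S.mul_mem ihp ihq
  have hev' : ∀ f ∈ S, ∃ q, ev g t q = f := by
    intro f hf
    induction hf using Subring.closure_induction with
    | mem y hy =>
      rcases hy with rfl | ⟨i, rfl⟩
      · exact ⟨.t, rfl⟩
      · exact ⟨.c i, rfl⟩
    | zero => exact ⟨.add .one (.neg .one), by simp [ev]⟩
    | one => exact ⟨.one, rfl⟩
    | add a b _ _ iha ihb =>
      obtain ⟨p, hp⟩ := iha
      obtain ⟨q, hq⟩ := ihb
      exact ⟨.add p q, by simp [ev, hp, hq]⟩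
    | neg a _ iha =>
      obtain ⟨p, hp⟩ := iha
      exact ⟨.neg p, by simp [ev, hp]⟩
    | mul a b _ _ iha ihb =>
      obtain ⟨p, hp⟩ := iha
      obtain ⟨q, hq⟩ := ihb
      exact ⟨.mul p q, by simp [ev, hp, hq]⟩
  have hxS : HahnSeries.C x ∈ S := hgS 2
  have hxiS : HahnSeries.C x⁻¹ ∈ S := hgS 3
  have hz0S : HahnSeries.C (z 0) ∈ S := hgS 4
  have hzS : ∀ j : ℤ, (HahnSeries.C (z j) : HahnSeries ℤ K) ∈ S := by
    intro j
    induction j using Int.induction_on with
    | zero => exact hz0S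
    | succ i ih =>
      have h1 : z ((i : ℤ) + 1) = x * z i * x⁻¹ := by
        rw [hxz i, mul_assoc, mul_inv_cancel₀ hx, mul_one]
      rw [h1, map_mul, map_mul]
      exact S.mul_mem (S.mul_mem hxS ih) hxiS
    | pred i ih =>
      have h1 : z (-(i : ℤ) - 1) = x⁻¹ * z (-(i : ℤ)) * x := by
        have h2 := hxz (-(i : ℤ) - 1)
        rw [sub_add_cancel] at h2
        rw [mul_assoc, ← h2, ← mul_assoc, inv_mul_cancel₀ hx, one_mul]
      rw [h1, map_mul, map_mul]
      exact S.mul_mem (S.mul_mem hxiS ih) hxS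
  have htauS : ∀ M : ℕ, (HahnSeries.single (-(M : ℤ)) (1 : K)) ∈ S := by
    intro M
    have h1 : (HahnSeries.single (-1 : ℤ) (1 : K)) ^ M = HahnSeries.single (-(M : ℤ)) (1 : K) := by
      rw [HahnSeries.single_pow]; simp
    rw [← h1]
    exact S.pow_mem (hgS 1) M
  have hinvS : ∀ f ∈ S, f ≠ 0 → Ring.inverse f ∈ S := by
    intro f hf hf0
    obtain ⟨q, hq⟩ := hev' f hf
    obtain ⟨j, M, hM⟩ := ht q (by rw [hq]; exact hf0)
    rw [hq] at hM
    have h1 : Ring.inverse f = HahnSeries.single (-(M : ℤ)) (1 : K) *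
        (t * HahnSeries.C (z j) - HahnSeries.C (z j) * t) := by
      rw [hM, ← mul_assoc, HahnSeries.single_mul_single]
      simp
    rw [h1]
    exact S.mul_mem (htauS M) (S.sub_mem (S.mul_mem htS (hzS j)) (S.mul_mem (hzS j) htS))
  have hunit : ∀ a : S, IsUnit a ∨ a = 0 := by
    intro a
    by_cases ha : a = 0
    · exact Or.inr ha
    · left
      have ha' : (a : HahnSeries ℤ K) ≠ 0 := fun h => ha (Subtype.ext h)
      have hu := isUnit_of_ne ha'
      refine ⟨⟨a, ⟨Ring.inverse (a : HahnSeries ℤ K), hinvS _ a.2 ha'⟩, ?_, ?_⟩, rfl⟩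
      · exact Subtype.ext (Ring.mul_inverse_cancel _ hu)
      · exact Subtype.ext (Ring.inverse_mul_cancel _ hu)
  have hinf : Infinite S := by
    -- infinitely many powers of `tau`
    refine Infinite.of_injective
      (fun n : ℕ => (⟨HahnSeries.single (-(n : ℤ)) (1 : K), htauS n⟩ : S)) ?_
    intro m n hmn
    have h1 : (HahnSeries.single (-(m : ℤ)) (1 : K)) = HahnSeries.single (-(n : ℤ)) (1 : K) :=
      congrArg Subtype.val hmn
    have h2 := congrArg (fun f : HahnSeries ℤ K => f.coeff (-(m : ℤ))) h1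
    simp only [HahnSeries.coeff_single_same] at h2
    by_contra hne
    rw [HahnSeries.coeff_single_of_ne (by omega)] at h2
    exact one_ne_zero h2
  have hfin : ((Subtype.val : S → HahnSeries ℤ K) ⁻¹' X).Finite :=
    Set.Finite.preimage Subtype.val_injective.injOn ((Set.finite_range g).insert t)
  have key : ∀ q, (⟨ev g t q, hev q⟩ : S) ∈
      Subring.closure ((Subtype.val : S → HahnSeries ℤ K) ⁻¹' X) := by
    intro q
    induction q with
    | c i => exact Subring.subset_closure (Set.mem_insert_of_mem _ ⟨i, rfl⟩)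
    | t => exact Subring.subset_closure (Set.mem_insert _ _)
    | one =>
      have h : (⟨ev g t .one, hev .one⟩ : S) = 1 := Subtype.ext rfl
      rw [h]
      exact Subring.one_mem _
    | add p q ihp ihq =>
      have h : (⟨ev g t (p.add q), hev (p.add q)⟩ : S) =
        (⟨ev g t p, hev p⟩ : S) + (⟨ev g t q, hev q⟩ : S) := Subtype.ext rfl
      rw [h]
      exact Subring.add_mem _ ihp ihq
    | neg p ihp =>
      have h : (⟨ev g t p.neg, hev p.neg⟩ : S) = -(⟨ev g t p, hev p⟩ : S) := Subtype.ext rfl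
      rw [h]
      exact Subring.neg_mem _ ihp
    | mul p q ihp ihq =>
      have h : (⟨ev g t (p.mul q), hev (p.mul q)⟩ : S) =
        (⟨ev g t p, hev p⟩ : S) * (⟨ev g t q, hev q⟩ : S) := Subtype.ext rfl
      rw [h]
      exact Subring.mul_mem _ ihp ihq
  have htop : Subring.closure ((hfin.toFinset : Finset S) : Set S) = ⊤ := by
    rw [Set.Finite.coe_toFinset, eq_top_iff]
    rintro ⟨a, ha⟩ -
    obtain ⟨q, hq⟩ := hev' a ha
    have h3 := key q
    have h4 : (⟨ev g t q, hev q⟩ : S) = ⟨a, ha⟩ := Subtype.ext hq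
    rw [h4] at h3
    exact h3
  have hcard : hfin.toFinset.card ≤ 6 := by
    have h1 : hfin.toFinset.image Subtype.val ⊆ insert t (Finset.univ.image g) := by
      intro y hy
      rw [Finset.mem_image] at hy
      obtain ⟨a, ha, rfl⟩ := hy
      rw [Set.Finite.mem_toFinset] at ha
      rcases ha with h | ⟨i, hi⟩
      · exact Finset.mem_insert.2 (Or.inl h)
      · exact Finset.mem_insert.2 (Or.inr (Finset.mem_image.2 ⟨i, Finset.mem_univ _, hi⟩))
    have h2 := Finset.card_le_card h1
    rw [Finset.card_image_of_injective _ Subtype.val_injective] at h2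
    refine h2.trans ((Finset.card_insert_le _ _).trans ?_)
    have h3 := Finset.card_image_le (s := (Finset.univ : Finset (Fin 5))) (f := g)
    rw [Finset.card_univ, Fintype.card_fin] at h3
    omega
  have hchar : ∀ p : ℕ, CharP K p → CharP S p := by
    intro p hp
    have h1 : CharP (HahnSeries ℤ K) p :=
      charP_of_injective_ringHom (f := (HahnSeries.C : K →+* HahnSeries ℤ K))
        HahnSeries.C_injective p
    exact ⟨fun n => by
      rw [← CharP.cast_eq_zero_iff (HahnSeries ℤ K) p n]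
      constructor
      · intro h
        have := congrArg Subtype.val h
        simpa using this
      · intro h
        apply Subtype.ext
        simpa using h⟩
  exact ⟨S, DivisionRing.ofIsUnitOrEqZero hunit, hchar, hinf, hfin.toFinset, hcard, htop⟩

/-- In every characteristic there is an infinite division ring generated as a ring by six
elements. -/
theorem exists_fg_charP (p : ℕ) (hp : p = 0 ∨ p.Prime) :
    ∃ (D : Type) (_ : DivisionRing D), CharP D p ∧ Infinite D ∧
      ∃ s : Finset D, s.card ≤ 6 ∧ Subring.closure (s : Set D) = ⊤ := by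
  rcases hp with rfl | hp
  · obtain ⟨K, _, c, x, z, hx, hxz, hK⟩ := exists_KK ℚ central_rat
    obtain ⟨D, iD, h1, h2⟩ := final_of_KK K x z hx hxz hK
    exact ⟨D, iD, h1 0 (charP_of_injective_ringHom c.injective 0), h2⟩
  · haveI : Fact p.Prime := ⟨hp⟩
    obtain ⟨K, _, c, x, z, hx, hxz, hK⟩ := exists_KK (ZMod p) (fun S _ => central_zmod p S)
    obtain ⟨D, iD, h1, h2⟩ := final_of_KK K x z hx hxz hK
    exact ⟨D, iD, h1 p (charP_of_injective_ringHom c.injective p), h2⟩

end Pool.Agent.FGDiv
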